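import Pool.Agent.Helper855N.LLN

set_option autoImplicit false
set_option linter.unusedSectionVars false

/-! The law of large numbers with conditional expectations bounded from below. -/

namespace Pool.Agent.Helper855N

open MeasureTheory Filter Topology Finset

section

variable {Ω : Type} (m : MeasurableSpace Ω) {m0 : MeasurableSpace Ω} (μ : Measure Ω) [IsProbabilityMeasure μ]

/-- conditional expectation cut off at `0` and `1` -/
noncomputable def YY (X : Ω → ℝ) (ω : Ω) : ℝ := max 0 (min 1 ((μ[X | m]) ω))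

lemma YY_nonneg (X : Ω → ℝ) (ω : Ω) : 0 ≤ YY m μ X ω := le_max_left _ _

lemma YY_le_one (X : Ω → ℝ) (ω : Ω) : YY m μ X ω ≤ 1 :=
  max_le zero_le_one (min_le_left _ _)

lemma YY_meas (X : Ω → ℝ) : StronglyMeasurable[m] (YY m μ X) := by
  have h : StronglyMeasurable[m] (μ[X | m]) := stronglyMeasurable_condExp
  have h1 : Measurable[m] (μ[X | m]) := h.measurable
  apply Measurable.stronglyMeasurable
  exact Measurable.max (@measurable_const _ _ _ m _) (Measurable.min (@measurable_const _ _ _ m _) h1)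

lemma YY_ae (hm : m ≤ m0) (X : Ω → ℝ) (hX : Integrable X μ)
    (hX0 : ∀ ω, 0 ≤ X ω) (hX1 : ∀ ω, X ω ≤ 1) : YY m μ X =ᵐ[μ] μ[X | m] := by
  have h1 : (fun _ => (0 : ℝ)) ≤ᵐ[μ] μ[X | m] := by
    have h := condExp_mono (μ := μ) (m := m) (f := fun _ => (0 : ℝ)) (g := X) (integrable_const _) hX
      (by filter_upwards with ω using hX0 ω)
    rw [condExp_const hm] at h
    exact h
  have h2 : μ[X | m] ≤ᵐ[μ] (fun _ => (1 : ℝ)) := by
    have h := condExp_mono (μ := μ) (m := m) (f := X) (g := fun _ => (1 : ℝ)) hX (integrable_const _)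
      (by filter_upwards with ω using hX1 ω)
    rw [condExp_const hm] at h
    exact h
  filter_upwards [h1, h2] with ω h3 h4
  unfold YY
  rw [min_eq_right h4, max_eq_right h3]

end

variable {Ω : Type} [m0 : MeasurableSpace Ω] (μ : Measure Ω) [IsProbabilityMeasure μ]

theorem lln_cond (F : ℕ → MeasurableSpace Ω) (hF : ∀ k, F k ≤ m0) (hmono : Monotone F)
    (X : ℕ → Ω → ℝ) (k ℓ : ℕ → ℕ) (hℓk : ∀ n, ℓ n < k n)
    (hX : ∀ n, StronglyMeasurable[F (k n)] (X n)) (hX0 : ∀ n ω, 0 ≤ X n ω) (hX1 : ∀ n ω, X n ω ≤ 1)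
    (κ : ℝ) (hκ : ∀ ε : ℝ, 0 < ε → ∀ᶠ n in atTop, ∀ᵐ ω ∂μ, κ - ε ≤ (μ[X n | F (ℓ n)]) ω)
    (w : ℕ → ℝ) (hw : ∀ n, 0 ≤ w n) (B : ℝ)
    (hblock : ∀ n N, ∑ m ∈ (Ico n N).filter (fun m => ℓ m < k n), w m ≤ B)
    (hdiv : Tendsto (WW w) atTop atTop) :
    ∀ᵐ ω ∂μ, ∀ ε : ℝ, 0 < ε → ∀ᶠ N in atTop, (κ - ε) * WW w N ≤ SS w X N ω := by
  have hXm : ∀ n, Measurable (X n) := fun n => ((hX n).mono (hF _)).measurable
  have hXi : ∀ n, Integrable (X n) μ := by
    intro n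
    apply Integrable.of_bound (hXm n).aestronglyMeasurable 1
    filter_upwards with ω
    rw [Real.norm_eq_abs, abs_of_nonneg (hX0 n ω)]
    exact hX1 n ω
  obtain ⟨Y, hY⟩ : ∃ Y : ℕ → Ω → ℝ, Y = fun n => YY (F (ℓ n)) μ (X n) := ⟨_, rfl⟩
  have hY0 : ∀ n ω, 0 ≤ Y n ω := fun n ω => by rw [hY]; exact YY_nonneg _ μ _ ω
  have hY1 : ∀ n ω, Y n ω ≤ 1 := fun n ω => by rw [hY]; exact YY_le_one _ μ _ ω
  have hYs : ∀ n, StronglyMeasurable[F (ℓ n)] (Y n) := fun n => by rw [hY]; exact YY_meas _ μ _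
  have hYae : ∀ n, Y n =ᵐ[μ] μ[X n | F (ℓ n)] := fun n => by
    rw [hY]; exact YY_ae _ μ (hF _) _ (hXi n) (hX0 n) (hX1 n)
  have hYi : ∀ n, Integrable (Y n) μ := by
    intro n
    apply Integrable.of_bound ((hYs n).mono (hF _)).aestronglyMeasurable 1
    filter_upwards with ω
    rw [Real.norm_eq_abs, abs_of_nonneg (hY0 n ω)]
    exact hY1 n ω
  obtain ⟨Z, hZ⟩ : ∃ Z : ℕ → Ω → ℝ, Z = fun n => X n - Y n := ⟨_, rfl⟩
  have hZe : ∀ n ω, Z n ω = X n ω - Y n ω := fun n ω => by rw [hZ]; rfl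
  have hZb : ∀ n ω, |Z n ω| ≤ 1 := by
    intro n ω
    rw [hZe, abs_le]
    constructor <;> linarith [hX0 n ω, hX1 n ω, hY0 n ω, hY1 n ω]
  have hZs : ∀ n, StronglyMeasurable[F (k n)] (Z n) := by
    intro n
    rw [hZ]
    exact (hX n).sub ((hYs n).mono (hmono (hℓk n).le))
  have hZi : ∀ n, Integrable (Z n) μ := fun n => by rw [hZ]; exact (hXi n).sub (hYi n)
  have hZ0 : ∀ n, μ[Z n | F (ℓ n)] =ᵐ[μ] 0 := by
    intro n
    have h1 : μ[Z n | F (ℓ n)] =ᵐ[μ] μ[X n | F (ℓ n)] - μ[Y n | F (ℓ n)] := by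
      rw [hZ]; exact condExp_sub (hXi n) (hYi n) _
    have h2 : μ[Y n | F (ℓ n)] = Y n := condExp_of_stronglyMeasurable (hF _) (hYs n) (hYi n)
    rw [h2] at h1
    filter_upwards [h1, hYae n] with ω h3 h4
    rw [h3]
    simp only [Pi.sub_apply, Pi.zero_apply]
    rw [h4, sub_self]
  have horth : ∀ n m, n < m → k n ≤ ℓ m → ∫ ω, Z n ω * Z m ω ∂μ = 0 := by
    intro n m _ hkm
    have hs : StronglyMeasurable[F (ℓ m)] (Z n) := (hZs n).mono (hmono hkm)
    have h1 : μ[Z n * Z m | F (ℓ m)] =ᵐ[μ] Z n * μ[Z m | F (ℓ m)] :=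
      condExp_stronglyMeasurable_mul_of_bound (hF _) hs (hZi m) 1
        (by filter_upwards with ω using hZb n ω)
    have h2 : ∫ ω, (μ[Z n * Z m | F (ℓ m)]) ω ∂μ = ∫ ω, (Z n * Z m) ω ∂μ := integral_condExp (hF _)
    have h3 : ∫ ω, Z n ω * Z m ω ∂μ = ∫ ω, (Z n * Z m) ω ∂μ := rfl
    rw [h3, ← h2]
    have h4 : μ[Z n * Z m | F (ℓ m)] =ᵐ[μ] 0 := by
      filter_upwards [h1, hZ0 m] with ω h5 h6
      rw [h5]
      simp only [Pi.mul_apply, Pi.zero_apply]
      rw [h6]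
      simp
    rw [integral_congr_ae h4]
    simp
  have hZm : ∀ n, Measurable (Z n) := fun n => ((hZs n).mono (hF _)).measurable
  have main : ∀ j : ℕ, ∀ᵐ ω ∂μ, ∀ᶠ N in atTop, (κ - 1 / ((j : ℝ) + 1)) * WW w N ≤ SS w X N ω := by
    intro j
    obtain ⟨ε, hε⟩ : ∃ ε : ℝ, ε = 1 / ((j : ℝ) + 1) := ⟨_, rfl⟩
    have hε0 : 0 < ε := by rw [hε]; positivity
    rw [← hε]
    obtain ⟨n0, hn0⟩ := eventually_atTop.1 (hκ (ε / 3) (by positivity))
    have hall : ∀ᵐ ω ∂μ, ∀ n, n0 ≤ n → κ - ε / 3 ≤ Y n ω := by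
      rw [ae_all_iff]
      intro n
      by_cases h : n0 ≤ n
      · filter_upwards [hn0 n h, hYae n] with ω h1 h2
        intro _
        rw [h2]; exact h1
      · filter_upwards with ω h1
        exact absurd h1 h
    filter_upwards [lln μ Z hZm hZb k ℓ hℓk horth w hw B hblock hdiv (ε / 3) (by positivity), hall] with ω h1 h2
    have h3 : ∀ᶠ W : ℝ in atTop, (|κ - ε / 3|) * WW w n0 ≤ ε / 3 * W := by
      filter_upwards [eventually_ge_atTop ((|κ - ε / 3|) * WW w n0 / (ε / 3))] with W hW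
      rw [div_le_iff₀ (by positivity)] at hW
      linarith
    filter_upwards [h1, hdiv.eventually h3, eventually_ge_atTop n0] with N h4 h5 hN
    have e : SS w X N ω = SS w Z N ω + SS w Y N ω := by
      unfold SS
      rw [← sum_add_distrib]
      refine sum_congr rfl fun m _ => ?_
      rw [hZe]; ring
    have h6 : (κ - ε / 3) * (WW w N - WW w n0) ≤ SS w Y N ω := by
      obtain ⟨d, rfl⟩ := Nat.exists_eq_add_of_le hN
      clear h1 h4 h5 hN e
      induction d with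
      | zero =>
        simp only [add_zero, sub_self, mul_zero]
        exact sum_nonneg (fun m _ => mul_nonneg (hw m) (hY0 m ω))
      | succ d ih =>
        have e1 : SS w Y (n0 + (d + 1)) ω = SS w Y (n0 + d) ω + w (n0 + d) * Y (n0 + d) ω := by
          unfold SS; rw [← add_assoc, sum_range_succ]
        have e2 : WW w (n0 + (d + 1)) = WW w (n0 + d) + w (n0 + d) := by rw [← add_assoc, WW_succ]
        rw [e1, e2]
        have h7 := mul_le_mul_of_nonneg_left (h2 (n0 + d) (Nat.le_add_right _ _)) (hw (n0 + d))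
        nlinarith
    have h7 : (κ - ε / 3) * WW w n0 ≤ |κ - ε / 3| * WW w n0 :=
      mul_le_mul_of_nonneg_right (le_abs_self _) (WW_nonneg hw _)
    have h8 := (abs_le.1 h4).1
    rw [e]
    nlinarith
  rw [← ae_all_iff] at main
  filter_upwards [main] with ω hω ε hε
  obtain ⟨j, hj⟩ := exists_nat_one_div_lt hε
  filter_upwards [hω j] with N hN
  refine le_trans ?_ hN
  exact mul_le_mul_of_nonneg_right (by linarith) (WW_nonneg hw _)

end Pool.Agent.Helper855N
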