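import Pool.Agent.Helper855N.Gen

set_option autoImplicit false
set_option linter.unusedSectionVars false

/-! Correlations of functions of `⌊s α⌋` and `⌊t α⌋`. -/

namespace Pool.Agent.Helper855N

open MeasureTheory Filter Topology Finset

/-- `f ⌊t α⌋` -/
noncomputable def fX (f : ℕ → ℝ) (t α : ℝ) : ℝ := f ⌊t * α⌋₊

lemma fX_meas (f : ℕ → ℝ) (t : ℝ) : Measurable (fX f t) :=
  (measurable_from_nat (f := f)).comp (Nat.measurable_floor.comp (measurable_const_mul t))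

lemma bdd_ii {F : ℝ → ℝ} (hF : Measurable F) (b : ℝ) (hb : ∀ x, |F x| ≤ b) (u v : ℝ) :
    IntervalIntegrable F volume u v := by
  rw [intervalIntegrable_iff]
  have : IsFiniteMeasure (volume.restrict (Set.uIoc u v)) := ⟨by
    unfold Set.uIoc
    rw [Measure.restrict_apply_univ, Real.volume_Ioc]
    exact ENNReal.ofReal_lt_top⟩
  apply Integrable.of_bound hF.aestronglyMeasurable b
  filter_upwards with α
  exact hb _

lemma fX_ii (f : ℕ → ℝ) (t b : ℝ) (hb : ∀ x, |f x| ≤ b) (u v : ℝ) : IntervalIntegrable (fX f t) volume u v :=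
  bdd_ii (fX_meas f t) b (fun _ => hb _) u v

lemma fX_unit (f : ℕ → ℝ) (t : ℝ) (ht : 0 < t) (x : ℕ) :
    ∫ α in ((x : ℝ) / t)..(((x : ℝ) + 1) / t), fX f t α = f x / t := by
  have hle : (x : ℝ) / t ≤ ((x : ℝ) + 1) / t := div_le_div_of_nonneg_right (by linarith) ht.le
  have hx0 : (0 : ℝ) ≤ x := Nat.cast_nonneg x
  rw [intervalIntegral.integral_of_le hle, ← integral_Ico_eq_integral_Ioc]
  have e : ∫ α in Set.Ico ((x : ℝ) / t) (((x : ℝ) + 1) / t), fX f t α =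
      ∫ α in Set.Ico ((x : ℝ) / t) (((x : ℝ) + 1) / t), f x := by
    apply setIntegral_congr_fun measurableSet_Ico
    intro α hα
    obtain ⟨h1, h2⟩ := hα
    rw [div_le_iff₀ ht] at h1
    rw [lt_div_iff₀ ht] at h2
    have h3 : ⌊t * α⌋₊ = x := by
      rw [Nat.floor_eq_iff (by linarith)]
      constructor <;> linarith
    simp only [fX, h3]
  rw [e, setIntegral_const, smul_eq_mul, Real.volume_real_Ico]
  have e2 : ((x : ℝ) + 1) / t - (x : ℝ) / t = 1 / t := by ring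
  rw [e2, max_eq_left (by positivity)]
  ring

lemma fX_sum (f : ℕ → ℝ) (t b : ℝ) (ht : 0 < t) (hb : ∀ x, |f x| ≤ b) (u d : ℕ) :
    ∫ α in ((u : ℝ) / t)..(((u : ℝ) + d) / t), fX f t α = (∑ x ∈ Finset.Ico u (u + d), f x) / t := by
  induction d with
  | zero => simp
  | succ d ih =>
    have h1 := intervalIntegral.integral_add_adjacent_intervals (fX_ii f t b hb ((u : ℝ) / t) (((u : ℝ) + d) / t))
      (fX_ii f t b hb (((u : ℝ) + d) / t) (((u : ℝ) + d + 1) / t))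
    have h2 := fX_unit f t ht (u + d)
    push_cast at h2 ⊢
    rw [← add_assoc (u : ℝ) (d : ℝ) 1, ← h1, ih, h2, ← add_assoc u d 1, Finset.sum_Ico_succ_top (by omega)]
    ring

lemma fX_cell (f : ℕ → ℝ) (t b a c : ℝ) (ht : 0 < t) (hb : ∀ x, |f x| ≤ b) (X Y : ℕ)
    (h1 : |((X : ℝ) + 1) / t - a| ≤ 1 / t) (h2 : |c - ((X : ℝ) + 1 + Y) / t| ≤ 1 / t) :
    |∫ α in a..c, fX f t α| ≤ (|∑ x ∈ Finset.Ioc X (X + Y), f x| + 2 * b) / t := by
  have hb0 : 0 ≤ b := (abs_nonneg _).trans (hb 0)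
  have e1 := intervalIntegral.integral_add_adjacent_intervals (fX_ii f t b hb a (((X : ℝ) + 1) / t))
    (fX_ii f t b hb (((X : ℝ) + 1) / t) (((X : ℝ) + 1 + Y) / t))
  have e2 := intervalIntegral.integral_add_adjacent_intervals (fX_ii f t b hb a (((X : ℝ) + 1 + Y) / t))
    (fX_ii f t b hb (((X : ℝ) + 1 + Y) / t) c)
  have h3 : |∫ α in a..(((X : ℝ) + 1) / t), fX f t α| ≤ b / t := by
    have h := intervalIntegral.norm_integral_le_of_norm_le_const (a := a) (b := ((X : ℝ) + 1) / t)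
      (f := fX f t) (C := b) (fun α _ => hb _)
    rw [Real.norm_eq_abs] at h
    refine h.trans ?_
    calc b * |((X : ℝ) + 1) / t - a| ≤ b * (1 / t) := mul_le_mul_of_nonneg_left h1 hb0
      _ = b / t := by ring
  have h4 : |∫ α in (((X : ℝ) + 1 + Y) / t)..c, fX f t α| ≤ b / t := by
    have h := intervalIntegral.norm_integral_le_of_norm_le_const (a := ((X : ℝ) + 1 + Y) / t) (b := c)
      (f := fX f t) (C := b) (fun α _ => hb _)
    rw [Real.norm_eq_abs] at h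
    refine h.trans ?_
    calc b * |c - ((X : ℝ) + 1 + Y) / t| ≤ b * (1 / t) := mul_le_mul_of_nonneg_left h2 hb0
      _ = b / t := by ring
  have h5 := fX_sum f t b ht hb (X + 1) Y
  push_cast at h5
  have e3 : Finset.Ico (X + 1) (X + 1 + Y) = Finset.Ioc X (X + Y) := by
    ext x; rw [Finset.mem_Ico, Finset.mem_Ioc]; omega
  rw [e3] at h5
  rw [← e2, ← e1, h5]
  have h6 : |(∑ x ∈ Finset.Ioc X (X + Y), f x) / t| = |∑ x ∈ Finset.Ioc X (X + Y), f x| / t := by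
    rw [abs_div, abs_of_pos ht]
  have h7 := abs_add_le ((∫ α in a..(((X : ℝ) + 1) / t), fX f t α) + (∑ x ∈ Finset.Ioc X (X + Y), f x) / t)
    (∫ α in (((X : ℝ) + 1 + Y) / t)..c, fX f t α)
  have h8 := abs_add_le (∫ α in a..(((X : ℝ) + 1) / t), fX f t α) ((∑ x ∈ Finset.Ioc X (X + Y), f x) / t)
  rw [h6] at h8
  have e4 : (|∑ x ∈ Finset.Ioc X (X + Y), f x| + 2 * b) / t =
      b / t + |∑ x ∈ Finset.Ioc X (X + Y), f x| / t + b / t := by ring
  rw [e4]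
  linarith

lemma sum_Ico_tel (F : ℕ → ℝ) (p q : ℕ) (h : p ≤ q) : ∑ i ∈ Finset.Ico p q, (F (i + 1) - F i) = F q - F p := by
  rw [Finset.sum_Ico_eq_sub _ h, sum_range_sub, sum_range_sub]
  ring

lemma corr (f g : ℕ → ℝ) (s t b b' : ℝ) (hs : 0 < s) (hf : ∀ x, |f x| ≤ b)
    (hg : ∀ x, |g x| ≤ b') (p : ℕ) (hp : 0 < p) :
    |∫ α in (1 : ℝ)..2, fX f s α * fX g t α| ≤
      b * ∑ i ∈ Finset.Ico p (2 * p), |∫ α in ((i : ℝ) / p)..(((i : ℝ) + 1) / p), fX g t α| +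
        b * b' * ((s + 1) / p) := by
  have hb0 : 0 ≤ b := (abs_nonneg _).trans (hf 0)
  have hb0' : 0 ≤ b' := (abs_nonneg _).trans (hg 0)
  have hpr : (0 : ℝ) < p := by exact_mod_cast hp
  have hm : Measurable (fun α => fX f s α * fX g t α) := (fX_meas f s).mul (fX_meas g t)
  have hbd : ∀ α, |fX f s α * fX g t α| ≤ b * b' := by
    intro α
    rw [abs_mul]
    exact mul_le_mul (hf _) (hg _) (abs_nonneg _) hb0
  have e1 := intervalIntegral.sum_integral_adjacent_intervals_Ico (f := fun α => fX f s α * fX g t α)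
    (μ := volume) (a := fun i : ℕ => (i : ℝ) / p) (m := p) (n := 2 * p) (by omega)
    (fun i _ => bdd_ii hm (b * b') hbd _ _)
  have e2 : ((p : ℕ) : ℝ) / p = 1 := div_self hpr.ne'
  have e3 : ((2 * p : ℕ) : ℝ) / p = 2 := by push_cast; field_simp
  rw [e2, e3] at e1
  rw [← e1]
  have hcell : ∀ i : ℕ, |∫ α in ((i : ℝ) / p)..(((i + 1 : ℕ) : ℝ) / p), fX f s α * fX g t α| ≤
      b * |∫ α in ((i : ℝ) / p)..(((i : ℝ) + 1) / p), fX g t α| +
        b * b' / p * ((⌊s * (((i + 1 : ℕ) : ℝ) / p)⌋₊ : ℝ) - (⌊s * ((i : ℝ) / p)⌋₊ : ℝ)) := by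
    intro i
    have hi0 : (0 : ℝ) ≤ i := Nat.cast_nonneg i
    have hle : (i : ℝ) / p ≤ ((i : ℝ) + 1) / p := div_le_div_of_nonneg_right (by linarith) hpr.le
    push_cast
    have hfl : ⌊s * ((i : ℝ) / p)⌋₊ ≤ ⌊s * (((i : ℝ) + 1) / p)⌋₊ :=
      Nat.floor_le_floor (mul_le_mul_of_nonneg_left hle hs.le)
    rcases Nat.eq_or_lt_of_le hfl with h | h
    · rw [← h, sub_self, mul_zero, add_zero]
      have e4 : ∫ α in ((i : ℝ) / p)..(((i : ℝ) + 1) / p), fX f s α * fX g t α =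
          f ⌊s * ((i : ℝ) / p)⌋₊ * ∫ α in ((i : ℝ) / p)..(((i : ℝ) + 1) / p), fX g t α := by
        rw [intervalIntegral.integral_of_le hle, intervalIntegral.integral_of_le hle,
          ← integral_Ico_eq_integral_Ioc, ← integral_Ico_eq_integral_Ioc, ← integral_const_mul]
        apply setIntegral_congr_fun measurableSet_Ico
        intro α hα
        have h5 : ⌊s * α⌋₊ = ⌊s * ((i : ℝ) / p)⌋₊ := by
          apply le_antisymm
          · rw [h]
            exact Nat.floor_le_floor (mul_le_mul_of_nonneg_left hα.2.le hs.le)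
          · exact Nat.floor_le_floor (mul_le_mul_of_nonneg_left hα.1 hs.le)
        simp only [fX, h5]
      rw [e4, abs_mul]
      exact mul_le_mul_of_nonneg_right (hf _) (abs_nonneg _)
    · have h6 : (1 : ℝ) ≤ (⌊s * (((i : ℝ) + 1) / p)⌋₊ : ℝ) - (⌊s * ((i : ℝ) / p)⌋₊ : ℝ) := by
        have : (⌊s * ((i : ℝ) / p)⌋₊ : ℝ) + 1 ≤ (⌊s * (((i : ℝ) + 1) / p)⌋₊ : ℝ) := by exact_mod_cast h
        linarith
      have h7 := intervalIntegral.norm_integral_le_of_norm_le_const (a := (i : ℝ) / p) (b := ((i : ℝ) + 1) / p)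
        (f := fun α => fX f s α * fX g t α) (C := b * b') (fun α _ => hbd α)
      rw [Real.norm_eq_abs] at h7
      have e5 : |((i : ℝ) + 1) / p - (i : ℝ) / p| = 1 / p := by
        have : ((i : ℝ) + 1) / p - (i : ℝ) / p = 1 / p := by ring
        rw [this, abs_of_pos (by positivity)]
      rw [e5] at h7
      have h8 : 0 ≤ b * b' / p := by positivity
      have h9 : b * b' / p * 1 ≤ b * b' / p * ((⌊s * (((i : ℝ) + 1) / p)⌋₊ : ℝ) - (⌊s * ((i : ℝ) / p)⌋₊ : ℝ)) :=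
        mul_le_mul_of_nonneg_left h6 h8
      have h10 : 0 ≤ b * |∫ α in ((i : ℝ) / p)..(((i : ℝ) + 1) / p), fX g t α| := mul_nonneg hb0 (abs_nonneg _)
      have e6 : b * b' * (1 / p) = b * b' / p * 1 := by ring
      rw [e6] at h7
      linarith
  refine (abs_sum_le_sum_abs _ _).trans ?_
  refine (sum_le_sum fun i _ => hcell i).trans ?_
  rw [sum_add_distrib, ← mul_sum, ← mul_sum]
  have e7 := sum_Ico_tel (fun i : ℕ => (⌊s * ((i : ℝ) / p)⌋₊ : ℝ)) p (2 * p) (by omega)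
  rw [e7, e2, e3]
  have h11 : (⌊s * 2⌋₊ : ℝ) ≤ s * 2 := Nat.floor_le (by positivity)
  have h12 : s * 1 < (⌊s * 1⌋₊ : ℝ) + 1 := Nat.lt_floor_add_one _
  have h13 : b * b' / p * ((⌊s * 2⌋₊ : ℝ) - (⌊s * 1⌋₊ : ℝ)) ≤ b * b' / p * (s + 1) :=
    mul_le_mul_of_nonneg_left (by linarith) (by positivity)
  have e8 : b * b' * ((s + 1) / p) = b * b' / p * (s + 1) := by ring
  rw [e8]
  linarith

lemma mu_int (F : ℝ → ℝ) : ∫ α, F α ∂mu = ∫ α in (1 : ℝ)..2, F α := by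
  unfold mu
  rw [intervalIntegral.integral_of_le (by norm_num), integral_Ico_eq_integral_Ioc]

lemma sec (g : ℕ → ℝ) (t b : ℝ) (ht : 1 ≤ t) (hg0 : ∀ x, 0 ≤ g x) (hg : ∀ x, g x ≤ b) (C : ℝ)
    (hC : ∑ x ∈ Finset.Ico ⌊t⌋₊ (⌊2 * t⌋₊ + 1), g x ^ 2 ≤ C * t) :
    ∫ α, (fX g t α - 1) ^ 2 ∂mu ≤ C + 1 := by
  have ht0 : 0 < t := by linarith
  have hb0 : 0 ≤ b := (hg0 0).trans (hg 0)
  have hsq : ∀ x, |g x ^ 2| ≤ b ^ 2 := by
    intro x
    rw [abs_of_nonneg (sq_nonneg _)]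
    exact pow_le_pow_left₀ (hg0 x) (hg x) 2
  have hm := fX_meas g t
  rw [mu_int]
  have h1 : ∫ α in (1 : ℝ)..2, (fX g t α - 1) ^ 2 ≤ ∫ α in (1 : ℝ)..2, (fX (fun x => g x ^ 2) t α + 1) := by
    apply intervalIntegral.integral_mono_on (by norm_num)
    · apply bdd_ii ((hm.sub measurable_const).pow_const 2) ((b + 1) ^ 2)
      intro α
      rw [abs_pow]
      apply pow_le_pow_left₀ (abs_nonneg _)
      have h2 : 0 ≤ fX g t α := hg0 _
      have h3 : fX g t α ≤ b := hg _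
      show |fX g t α - 1| ≤ b + 1
      rw [abs_le]
      constructor <;> linarith
    · exact (fX_ii _ t (b ^ 2) hsq 1 2).add intervalIntegrable_const
    · intro α _
      have h2 : 0 ≤ g ⌊t * α⌋₊ := hg0 _
      unfold fX
      nlinarith
  refine h1.trans ?_
  rw [intervalIntegral.integral_add (fX_ii _ t (b ^ 2) hsq 1 2) intervalIntegrable_const]
  rw [intervalIntegral.integral_const, smul_eq_mul, mul_one]
  have hfl : ⌊t⌋₊ ≤ ⌊2 * t⌋₊ := Nat.floor_le_floor (by linarith)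
  obtain ⟨d, hd⟩ : ∃ d, ⌊2 * t⌋₊ + 1 = ⌊t⌋₊ + d := ⟨⌊2 * t⌋₊ + 1 - ⌊t⌋₊, by omega⟩
  have hdr : (⌊2 * t⌋₊ : ℝ) + 1 = (⌊t⌋₊ : ℝ) + d := by exact_mod_cast hd
  have h4 := fX_sum (fun x => g x ^ 2) t (b ^ 2) ht0 hsq ⌊t⌋₊ d
  have h5 : ∫ α in (1 : ℝ)..2, fX (fun x => g x ^ 2) t α ≤
      ∫ α in ((⌊t⌋₊ : ℝ) / t)..(((⌊t⌋₊ : ℝ) + d) / t), fX (fun x => g x ^ 2) t α := by
    apply intervalIntegral.integral_mono_interval
    · rw [div_le_one ht0]
      exact Nat.floor_le ht0.le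
    · norm_num
    · rw [le_div_iff₀ ht0, ← hdr]
      exact (Nat.lt_floor_add_one _).le
    · filter_upwards with α
      exact sq_nonneg _
    · exact fX_ii _ t (b ^ 2) hsq _ _
  rw [h4, ← hd] at h5
  have h6 : (∑ x ∈ Finset.Ico ⌊t⌋₊ (⌊2 * t⌋₊ + 1), g x ^ 2) / t ≤ C := by
    rw [div_le_iff₀ ht0]
    exact hC
  have e : (2 : ℝ) - 1 = 1 := by norm_num
  rw [e]
  linarith

end Pool.Agent.Helper855N
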