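import Pool.Agent.Helper855N.Gen

set_option autoImplicit false
set_option linter.unusedSectionVars false
set_option linter.unusedVariables false

/-! Lower bounds for the conditional expectations: affine families and powers. -/

namespace Pool.Agent.Helper855N

open MeasureTheory Filter Topology Finset

open Classical in
/-- a proportion `κ` of the integers of every interval `(X, X + Y]`, `X ^ θ ≤ Y ≤ X`, has the property -/
def Dense (P : ℕ → Prop) (θ κ : ℝ) : Prop := ∀ᶠ X : ℕ in atTop, ∀ Y : ℕ, (X : ℝ) ^ θ ≤ Y → Y ≤ X →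
      κ * Y ≤ (((Finset.Ioc X (X + Y)).filter P).card : ℝ)

open Classical in
/-- the common part -/
lemma cond_gen (P : ℕ → Prop) (κ : ℝ) (f g : ℝ → ℝ) (hf : StrictMono f) (k ℓ : ℕ) (α : ℝ)
    (hα : α ∈ Set.Ico (1 : ℝ) 2) (X Y : ℕ) (ρ : ℝ)
    (hfg : ∀ y : ℝ, (X : ℝ) + 1 ≤ y → f (g y) = y)
    (hX : f ((fl ℓ α : ℝ) / 2 ^ ℓ) < X + 1) (hY : (X : ℝ) + Y + 1 ≤ f (((fl ℓ α : ℝ) + 1) / 2 ^ ℓ))
    (hρ : ∀ x : ℕ, X < x → x ≤ X + Y → ρ ≤ g ((x : ℝ) + 1) - g x) (hk : 2 / (2 : ℝ) ^ k ≤ ρ)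
    (hc : κ * Y ≤ (((Finset.Ioc X (X + Y)).filter P).card : ℝ)) :
    2 ^ ℓ * (κ * Y * (ρ - 2 / 2 ^ k)) ≤ (mu[GX P f k | FF ℓ]) α := by
  rw [gcondExp_cell P f k ℓ α hα]
  apply mul_le_mul_of_nonneg_left _ (by positivity)
  refine le_trans ?_ (gcell_int P f g hf k _ _ ρ X Y hfg hX hY hρ hk)
  exact mul_le_mul_of_nonneg_right hc (by linarith)

lemma cond_affine (P : ℕ → Prop) (θ κ ν : ℝ) (hθ0 : 0 < θ) (hν : 1 ≤ ν) (hθ1 : θ * ν < 1) (hκ0 : 0 ≤ κ)
    (hP : Dense P θ κ) (ε : ℝ) (hε : 0 < ε) :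
    ∀ᶠ T : ℝ in atTop, ∀ u : ℝ, 0 ≤ u → u ≤ T ^ ν → ∀ α ∈ Set.Ico (1 : ℝ) 2,
      κ - ε ≤ (mu[GX P (fun a => u + T * a) (k5 T) | FF (ll ((1 - θ * ν) / 2) T)]) α := by
  obtain ⟨X₀, hX₀⟩ := eventually_atTop.1 hP
  obtain ⟨σ, hσ⟩ : ∃ σ, σ = (1 - θ * ν) / 2 := ⟨_, rfl⟩
  rw [← hσ]
  have hθν : 0 < θ * ν := by positivity
  have hσ0 : 0 < σ := by rw [hσ]; linarith
  have hσ1 : σ < 1 := by rw [hσ]; linarith
  have hθ1' : θ < 1 := by nlinarith
  have ev1 : ∀ᶠ T : ℝ in atTop, 5 ≤ T ^ σ := (tendsto_rpow_atTop hσ0).eventually_ge_atTop 5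
  have ev2 : ∀ᶠ T : ℝ in atTop, κ * (2 * T ^ (σ - 1) + 1 / T) < ε := by
    have h1 : Tendsto (fun T : ℝ => T ^ (σ - 1)) atTop (𝓝 0) := by
      have := tendsto_rpow_neg_atTop (y := 1 - σ) (by linarith)
      simpa using this
    have h2 : Tendsto (fun T : ℝ => 1 / T) atTop (𝓝 0) := by
      simpa using tendsto_inv_atTop_zero (𝕜 := ℝ)
    have h3 : Tendsto (fun T : ℝ => κ * (2 * T ^ (σ - 1) + 1 / T)) atTop (𝓝 (κ * (2 * 0 + 0))) :=
      ((h1.const_mul 2).add h2).const_mul κ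
    rw [mul_zero, add_zero, mul_zero] at h3
    exact h3.eventually (gt_mem_nhds hε)
  filter_upwards [ev1, ev2, eventually_ge_atTop ((X₀ : ℝ) + 4)] with T h1 h2 h3 u hu0 hu1 α hα
  have hX0n : (0 : ℝ) ≤ X₀ := Nat.cast_nonneg _
  have hT4 : 4 ≤ T := by linarith
  have hT1 : 1 ≤ T := by linarith
  have hT0 : 0 < T := by linarith
  obtain ⟨p, hp⟩ : ∃ p : ℝ, p = 2 ^ (ll σ T) := ⟨_, rfl⟩
  have hp1 : 1 ≤ p := by rw [hp]; exact one_le_pow₀ (by norm_num)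
  have hp0 : 0 < p := by linarith
  have hpT : p ≤ T ^ σ := by rw [hp]; exact two_pow_ll σ T hσ0.le hT1
  obtain ⟨i, hi⟩ : ∃ i, i = fl (ll σ T) α := ⟨_, rfl⟩
  obtain ⟨hb1, hb2⟩ := fl_bounds (ll σ T) α hα
  rw [← hi, ← hp] at hb1 hb2
  have hi0 : (0 : ℝ) < i := by linarith
  have hk := two_pow_k5 T hT1
  obtain ⟨q, hq⟩ : ∃ q : ℝ, q = 2 ^ (k5 T) := ⟨_, rfl⟩
  rw [← hq] at hk
  have hT5 : 2 * T ^ 2 ≤ q := by
    refine le_trans ?_ hk
    apply mul_le_mul_of_nonneg_left _ (by norm_num)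
    exact pow_le_pow_right₀ hT1 (by norm_num)
  have hq0 : 0 < q := by nlinarith
  have hT1p : T ^ (1 - σ) ≤ T / p := by
    rw [le_div_iff₀ hp0]
    calc T ^ (1 - σ) * p ≤ T ^ (1 - σ) * T ^ σ := mul_le_mul_of_nonneg_left hpT (by positivity)
      _ = T := by rw [← Real.rpow_add hT0]; norm_num
  have hTν : T ≤ T ^ ν := by
    calc T = T ^ (1 : ℝ) := (Real.rpow_one T).symm
      _ ≤ T ^ ν := Real.rpow_le_rpow_of_exponent_le hT1 hν
  have hbig : (3 * T ^ ν) ^ θ + 2 ≤ T ^ (1 - σ) := by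
    have e1 : (3 * T ^ ν) ^ θ = 3 ^ θ * T ^ (θ * ν) := by
      rw [Real.mul_rpow (by norm_num) (by positivity), ← Real.rpow_mul hT0.le, mul_comm ν θ]
    have h5 : (3 : ℝ) ^ θ ≤ 3 := by
      calc (3 : ℝ) ^ θ ≤ 3 ^ (1 : ℝ) := Real.rpow_le_rpow_of_exponent_le (by norm_num) hθ1'.le
        _ = 3 := Real.rpow_one 3
    have h6 : 1 ≤ T ^ (θ * ν) := Real.one_le_rpow hT1 hθν.le
    have e2 : T ^ (1 - σ) = T ^ (θ * ν) * T ^ σ := by
      rw [← Real.rpow_add hT0]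
      congr 1
      rw [hσ]; ring
    rw [e1, e2]
    nlinarith
  obtain ⟨X, hX⟩ : ∃ X : ℕ, X = ⌊u + T * ((i : ℝ) / p)⌋₊ := ⟨_, rfl⟩
  obtain ⟨Y, hY⟩ : ∃ Y : ℕ, Y = ⌊T / p⌋₊ - 1 := ⟨_, rfl⟩
  have h2T : 0 < (3 * T ^ ν) ^ θ := Real.rpow_pos_of_pos (by positivity) _
  have hTp2 : 2 ≤ T / p := by linarith
  have hY1 : (Y : ℝ) + 1 = ⌊T / p⌋₊ := by
    have : 1 ≤ ⌊T / p⌋₊ := by apply Nat.le_floor; push_cast; linarith
    have h7 : Y + 1 = ⌊T / p⌋₊ := by omega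
    exact_mod_cast h7
  have hY2 : (Y : ℝ) + 1 ≤ T / p := by rw [hY1]; exact Nat.floor_le (by positivity)
  have hY3 : T / p - 2 < Y := by
    have := Nat.lt_floor_add_one (T / p)
    linarith
  have hX1 : (X : ℝ) ≤ u + T * ((i : ℝ) / p) := by rw [hX]; exact Nat.floor_le (by positivity)
  have hX2 : u + T * ((i : ℝ) / p) < X + 1 := by rw [hX]; exact Nat.lt_floor_add_one _
  have hip : 1 ≤ (i : ℝ) / p := by rw [le_div_iff₀ hp0]; linarith
  have hip2 : (i : ℝ) / p ≤ 2 := by rw [div_le_iff₀ hp0]; linarith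
  have hX3 : T < X + 1 := by nlinarith
  have hX4 : (X : ℝ) ≤ 3 * T ^ ν := by nlinarith
  have hXX0 : X₀ ≤ X := by
    have : (X₀ : ℝ) < X := by linarith
    exact_mod_cast this.le
  have hYX : Y ≤ X := by
    have h8 : T / p ≤ T := div_le_self hT0.le hp1
    have : (Y : ℝ) < X := by linarith
    exact_mod_cast this.le
  have hXθ : (X : ℝ) ^ θ ≤ Y := by
    have : (X : ℝ) ^ θ ≤ (3 * T ^ ν) ^ θ := Real.rpow_le_rpow (Nat.cast_nonneg _) hX4 hθ0.le
    linarith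
  have hcard := hX₀ X hXX0 Y hXθ hYX
  have hk2 : 2 / q ≤ 1 / T ^ 2 := by
    rw [div_le_div_iff₀ hq0 (by positivity)]
    linarith
  have hTT : 1 / T ^ 2 ≤ 1 / T := by
    apply one_div_le_one_div_of_le hT0
    nlinarith
  have hmono : StrictMono (fun a : ℝ => u + T * a) := by
    intro a b hab
    have := mul_lt_mul_of_pos_left hab hT0
    show u + T * a < u + T * b
    linarith
  have hcell := cond_gen P κ (fun a => u + T * a) (fun y => (y - u) / T) hmono (k5 T) (ll σ T) α hα X Y (1 / T)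
    (by
      intro y _
      show u + T * ((y - u) / T) = y
      field_simp
      ring)
    (by rw [← hi, ← hp]; exact hX2)
    (by
      rw [← hi, ← hp]
      show (X : ℝ) + Y + 1 ≤ u + T * (((i : ℝ) + 1) / p)
      have e : T * (((i : ℝ) + 1) / p) = T * ((i : ℝ) / p) + T / p := by ring
      rw [e]
      linarith)
    (by
      intro x _ _
      show 1 / T ≤ ((x : ℝ) + 1 - u) / T - ((x : ℝ) - u) / T
      rw [← sub_div]
      apply le_of_eq
      congr 1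
      ring)
    (by rw [← hq]; linarith) hcard
  rw [← hq, ← hp] at hcell
  refine le_trans ?_ hcell
  have hu0' : 0 ≤ 1 / T - 1 / T ^ 2 := by linarith
  have h9 : κ * (T / p - 2) * (1 / T - 1 / T ^ 2) ≤ κ * Y * (1 / T - 2 / q) := by
    apply mul_le_mul _ (by linarith) hu0' (by positivity)
    exact mul_le_mul_of_nonneg_left hY3.le hκ0
  have h10 := mul_le_mul_of_nonneg_left h9 hp0.le
  refine le_trans ?_ h10
  have e3 : p * (κ * (T / p - 2) * (1 / T - 1 / T ^ 2)) = κ * ((1 - 2 * (p / T)) * (1 - 1 / T)) := by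
    field_simp
  rw [e3]
  have h11 : p / T ≤ T ^ (σ - 1) := by
    rw [div_le_iff₀ hT0]
    have : T ^ (σ - 1) * T = T ^ σ := by
      nth_rewrite 2 [← Real.rpow_one T]
      rw [← Real.rpow_add hT0]
      norm_num
    rw [this]; exact hpT
  have h12 : 0 ≤ p / T := by positivity
  have h13 : 0 < 1 / T := by positivity
  have h14 : 1 - (2 * T ^ (σ - 1) + 1 / T) ≤ (1 - 2 * (p / T)) * (1 - 1 / T) := by nlinarith
  have h15 := mul_le_mul_of_nonneg_left h14 hκ0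
  linarith

lemma power_const (κ ε p A B S T q Y z v : ℝ) (hκ0 : 0 ≤ κ) (hp0 : 0 < p) (hA0 : 0 < A) (hB0 : 0 < B)
    (hS0 : 0 < S) (hT0 : 0 < T) (hTi : 1 / T ≤ 1) (hY : A * z - 2 ≤ Y) (hY0 : 0 ≤ Y)
    (hk2 : 2 / q ≤ 1 / (B * S) * (1 / T)) (hz : z = S / p) (hz0 : 0 < z) (hz2 : z ≤ 1 / 2)
    (hAB : 1 - z ≤ A / B) (hAB1 : A / B ≤ 1) (h11 : p / (A * S) ≤ v) (h16 : p / (A * S) ≤ 1 / 4)
    (hε : κ * (z + 2 * v + 1 / T) ≤ ε) : κ - ε ≤ p * (κ * Y * (1 / (B * S) - 2 / q)) := by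
  have hρ0 : 0 < 1 / (B * S) := by positivity
  have h9 : κ * (A * z - 2) * (1 / (B * S) * (1 - 1 / T)) ≤ κ * Y * (1 / (B * S) - 2 / q) := by
    apply mul_le_mul
    · exact mul_le_mul_of_nonneg_left hY hκ0
    · have e : 1 / (B * S) * (1 - 1 / T) = 1 / (B * S) - 1 / (B * S) * (1 / T) := by ring
      rw [e]
      linarith
    · apply mul_nonneg hρ0.le
      linarith
    · positivity
  have h10 := mul_le_mul_of_nonneg_left h9 hp0.le
  refine le_trans ?_ h10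
  have e3 : p * (κ * (A * z - 2) * (1 / (B * S) * (1 - 1 / T))) =
      κ * ((A / B) * (1 - 2 * (p / (A * S))) * (1 - 1 / T)) := by
    rw [hz]
    field_simp
  rw [e3]
  have h12 : 0 ≤ p / (A * S) := by positivity
  have h13 : 0 < 1 / T := by positivity
  have h14 : 1 - (z + 2 * v + 1 / T) ≤ (A / B) * (1 - 2 * (p / (A * S))) * (1 - 1 / T) := by
    have g1 : 1 - z - 2 * v ≤ (1 - z) * (1 - 2 * (p / (A * S))) := by
      have : 0 ≤ z * (2 * (p / (A * S))) := by positivity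
      nlinarith
    have g2 : (1 - z) * (1 - 2 * (p / (A * S))) ≤ (A / B) * (1 - 2 * (p / (A * S))) :=
      mul_le_mul_of_nonneg_right hAB (by linarith)
    have g4 : (A / B) * (1 - 2 * (p / (A * S))) ≤ 1 := by
      have g6 : 0 ≤ A / B := by positivity
      calc (A / B) * (1 - 2 * (p / (A * S))) ≤ 1 * 1 := mul_le_mul hAB1 (by linarith) (by linarith) zero_le_one
        _ = 1 := one_mul 1
    have g7 : (A / B) * (1 - 2 * (p / (A * S))) * (1 / T) ≤ 1 * (1 / T) := mul_le_mul_of_nonneg_right g4 h13.le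
    linarith
  have h15 := mul_le_mul_of_nonneg_left h14 hκ0
  linarith

lemma cond_power (P : ℕ → Prop) (θ κ : ℝ) (hθ0 : 0 < θ) (hθ1 : θ < 1) (hκ0 : 0 ≤ κ)
    (hP : Dense P θ κ) (ε : ℝ) (hε : 0 < ε) :
    ∀ᶠ T : ℝ in atTop, ∀ α ∈ Set.Ico (1 : ℝ) 2,
      κ - ε ≤ (mu[GX P (fun a => T ^ a) (k5 T) | FF (ll ((1 - θ) / 2) T)]) α := by
  obtain ⟨X₀, hX₀⟩ := eventually_atTop.1 hP
  obtain ⟨σ, hσ⟩ : ∃ σ, σ = (1 - θ) / 2 := ⟨_, rfl⟩
  rw [← hσ]
  have hσ0 : 0 < σ := by rw [hσ]; linarith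
  have hσ1 : σ < 1 := by rw [hσ]; linarith
  have ev1 : ∀ᶠ T : ℝ in atTop, 4 ≤ T ^ σ := (tendsto_rpow_atTop hσ0).eventually_ge_atTop 4
  have hlogT : Tendsto (fun T : ℝ => Real.log T / T ^ σ) atTop (𝓝 0) := by
    have := (isLittleO_log_rpow_atTop hσ0).tendsto_div_nhds_zero
    exact this
  have ev0 : ∀ᶠ T : ℝ in atTop, 2 * (Real.log T / T ^ σ) < 1 / 2 := by
    have h3 : Tendsto (fun T : ℝ => 2 * (Real.log T / T ^ σ)) atTop (𝓝 (2 * 0)) := hlogT.const_mul 2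
    rw [mul_zero] at h3
    exact h3.eventually (gt_mem_nhds (by norm_num))
  have ev2 : ∀ᶠ T : ℝ in atTop, κ * (2 * (Real.log T / T ^ σ) + 2 * T ^ (σ - 1) + 1 / T) < ε := by
    have h1 : Tendsto (fun T : ℝ => T ^ (σ - 1)) atTop (𝓝 0) := by
      have := tendsto_rpow_neg_atTop (y := 1 - σ) (by linarith)
      simpa using this
    have h2 : Tendsto (fun T : ℝ => 1 / T) atTop (𝓝 0) := by
      simpa using tendsto_inv_atTop_zero (𝕜 := ℝ)
    have h3 : Tendsto (fun T : ℝ => κ * (2 * (Real.log T / T ^ σ) + 2 * T ^ (σ - 1) + 1 / T)) atTop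
        (𝓝 (κ * (2 * 0 + 2 * 0 + 0))) :=
      (((hlogT.const_mul 2).add (h1.const_mul 2)).add h2).const_mul κ
    rw [mul_zero, add_zero, add_zero, mul_zero] at h3
    exact h3.eventually (gt_mem_nhds hε)
  filter_upwards [ev0, ev1, ev2, eventually_ge_atTop ((X₀ : ℝ) + 4)] with T h0 h1 h2 h3 α hα
  have hX0n : (0 : ℝ) ≤ X₀ := Nat.cast_nonneg _
  have hT4 : 4 ≤ T := by linarith
  have hT1 : 1 ≤ T := by linarith
  have hT0 : 0 < T := by linarith
  have hS1 : 1 ≤ Real.log T := log_ge_one (by linarith)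
  obtain ⟨S, hS⟩ : ∃ S : ℝ, S = Real.log T := ⟨_, rfl⟩
  rw [← hS] at hS1 h0 h2
  have hS0 : 0 < S := by linarith
  have hST : S ≤ T := by rw [hS]; linarith [Real.log_le_sub_one_of_pos hT0]
  obtain ⟨p, hp⟩ : ∃ p : ℝ, p = 2 ^ (ll σ T) := ⟨_, rfl⟩
  have hp1 : 1 ≤ p := by rw [hp]; exact one_le_pow₀ (by norm_num)
  have hp0 : 0 < p := by linarith
  have hpT : p ≤ T ^ σ := by rw [hp]; exact two_pow_ll σ T hσ0.le hT1
  have hpT2 : T ^ σ < 2 * p := by rw [hp]; exact lt_two_pow_ll σ T hT1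
  have hTσ : 0 < T ^ σ := by positivity
  obtain ⟨i, hi⟩ : ∃ i, i = fl (ll σ T) α := ⟨_, rfl⟩
  obtain ⟨hb1, hb2⟩ := fl_bounds (ll σ T) α hα
  rw [← hi, ← hp] at hb1 hb2
  have hi0 : (0 : ℝ) < i := by linarith
  have hk := two_pow_k5 T hT1
  obtain ⟨q, hq⟩ : ∃ q : ℝ, q = 2 ^ (k5 T) := ⟨_, rfl⟩
  rw [← hq] at hk
  have hq0 : 0 < q := by
    have : 0 < 2 * T ^ 5 := by positivity
    linarith
  -- the two end points
  obtain ⟨A, hA⟩ : ∃ A : ℝ, A = T ^ ((i : ℝ) / p) := ⟨_, rfl⟩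
  obtain ⟨B, hB⟩ : ∃ B : ℝ, B = T ^ (((i : ℝ) + 1) / p) := ⟨_, rfl⟩
  have hip : 1 ≤ (i : ℝ) / p := by rw [le_div_iff₀ hp0]; linarith
  have hip2 : ((i : ℝ) + 1) / p ≤ 2 := by rw [div_le_iff₀ hp0]; linarith
  have hTA : T ≤ A := by
    rw [hA]
    calc T = T ^ (1 : ℝ) := (Real.rpow_one T).symm
      _ ≤ _ := Real.rpow_le_rpow_of_exponent_le hT1 hip
  have hA0 : 0 < A := by linarith
  have hBT : B ≤ T ^ 2 := by
    rw [hB]
    calc T ^ (((i : ℝ) + 1) / p) ≤ T ^ (2 : ℝ) := Real.rpow_le_rpow_of_exponent_le hT1 hip2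
      _ = T ^ 2 := by norm_num
  obtain ⟨z, hz⟩ : ∃ z : ℝ, z = S / p := ⟨_, rfl⟩
  have hz0 : 0 < z := by rw [hz]; positivity
  have hz1 : z ≤ 2 * (S / T ^ σ) := by
    rw [hz, ← mul_div_assoc, div_le_div_iff₀ hp0 hTσ]
    nlinarith
  have hz2 : z < 1 / 2 := by linarith
  have hBA : B = A * Real.exp z := by
    rw [hA, hB, add_div, Real.rpow_add hT0, hz, hS]
    congr 1
    rw [Real.rpow_def_of_pos hT0]
    congr 1
    ring
  have hez1 : 1 + z ≤ Real.exp z := by linarith [Real.add_one_le_exp z]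
  have hez2 : Real.exp z ≤ 2 := by
    have h5 := Real.abs_exp_sub_one_le (x := z) (by rw [abs_of_pos hz0]; linarith)
    rw [abs_of_pos hz0] at h5
    have h6 := (abs_le.1 h5).2
    linarith
  have hez3 : Real.exp z * (1 - z) ≤ 1 := by
    have h5 := Real.add_one_le_exp (-z)
    have h6 : Real.exp z * Real.exp (-z) = 1 := by rw [← Real.exp_add]; simp
    have h7 : Real.exp z * (1 - z) ≤ Real.exp z * Real.exp (-z) :=
      mul_le_mul_of_nonneg_left (by linarith) (Real.exp_pos z).le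
    linarith
  have hB0 : 0 < B := by rw [hBA]; positivity
  have hBA1 : A * z ≤ B - A := by rw [hBA]; nlinarith
  have hBA2 : B - A ≤ A := by rw [hBA]; nlinarith
  have hAz : A ^ (1 - σ) ≤ A * z := by
    have e1 : A ^ (1 - σ) = A * A ^ (-σ) := by
      rw [show (1 : ℝ) - σ = 1 + (-σ) by ring, Real.rpow_add hA0, Real.rpow_one]
    rw [e1]
    apply mul_le_mul_of_nonneg_left _ hA0.le
    have h5 : A ^ (-σ) ≤ T ^ (-σ) := Real.rpow_le_rpow_of_nonpos hT0 hTA (by linarith)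
    refine h5.trans ?_
    rw [Real.rpow_neg hT0.le, hz, inv_eq_one_div, div_le_div_iff₀ hTσ hp0]
    nlinarith
  have hAσ : 4 ≤ A ^ σ := h1.trans (Real.rpow_le_rpow hT0.le hTA hσ0.le)
  have hAθ : A ^ θ + 2 ≤ A ^ (1 - σ) := by
    have e2 : A ^ (1 - σ) = A ^ θ * A ^ σ := by
      rw [← Real.rpow_add hA0]
      congr 1
      rw [hσ]; ring
    have h6 : 1 ≤ A ^ θ := Real.one_le_rpow (by linarith) hθ0.le
    rw [e2]
    nlinarith
  have hAθ0 : 0 < A ^ θ := by positivity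
  obtain ⟨X, hX⟩ : ∃ X : ℕ, X = ⌊A⌋₊ := ⟨_, rfl⟩
  obtain ⟨Y, hY⟩ : ∃ Y : ℕ, Y = ⌊B - A⌋₊ - 1 := ⟨_, rfl⟩
  have hBA3 : 2 ≤ B - A := by linarith
  have hY1 : (Y : ℝ) + 1 = ⌊B - A⌋₊ := by
    have : 1 ≤ ⌊B - A⌋₊ := by apply Nat.le_floor; push_cast; linarith
    have h7 : Y + 1 = ⌊B - A⌋₊ := by omega
    exact_mod_cast h7
  have hY2 : (Y : ℝ) + 1 ≤ B - A := by rw [hY1]; exact Nat.floor_le (by linarith)
  have hY3 : B - A - 2 < Y := by
    have := Nat.lt_floor_add_one (B - A)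
    linarith
  have hX1 : (X : ℝ) ≤ A := by rw [hX]; exact Nat.floor_le hA0.le
  have hX2 : A < X + 1 := by rw [hX]; exact Nat.lt_floor_add_one _
  have hXX0 : X₀ ≤ X := by
    have : (X₀ : ℝ) < X := by linarith
    exact_mod_cast this.le
  have hYX : Y ≤ X := by
    have : (Y : ℝ) < X := by linarith
    exact_mod_cast this.le
  have hXθ : (X : ℝ) ^ θ ≤ Y := by
    have : (X : ℝ) ^ θ ≤ A ^ θ := Real.rpow_le_rpow (Nat.cast_nonneg _) hX1 hθ0.le
    linarith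
  have hcard := hX₀ X hXX0 Y hXθ hYX
  have hρ0 : 0 < 1 / (B * S) := by positivity
  have hk2 : 2 / q ≤ 1 / (B * S) * (1 / T) := by
    rw [div_mul_div_comm, mul_one, div_le_div_iff₀ hq0 (by positivity)]
    have h5 : B * S * T ≤ T ^ 2 * T * T := by
      apply mul_le_mul_of_nonneg_right _ hT0.le
      exact mul_le_mul hBT hST hS0.le (by positivity)
    have h6 : T ^ 2 * T * T ≤ T ^ 5 := by
      have : T ^ 2 * T * T = T ^ 4 := by ring
      rw [this]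
      exact pow_le_pow_right₀ hT1 (by norm_num)
    linarith
  have hTi : 1 / T ≤ 1 := by rw [div_le_one hT0]; exact hT1
  have hT1lt : (1 : ℝ) < T := by linarith
  have hlogne : Real.log T ≠ 0 := by rw [← hS]; exact hS0.ne'
  have hmono : StrictMono (fun a : ℝ => T ^ a) := Real.strictMono_rpow_of_base_gt_one hT1lt
  have hcell := cond_gen P κ (fun a => T ^ a) (fun y => Real.log y / Real.log T) hmono (k5 T) (ll σ T) α hα X Y
    (1 / (B * S))
    (by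
      intro y hy
      have hy0 : 0 < y := by
        have : (0 : ℝ) ≤ X := Nat.cast_nonneg X
        linarith
      show T ^ (Real.log y / Real.log T) = y
      rw [Real.rpow_def_of_pos hT0, mul_div_cancel₀ _ hlogne, Real.exp_log hy0])
    (by rw [← hi, ← hp, ← hA]; exact hX2)
    (by
      rw [← hi, ← hp, ← hB]
      linarith)
    (by
      intro x hx1 hx2
      show 1 / (B * S) ≤ Real.log ((x : ℝ) + 1) / Real.log T - Real.log (x : ℝ) / Real.log T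
      have hx0 : (0 : ℝ) < x := by
        have : 0 < x := by omega
        exact_mod_cast this
      have hxB : (x : ℝ) + 1 ≤ B := by
        have : (x : ℝ) ≤ X + Y := by exact_mod_cast hx2
        linarith
      rw [← sub_div, ← hS, ← div_div]
      apply div_le_div_of_nonneg_right _ hS0.le
      have h5 : 1 / B ≤ 1 / ((x : ℝ) + 1) := one_div_le_one_div_of_le (by linarith) hxB
      refine h5.trans ?_
      have h6 := Real.add_one_le_exp (-(1 / ((x : ℝ) + 1)))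
      have h7 := Real.log_le_sub_one_of_pos (show 0 < (x : ℝ) / (x + 1) by positivity)
      rw [Real.log_div hx0.ne' (by linarith)] at h7
      have h8 : (x : ℝ) / (x + 1) - 1 = -(1 / ((x : ℝ) + 1)) := by field_simp; ring
      rw [h8] at h7
      linarith)
    (by
      rw [← hq]
      refine hk2.trans ?_
      calc 1 / (B * S) * (1 / T) ≤ 1 / (B * S) * 1 := mul_le_mul_of_nonneg_left hTi hρ0.le
        _ = _ := mul_one _) hcard
  rw [← hq, ← hp] at hcell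
  refine le_trans ?_ hcell
  -- the constant
  have hTσ1 : T ^ (σ - 1) * T = T ^ σ := by
    nth_rewrite 2 [← Real.rpow_one T]
    rw [← Real.rpow_add hT0]
    norm_num
  have hAS : T ≤ A * S := hTA.trans (le_mul_of_one_le_right hA0.le hS1)
  have h11 : p / (A * S) ≤ T ^ (σ - 1) := by
    have h12 : p / (A * S) ≤ p / T := div_le_div_of_nonneg_left hp0.le hT0 hAS
    refine h12.trans ?_
    rw [div_le_iff₀ hT0, hTσ1]
    exact hpT
  have h16 : p / (A * S) ≤ 1 / 4 := by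
    have h17 : T ^ σ ≤ T ^ (1 - σ) :=
      Real.rpow_le_rpow_of_exponent_le hT1 (by rw [hσ]; linarith only [hθ0, hθ1])
    have h18 : T ^ (1 - σ) * T ^ σ = T := by rw [← Real.rpow_add hT0]; norm_num
    have h19 : 4 * T ^ σ ≤ T ^ (1 - σ) * T ^ σ :=
      mul_le_mul_of_nonneg_right (h1.trans h17) hTσ.le
    rw [h18] at h19
    rw [div_le_div_iff₀ (mul_pos hA0 hS0) (by norm_num)]
    linarith only [h19, hAS, hpT]
  have hAB : 1 - z ≤ A / B := by
    rw [hBA, div_mul_eq_div_div, div_self hA0.ne', le_div_iff₀ (Real.exp_pos z)]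
    linarith only [hez3]
  have hAB1 : A / B ≤ 1 := by rw [div_le_one hB0]; linarith only [hBA3]
  exact power_const κ ε p A B S T q Y z (T ^ (σ - 1)) hκ0 hp0 hA0 hB0 hS0 hT0 hTi (by linarith only [hBA1, hY3])
    (Nat.cast_nonneg Y) hk2 hz hz0 hz2.le hAB hAB1 h11 h16 (le_trans (mul_le_mul_of_nonneg_left
      (by linarith only [hz1]) hκ0) h2.le)

end Pool.Agent.Helper855N
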