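import Pool.Agent.Helper855N.Fam

set_option autoImplicit false
set_option linter.unusedSectionVars false
set_option linter.unusedVariables false

/-! The metric theorem for affine families and for powers. -/

namespace Pool.Agent.Helper855N

open MeasureTheory Filter Topology Finset

lemma block5 (t T : ℕ → ℝ) (hmono : Monotone t) (h3 : ∀ n, 3 ≤ t n) (β : ℝ) (hβ : ∀ n, t (n + 1) ≤ t n ^ β)
    (h4 : ∀ n, 4 ≤ T n) (D : ℝ) (hD1 : 1 ≤ D) (hT1 : ∀ n, Real.log (T n) ≤ D * Real.log (t n))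
    (hT2 : ∀ n, Real.log (t n) ≤ D * Real.log (T n)) (σ : ℝ) (hσ0 : 0 < σ) (hσ1 : σ ≤ 1) :
    ∃ B : ℝ, ∀ n N, ∑ m ∈ (Ico n N).filter (fun m => ll σ (T m) < k5 (T n)), wt t m ≤ B := by
  obtain ⟨b, hb⟩ : ∃ b : ℝ, b = max 1 β := ⟨_, rfl⟩
  have hb1 : 1 ≤ b := by rw [hb]; exact le_max_left _ _
  have hbβ : β ≤ b := by rw [hb]; exact le_max_right _ _
  have hC1 : 1 ≤ b * D ^ 2 * (6 / σ) := by
    have h1 : 1 ≤ 6 / σ := by rw [le_div_iff₀ hσ0]; linarith
    have h2 : 1 ≤ b * D ^ 2 := by nlinarith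
    nlinarith
  refine ⟨Real.log (b * D ^ 2 * (6 / σ)), fun n N => ?_⟩
  obtain ⟨S, hS⟩ : ∃ S, S = (Ico n N).filter (fun m => ll σ (T m) < k5 (T n)) := ⟨_, rfl⟩
  rw [← hS]
  rcases S.eq_empty_or_nonempty with h0 | h0
  · rw [h0, sum_empty]
    exact Real.log_nonneg hC1
  · obtain ⟨M, hM⟩ : ∃ M, M = S.max' h0 := ⟨_, rfl⟩
    have hMS : M ∈ S := by rw [hM]; exact S.max'_mem h0
    have hle : ∀ m ∈ S, m ≤ M := fun m hm => by rw [hM]; exact S.le_max' m hm
    have hsub : S ⊆ Ico n (M + 1) := by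
      intro m hm
      have h1 := hle m hm
      rw [hS, mem_filter, mem_Ico] at hm
      rw [mem_Ico]
      omega
    have h1 : ∑ m ∈ S, wt t m ≤ ∑ m ∈ Ico n (M + 1), wt t m :=
      sum_le_sum_of_subset_of_nonneg hsub (fun m _ _ => wt_nonneg t hmono h3 m)
    have hMS2 := hMS
    rw [hS, mem_filter, mem_Ico] at hMS2
    obtain ⟨⟨hnM, -⟩, hlk⟩ := hMS2
    have h2 : ∑ m ∈ Ico n (M + 1), wt t m = Real.log (Real.log (t (M + 1))) - Real.log (Real.log (t n)) := by
      rw [Finset.sum_Ico_eq_sub _ (by omega)]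
      have e1 := WW_wt t (M + 1)
      have e2 := WW_wt t n
      unfold WW at e1 e2
      rw [e1, e2]
      ring
    refine h1.trans ?_
    rw [h2]
    have hTM4 := h4 M
    have hTn4 := h4 n
    have hlog2 : 0 < Real.log 2 := Real.log_pos (by norm_num)
    have hl2 : 2 ≤ Real.logb 2 (T n) := by
      rw [Real.le_logb_iff_rpow_le (by norm_num) (by linarith)]
      norm_num
      exact hTn4
    have h4' : σ * Real.logb 2 (T M) < (ll σ (T M) : ℝ) + 1 := Nat.lt_floor_add_one _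
    have h5 : (ll σ (T M) : ℝ) + 1 ≤ k5 (T n) := by exact_mod_cast hlk
    have h6 : (k5 (T n) : ℝ) < 5 * Real.logb 2 (T n) + 2 := by
      unfold k5
      push_cast
      have := Nat.ceil_lt_add_one (show 0 ≤ 5 * Real.logb 2 (T n) by linarith)
      linarith
    have h7 : σ * Real.logb 2 (T M) ≤ 6 * Real.logb 2 (T n) := by linarith
    have h8 : Real.log (T M) ≤ 6 / σ * Real.log (T n) := by
      have e1 : Real.logb 2 (T M) = Real.log (T M) / Real.log 2 := rfl
      have e2 : Real.logb 2 (T n) = Real.log (T n) / Real.log 2 := rfl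
      rw [e1, e2, ← mul_div_assoc, ← mul_div_assoc, div_le_div_iff_of_pos_right hlog2] at h7
      rw [div_mul_eq_mul_div, le_div_iff₀ hσ0]
      linarith
    have hn1 := hT1 n
    have hM2 := hT2 M
    have hln := log_ge_one (h3 n)
    have hlM := log_ge_one (h3 M)
    have h9 : Real.log (t (M + 1)) ≤ b * Real.log (t M) := by
      have h10 : Real.log (t (M + 1)) ≤ Real.log (t M ^ β) :=
        Real.log_le_log (by linarith [h3 (M + 1)]) (hβ M)
      rw [Real.log_rpow (by linarith [h3 M])] at h10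
      nlinarith
    have h11 : Real.log (t (M + 1)) ≤ b * D ^ 2 * (6 / σ) * Real.log (t n) := by
      calc Real.log (t (M + 1)) ≤ b * Real.log (t M) := h9
        _ ≤ b * (D * Real.log (T M)) := mul_le_mul_of_nonneg_left hM2 (by linarith)
        _ ≤ b * (D * (6 / σ * Real.log (T n))) := by
            apply mul_le_mul_of_nonneg_left _ (by linarith)
            exact mul_le_mul_of_nonneg_left h8 (by linarith)
        _ ≤ b * (D * (6 / σ * (D * Real.log (t n)))) := by
            apply mul_le_mul_of_nonneg_left _ (by linarith)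
            apply mul_le_mul_of_nonneg_left _ (by linarith)
            exact mul_le_mul_of_nonneg_left hn1 (by positivity)
        _ = b * D ^ 2 * (6 / σ) * Real.log (t n) := by ring
    have hlM1 := log_ge_one (h3 (M + 1))
    have h12 := Real.log_le_log (by linarith) h11
    rw [Real.log_mul (by linarith) (by linarith)] at h12
    linarith

open Classical in
lemma metric_gen (P : ℕ → Prop) (κ σ : ℝ) (hσ0 : 0 < σ) (hσ1 : σ ≤ 1)
    (t T : ℕ → ℝ) (hmono : Monotone t) (h3 : ∀ n, 3 ≤ t n) (htop : Tendsto t atTop atTop)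
    (β : ℝ) (hβ : ∀ n, t (n + 1) ≤ t n ^ β)
    (h4 : ∀ n, 4 ≤ T n) (D : ℝ) (hD1 : 1 ≤ D) (hT1 : ∀ n, Real.log (T n) ≤ D * Real.log (t n))
    (hT2 : ∀ n, Real.log (t n) ≤ D * Real.log (T n))
    (f : ℕ → ℝ → ℝ) (hf : ∀ n, StrictMono (f n)) (hf0 : ∀ n, 0 ≤ f n 0)
    (hcond : ∀ ε : ℝ, 0 < ε → ∀ᶠ n in atTop, ∀ α ∈ Set.Ico (1 : ℝ) 2,
      κ - ε ≤ (mu[GX P (f n) (k5 (T n)) | FF (ll σ (T n))]) α) :
    ∀ᵐ α ∂mu, ∀ ε : ℝ, 0 < ε → ∀ᶠ N in atTop, (κ - ε) * Real.log (Real.log (t N)) ≤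
      ∑ n ∈ (range N).filter (fun n => P ⌊f n α⌋₊), wt t n := by
  obtain ⟨B, hB⟩ := block5 t T hmono h3 β hβ h4 D hD1 hT1 hT2 σ hσ0 hσ1
  have hll : Tendsto (fun N => Real.log (Real.log (t N))) atTop atTop :=
    Real.tendsto_log_atTop.comp (Real.tendsto_log_atTop.comp htop)
  have hWW : Tendsto (WW (wt t)) atTop atTop := by
    have e : WW (wt t) = fun N => Real.log (Real.log (t N)) + (- Real.log (Real.log (t 0))) := by
      funext N
      rw [WW_wt]; ring
    rw [e]
    exact tendsto_atTop_add_const_right _ _ hll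
  have h := lln_cond mu FF FF_le FF_mono (fun n => GX P (f n) (k5 (T n)))
    (fun n => k5 (T n)) (fun n => ll σ (T n))
    (fun n => ll_lt_k5 σ _ hσ0.le hσ1 (by linarith [h4 n]))
    (fun n => (GX_meas P _ _).stronglyMeasurable) (fun n α => GX_nonneg P _ _ α) (fun n α => GX_le_one P _ _ α)
    κ (by
      intro ε hε
      filter_upwards [hcond ε hε] with n hn
      unfold mu
      rw [ae_restrict_iff' measurableSet_Ico]
      filter_upwards with α hα
      exact hn α hα)
    (wt t) (wt_nonneg t hmono h3) B hB hWW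
  have hIco : ∀ᵐ α ∂mu, α ∈ Set.Ico (1 : ℝ) 2 := by
    unfold mu
    exact ae_restrict_mem measurableSet_Ico
  filter_upwards [h, hIco] with α hα hα1 ε hε
  obtain ⟨L₀, hL₀⟩ : ∃ L₀, L₀ = Real.log (Real.log (t 0)) := ⟨_, rfl⟩
  have hev : ∀ᶠ L : ℝ in atTop, (κ - ε) * L ≤ (κ - ε / 2) * (L - L₀) := by
    filter_upwards [eventually_ge_atTop (((κ - ε / 2) * L₀) / (ε / 2))] with L hL
    rw [div_le_iff₀ (by positivity)] at hL
    linarith
  filter_upwards [hα (ε / 2) (by positivity), hll.eventually hev] with N hN hN2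
  refine hN2.trans ?_
  rw [WW_wt, ← hL₀] at hN
  refine hN.trans ?_
  unfold SS
  rw [sum_filter]
  apply sum_le_sum
  intro n _
  beta_reduce
  have hw := wt_nonneg t hmono h3 n
  by_cases hx : GX P (f n) (k5 (T n)) α = 0
  · rw [hx, mul_zero]
    split_ifs <;> simp [hw]
  · have h7 := GX_imp P (f n) (hf n) (hf0 n) _ α (by linarith [hα1.1]) hx
    rw [if_pos h7]
    calc wt t n * GX P (f n) (k5 (T n)) α ≤ wt t n * 1 :=
          mul_le_mul_of_nonneg_left (GX_le_one P _ _ α) hw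
      _ = wt t n := mul_one _

/-- from `[1, 2)` to all positive reals -/
lemma ae_scale (Q : ℝ → Prop) (h : ∀ j : ℤ, ∀ᵐ v ∂mu, Q ((2 : ℝ) ^ j * v)) : ∀ᵐ α : ℝ, 0 < α → Q α := by
  have key : ∀ j : ℤ, ∀ᵐ α : ℝ, ((2 : ℝ) ^ j)⁻¹ * α ∈ Set.Ico (1 : ℝ) 2 → Q α := by
    intro j
    have hj : (0 : ℝ) < 2 ^ j := by positivity
    have h1 := h j
    unfold mu at h1
    rw [ae_restrict_iff' measurableSet_Ico] at h1
    have hq : Measure.QuasiMeasurePreserving (fun α : ℝ => ((2 : ℝ) ^ j)⁻¹ * α) volume volume := by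
      refine ⟨measurable_const_mul _, ?_⟩
      rw [Real.map_volume_mul_left (inv_ne_zero hj.ne')]
      exact Measure.smul_absolutelyContinuous
    have h2 := hq.ae h1
    filter_upwards [h2] with α hα hα1
    have h4 := hα hα1
    have e : (2 : ℝ) ^ j * (((2 : ℝ) ^ j)⁻¹ * α) = α := by field_simp
    rw [e] at h4
    exact h4
  rw [← ae_all_iff] at key
  filter_upwards [key] with α hα hα0
  obtain ⟨j, hj⟩ := exists_mem_Ico_zpow hα0 (one_lt_two)
  apply hα j
  have hj0 : (0 : ℝ) < 2 ^ j := by positivity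
  have e1 : (2 : ℝ) ^ (j + 1) = 2 ^ j * 2 := zpow_add_one₀ (by norm_num) j
  rw [Set.mem_Ico, e1] at hj
  rw [Set.mem_Ico, inv_mul_eq_div, le_div_iff₀ hj0, div_lt_iff₀ hj0]
  constructor
  · linarith [hj.1]
  · linarith [hj.2]

open Classical in
/-- **The metric theorem for affine families.** -/
theorem metric_affine (P : ℕ → Prop) (θ ω κ : ℝ) (hθ0 : 0 < θ) (hθω : θ < ω) (hω : ω ≤ 1) (hκ0 : 0 ≤ κ)
    (hP : Dense P θ κ) (t u : ℕ → ℝ) (hmono : Monotone t) (h3 : ∀ n, 3 ≤ t n) (htop : Tendsto t atTop atTop)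
    (β : ℝ) (hβ : ∀ n, t (n + 1) ≤ t n ^ β) (hu0 : ∀ n, 0 ≤ u n) (hu1 : ∀ n, u n ^ ω ≤ t n) :
    ∀ᵐ α : ℝ, 0 < α → ∀ ε : ℝ, 0 < ε → ∀ᶠ N in atTop, (κ - ε) * Real.log (Real.log (t N)) ≤
      ∑ n ∈ (range N).filter (fun n => P ⌊u n + α * t n⌋₊), wt t n := by
  apply ae_scale
  intro j
  obtain ⟨r, hr⟩ : ∃ r : ℝ, r = (2 : ℝ) ^ j := ⟨_, rfl⟩
  rw [← hr]
  have hr0 : 0 < r := by rw [hr]; positivity
  have hω0 : 0 < ω := by linarith
  obtain ⟨ν, hν⟩ : ∃ ν : ℝ, ν = (1 / ω + 1 / θ) / 2 := ⟨_, rfl⟩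
  have hinv : 1 / ω < 1 / θ := one_div_lt_one_div_of_lt hθ0 hθω
  have hω1 : 1 ≤ 1 / ω := by rw [le_div_iff₀ hω0]; linarith
  have hν1 : 1 ≤ ν := by rw [hν]; linarith
  have hνω : 0 < ν - 1 / ω := by rw [hν]; linarith
  have hθν : θ * ν < 1 := by
    have e : θ * (1 / θ) = 1 := by field_simp
    have h5 : ν < 1 / θ := by rw [hν]; linarith
    calc θ * ν < θ * (1 / θ) := mul_lt_mul_of_pos_left h5 hθ0
      _ = 1 := e
  have hθν0 : 0 < θ * ν := by positivity
  have htr : Tendsto (fun n => r * t n) atTop atTop := htop.const_mul_atTop hr0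
  have hTtop : Tendsto (TT t r) atTop atTop :=
    tendsto_atTop_mono (fun n => le_max_right _ _) htr
  have hmain := metric_gen P κ ((1 - θ * ν) / 2) (by linarith) (by linarith) t (TT t r) hmono h3 htop β hβ
    (fun n => le_max_left _ _) (2 + |Real.log r|) (by linarith [abs_nonneg (Real.log r)])
    (fun n => (TT_log t h3 r hr0 n).1) (fun n => (TT_log t h3 r hr0 n).2)
    (fun n a => u n + r * t n * a) (by
      intro n a b hab
      have h5 : 0 < r * t n := mul_pos hr0 (by linarith [h3 n])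
      have := mul_lt_mul_of_pos_left hab h5
      show u n + r * t n * a < u n + r * t n * b
      linarith) (by
      intro n
      show 0 ≤ u n + r * t n * 0
      rw [mul_zero, add_zero]
      exact hu0 n) (by
      intro ε hε
      have h1 := hTtop.eventually (cond_affine P θ κ ν hθ0 hν1 hθν hκ0 hP ε hε)
      have h2 : ∀ᶠ n in atTop, r⁻¹ ^ (1 / ω) ≤ (r * t n) ^ (ν - 1 / ω) :=
        (((tendsto_rpow_atTop hνω).comp htr)).eventually_ge_atTop _
      filter_upwards [h1, h2, htr.eventually_ge_atTop 4] with n hn hn2 hn3 α hα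
      have hT : TT t r n = r * t n := max_eq_right hn3
      rw [hT] at hn ⊢
      have ht0 : 0 < t n := by linarith [h3 n]
      have hrt0 : 0 < r * t n := mul_pos hr0 ht0
      apply hn (u n) (hu0 n) _ α hα
      have h5 : u n ≤ (t n) ^ (1 / ω) := by
        have h6 : (u n ^ ω) ^ (1 / ω) ≤ (t n) ^ (1 / ω) :=
          Real.rpow_le_rpow (Real.rpow_nonneg (hu0 n) _) (hu1 n) (by positivity)
        rw [← Real.rpow_mul (hu0 n)] at h6
        have e : ω * (1 / ω) = 1 := by field_simp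
        rw [e, Real.rpow_one] at h6
        exact h6
      have e2 : t n = r⁻¹ * (r * t n) := by field_simp
      have e3 : (t n) ^ (1 / ω) = r⁻¹ ^ (1 / ω) * (r * t n) ^ (1 / ω) := by
        conv_lhs => rw [e2]
        exact Real.mul_rpow (by positivity) hrt0.le
      rw [e3] at h5
      calc u n ≤ r⁻¹ ^ (1 / ω) * (r * t n) ^ (1 / ω) := h5
        _ ≤ (r * t n) ^ (ν - 1 / ω) * (r * t n) ^ (1 / ω) :=
            mul_le_mul_of_nonneg_right hn2 (by positivity)
        _ = (r * t n) ^ ν := by rw [← Real.rpow_add hrt0]; congr 1; ring)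
  filter_upwards [hmain] with v hv ε hε
  filter_upwards [hv ε hε] with N hN
  refine hN.trans (le_of_eq ?_)
  have e : ∀ n, u n + r * t n * v = u n + r * v * t n := by
    intro n
    ring
  simp_rw [e]

open Classical in
/-- **The metric theorem for powers.** -/
theorem metric_power (P : ℕ → Prop) (θ κ : ℝ) (hθ0 : 0 < θ) (hθ1 : θ < 1) (hκ0 : 0 ≤ κ)
    (hP : Dense P θ κ) (t : ℕ → ℝ) (hmono : Monotone t) (h3 : ∀ n, 3 ≤ t n) (htop : Tendsto t atTop atTop)
    (β : ℝ) (hβ : ∀ n, t (n + 1) ≤ t n ^ β) :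
    ∀ᵐ α : ℝ, 0 < α → ∀ ε : ℝ, 0 < ε → ∀ᶠ N in atTop, (κ - ε) * Real.log (Real.log (t N)) ≤
      ∑ n ∈ (range N).filter (fun n => P ⌊t n ^ α⌋₊), wt t n := by
  apply ae_scale
  intro j
  obtain ⟨r, hr⟩ : ∃ r : ℝ, r = (2 : ℝ) ^ j := ⟨_, rfl⟩
  rw [← hr]
  have hr0 : 0 < r := by rw [hr]; positivity
  have htr : Tendsto (fun n => t n ^ r) atTop atTop := (tendsto_rpow_atTop hr0).comp htop
  obtain ⟨T, hT⟩ : ∃ T : ℕ → ℝ, T = fun n => max 4 (t n ^ r) := ⟨_, rfl⟩
  have hT4 : ∀ n, 4 ≤ T n := fun n => by rw [hT]; exact le_max_left _ _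
  have hTr : ∀ n, t n ^ r ≤ T n := fun n => by rw [hT]; exact le_max_right _ _
  have hTtop : Tendsto T atTop atTop := tendsto_atTop_mono hTr htr
  have hD : 1 ≤ 2 + r + 1 / r := by
    have : 0 < 1 / r := by positivity
    linarith
  have hmain := metric_gen P κ ((1 - θ) / 2) (by linarith) (by linarith) t T hmono h3 htop β hβ
    hT4 (2 + r + 1 / r) hD
    (by
      intro n
      have h1 := log_ge_one (h3 n)
      have ht0 : 0 < t n := by linarith [h3 n]
      have e : Real.log (t n ^ r) = r * Real.log (t n) := Real.log_rpow ht0 r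
      have hi : 0 < 1 / r := by positivity
      rcases max_choice 4 (t n ^ r) with h | h
      · have : T n = 4 := by rw [hT]; exact h
        rw [this]
        have := log4'
        nlinarith
      · have : T n = t n ^ r := by rw [hT]; exact h
        rw [this, e]
        nlinarith)
    (by
      intro n
      have h1 := log_ge_one (h3 n)
      have ht0 : 0 < t n := by linarith [h3 n]
      have e : Real.log (t n ^ r) = r * Real.log (t n) := Real.log_rpow ht0 r
      have hi : 0 < 1 / r := by positivity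
      have h5 : Real.log (t n ^ r) ≤ Real.log (T n) := Real.log_le_log (by positivity) (hTr n)
      rw [e] at h5
      have h6 : Real.log (t n) = 1 / r * (r * Real.log (t n)) := by field_simp
      have h7 : 1 / r * (r * Real.log (t n)) ≤ 1 / r * Real.log (T n) := mul_le_mul_of_nonneg_left h5 hi.le
      have h8 : 1 ≤ Real.log (T n) := log_ge_one (by linarith [hT4 n])
      have h9 : 0 ≤ (2 + r) * Real.log (T n) := by positivity
      rw [h6]
      linarith)
    (fun n a => (t n ^ r) ^ a) (by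
      intro n
      have h5 : 1 < t n ^ r := Real.one_lt_rpow (by linarith [h3 n]) hr0
      exact Real.strictMono_rpow_of_base_gt_one h5) (by
      intro n
      show 0 ≤ (t n ^ r) ^ (0 : ℝ)
      rw [Real.rpow_zero]
      norm_num) (by
      intro ε hε
      have h1 := hTtop.eventually (cond_power P θ κ hθ0 hθ1 hκ0 hP ε hε)
      filter_upwards [h1, htr.eventually_ge_atTop 4] with n hn hn3 α hα
      have hTn : T n = t n ^ r := by rw [hT]; exact max_eq_right hn3
      rw [hTn] at hn ⊢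
      exact hn α hα)
  filter_upwards [hmain] with v hv ε hε
  filter_upwards [hv ε hε] with N hN
  refine hN.trans (le_of_eq ?_)
  have e : ∀ n, (t n ^ r) ^ v = t n ^ (r * v) := by
    intro n
    rw [Real.rpow_mul (by linarith [h3 n])]
  simp_rw [e]

end Pool.Agent.Helper855N
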