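import Pool.Agent.Helper855N.LLN

set_option autoImplicit false
set_option linter.unusedSectionVars false

/-! A weighted law of large numbers for nonnegative functions with bounded second moments which are almost
uncorrelated at separated levels. -/

namespace Pool.Agent.Helper855N

open MeasureTheory Filter Topology Finset

section

variable {Ω : Type} [MeasurableSpace Ω] (μ : Measure Ω) [IsProbabilityMeasure μ]

lemma int_bdd {f : Ω → ℝ} (hf : Measurable f) (b : ℝ) (hb : ∀ ω, |f ω| ≤ b) : Integrable f μ := by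
  apply Integrable.of_bound hf.aestronglyMeasurable b
  filter_upwards with ω
  exact hb ω

lemma second_moment2 (Z : ℕ → Ω → ℝ) (hZm : ∀ n, Measurable (Z n)) (b : ℕ → ℝ) (hb : ∀ n ω, |Z n ω| ≤ b n)
    (C : ℝ) (hC0 : 0 ≤ C) (hC : ∀ n, ∫ ω, (Z n ω) ^ 2 ∂μ ≤ C)
    (k ℓ : ℕ → ℕ) (hℓk : ∀ n, ℓ n < k n) (δ : ℕ → ℝ) (hδ0 : ∀ n, 0 ≤ δ n)
    (horth : ∀ n m, n < m → k n ≤ ℓ m → ∫ ω, Z n ω * Z m ω ∂μ ≤ δ m)
    (w : ℕ → ℝ) (hw : ∀ n, 0 ≤ w n) (B D : ℝ)
    (hblock : ∀ n N, ∑ m ∈ (Ico n N).filter (fun m => ℓ m < k n), w m ≤ B)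
    (hD : ∀ N, ∑ m ∈ range N, w m * δ m ≤ D) (N : ℕ) :
    ∫ ω, (SS w Z N ω) ^ 2 ∂μ ≤ 2 * (C * B + D) * WW w N := by
  have hb0 : ∀ n ω, 0 ≤ b n := fun n ω => (abs_nonneg _).trans (hb n ω)
  have hint : ∀ n m, Integrable (fun ω => Z n ω * Z m ω) μ := by
    intro n m
    apply int_bdd μ ((hZm n).mul (hZm m)) (b n * b m)
    intro ω
    show |Z n ω * Z m ω| ≤ b n * b m
    rw [abs_mul]
    exact mul_le_mul (hb _ _) (hb _ _) (abs_nonneg _) (hb0 n ω)
  have hint2 : ∀ n, Integrable (fun ω => (Z n ω) ^ 2) μ := by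
    intro n
    have := hint n n
    simp_rw [← sq] at this
    exact this
  have hc : ∀ n m, ∫ ω, Z n ω * Z m ω ∂μ ≤ C := by
    intro n m
    have h1 : ∫ ω, Z n ω * Z m ω ∂μ ≤ ∫ ω, (1 / 2 * (Z n ω) ^ 2 + 1 / 2 * (Z m ω) ^ 2) ∂μ := by
      apply integral_mono (hint n m) (((hint2 n).const_mul _).add ((hint2 m).const_mul _))
      intro ω
      show Z n ω * Z m ω ≤ 1 / 2 * (Z n ω) ^ 2 + 1 / 2 * (Z m ω) ^ 2
      nlinarith [sq_nonneg (Z n ω - Z m ω)]
    rw [integral_add ((hint2 n).const_mul _) ((hint2 m).const_mul _), integral_const_mul,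
      integral_const_mul] at h1
    linarith [hC n, hC m]
  have e1 : ∫ ω, (SS w Z N ω) ^ 2 ∂μ = ∑ n ∈ range N, ∑ m ∈ range N, w n * w m * ∫ ω, Z n ω * Z m ω ∂μ := by
    have e2 : ∀ ω, (SS w Z N ω) ^ 2 = ∑ n ∈ range N, ∑ m ∈ range N, w n * w m * (Z n ω * Z m ω) := by
      intro ω
      unfold SS
      rw [sq, sum_mul_sum]
      refine sum_congr rfl fun n _ => sum_congr rfl fun m _ => by ring
    simp_rw [e2]
    rw [integral_finsetSum _ (fun n _ => integrable_finsetSum _ (fun m _ => (hint n m).const_mul _))]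
    refine sum_congr rfl fun n _ => ?_
    rw [integral_finsetSum _ (fun m _ => (hint n m).const_mul _)]
    refine sum_congr rfl fun m _ => ?_
    rw [integral_const_mul]
  rw [e1]
  have h1 : ∀ n ∈ range N, ∀ m ∈ range N, w n * w m * ∫ ω, Z n ω * Z m ω ∂μ ≤
      (w n * (C * (if n ≤ m ∧ ℓ m < k n then w m else 0)) + w m * (C * (if m ≤ n ∧ ℓ n < k m then w n else 0))) +
        (w n * (w m * δ m) + w m * (w n * δ n)) := by
    intro n _ m _
    have hn := hw n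
    have hm := hw m
    have hnm : 0 ≤ w n * w m := mul_nonneg hn hm
    have h2 : w n * w m * ∫ ω, Z n ω * Z m ω ∂μ ≤ w n * w m * C :=
      mul_le_mul_of_nonneg_left (hc n m) hnm
    have h5 : 0 ≤ w n * (w m * δ m) := mul_nonneg hn (mul_nonneg hm (hδ0 m))
    have h6 : 0 ≤ w m * (w n * δ n) := mul_nonneg hm (mul_nonneg hn (hδ0 n))
    have h7 : 0 ≤ w n * (C * w m) := mul_nonneg hn (mul_nonneg hC0 hm)
    have h8 : 0 ≤ w m * (C * w n) := mul_nonneg hm (mul_nonneg hC0 hn)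
    rcases lt_trichotomy n m with h | h | h
    · by_cases hk : ℓ m < k n
      · rw [if_pos ⟨h.le, hk⟩, if_neg (by rintro ⟨h3, -⟩; omega)]
        linarith
      · have h9 := mul_le_mul_of_nonneg_left (horth n m h (by omega)) hnm
        rw [if_neg (by rintro ⟨-, h3⟩; exact hk h3), if_neg (by rintro ⟨h3, -⟩; omega)]
        linarith
    · subst h
      rw [if_pos ⟨le_rfl, hℓk n⟩]
      linarith
    · by_cases hk : ℓ n < k m
      · rw [if_neg (by rintro ⟨h3, -⟩; omega), if_pos ⟨h.le, hk⟩]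
        linarith
      · have h9 : ∫ ω, Z n ω * Z m ω ∂μ ≤ δ n := by
          refine le_trans (le_of_eq ?_) (horth m n h (by omega))
          congr 1
          ext ω
          ring
        have h10 := mul_le_mul_of_nonneg_left h9 hnm
        rw [if_neg (by rintro ⟨h3, -⟩; omega), if_neg (by rintro ⟨-, h3⟩; exact hk h3)]
        linarith
  have h4 : ∀ n, ∑ m ∈ range N, (C * (if n ≤ m ∧ ℓ m < k n then w m else 0)) ≤ C * B := by
    intro n
    rw [← mul_sum]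
    apply mul_le_mul_of_nonneg_left _ hC0
    rw [← sum_filter]
    refine le_trans (le_of_eq ?_) (hblock n N)
    apply sum_congr _ (fun _ _ => rfl)
    ext m
    simp only [mem_filter, mem_range, mem_Ico]
    omega
  calc ∑ n ∈ range N, ∑ m ∈ range N, w n * w m * ∫ ω, Z n ω * Z m ω ∂μ
      ≤ ∑ n ∈ range N, ∑ m ∈ range N, ((w n * (C * (if n ≤ m ∧ ℓ m < k n then w m else 0)) +
          w m * (C * (if m ≤ n ∧ ℓ n < k m then w n else 0))) + (w n * (w m * δ m) + w m * (w n * δ n))) :=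
        sum_le_sum fun n hn => sum_le_sum fun m hm => h1 n hn m hm
    _ = ((∑ n ∈ range N, w n * ∑ m ∈ range N, (C * (if n ≤ m ∧ ℓ m < k n then w m else 0))) +
          ∑ m ∈ range N, w m * ∑ n ∈ range N, (C * (if m ≤ n ∧ ℓ n < k m then w n else 0))) +
          ((∑ n ∈ range N, w n * ∑ m ∈ range N, w m * δ m) + ∑ m ∈ range N, w m * ∑ n ∈ range N, w n * δ n) := by
        simp_rw [sum_add_distrib, mul_sum]
        congr 1
        · congr 1
          exact sum_comm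
        · congr 1
          exact sum_comm
    _ ≤ ((∑ n ∈ range N, w n * (C * B)) + ∑ m ∈ range N, w m * (C * B)) +
          ((∑ n ∈ range N, w n * D) + ∑ m ∈ range N, w m * D) :=
        add_le_add (add_le_add (sum_le_sum fun n _ => mul_le_mul_of_nonneg_left (h4 n) (hw n))
          (sum_le_sum fun n _ => mul_le_mul_of_nonneg_left (h4 n) (hw n)))
          (add_le_add (sum_le_sum fun n _ => mul_le_mul_of_nonneg_left (hD N) (hw n))
          (sum_le_sum fun n _ => mul_le_mul_of_nonneg_left (hD N) (hw n)))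
    _ = 2 * (C * B + D) * WW w N := by
        rw [← sum_mul, ← sum_mul]
        unfold WW
        ring

theorem lln2 (X : ℕ → Ω → ℝ) (hXm : ∀ n, Measurable (X n)) (hX0 : ∀ n ω, 0 ≤ X n ω)
    (b : ℕ → ℝ) (hb : ∀ n ω, |X n ω - 1| ≤ b n)
    (C : ℝ) (hC0 : 0 ≤ C) (hC : ∀ n, ∫ ω, (X n ω - 1) ^ 2 ∂μ ≤ C)
    (k ℓ : ℕ → ℕ) (hℓk : ∀ n, ℓ n < k n) (δ : ℕ → ℝ) (hδ0 : ∀ n, 0 ≤ δ n)
    (horth : ∀ n m, n < m → k n ≤ ℓ m → ∫ ω, (X n ω - 1) * (X m ω - 1) ∂μ ≤ δ m)
    (w : ℕ → ℝ) (hw : ∀ n, 0 ≤ w n) (B D : ℝ)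
    (hblock : ∀ n N, ∑ m ∈ (Ico n N).filter (fun m => ℓ m < k n), w m ≤ B)
    (hD : ∀ N, ∑ m ∈ range N, w m * δ m ≤ D) (hD0 : 0 ≤ D)
    (hdiv : Tendsto (WW w) atTop atTop) (ε : ℝ) (hε : 0 < ε) (hε1 : ε ≤ 1) :
    ∀ᵐ ω ∂μ, ∀ᶠ N in atTop, |SS w X N ω - WW w N| ≤ ε * WW w N := by
  obtain ⟨Z, hZ⟩ : ∃ Z : ℕ → Ω → ℝ, Z = fun n ω => X n ω - 1 := ⟨_, rfl⟩
  have hZm : ∀ n, Measurable (Z n) := fun n => by rw [hZ]; exact (hXm n).sub measurable_const
  have hZb : ∀ n ω, |Z n ω| ≤ b n := fun n ω => by rw [hZ]; exact hb n ω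
  have hZC : ∀ n, ∫ ω, (Z n ω) ^ 2 ∂μ ≤ C := fun n => by rw [hZ]; exact hC n
  have hZo : ∀ n m, n < m → k n ≤ ℓ m → ∫ ω, Z n ω * Z m ω ∂μ ≤ δ m := by rw [hZ]; exact horth
  have hZS : ∀ N ω, SS w X N ω = SS w Z N ω + WW w N := by
    intro N ω
    unfold SS WW
    rw [← sum_add_distrib]
    refine sum_congr rfl fun m _ => ?_
    rw [hZ]
    ring
  have hB : 0 ≤ B := le_trans (by apply sum_nonneg; intro m _; exact hw m) (hblock 0 1)
  have hwB : ∀ n, w n ≤ B := by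
    intro n
    refine le_trans ?_ (hblock n (n + 1))
    have : n ∈ (Ico n (n + 1)).filter (fun m => ℓ m < k n) := by
      rw [mem_filter, mem_Ico]; exact ⟨⟨le_rfl, by omega⟩, hℓk n⟩
    exact single_le_sum (f := w) (fun i _ => hw i) this
  obtain ⟨E, hE⟩ : ∃ E : ℝ, E = 2 * (C * B + D) := ⟨_, rfl⟩
  have hE0 : 0 ≤ E := by rw [hE]; have := mul_nonneg hC0 hB; linarith
  have hex : ∀ j : ℕ, ∃ N, ((j : ℝ) ^ 2) ≤ WW w N := fun j => (hdiv.eventually_ge_atTop _).exists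
  classical
  set NN : ℕ → ℕ := fun j => Nat.find (hex j) with hNN
  have hN1 : ∀ j : ℕ, ((j : ℝ) ^ 2) ≤ WW w (NN j) := fun j => Nat.find_spec (hex j)
  have hN2 : ∀ (j N : ℕ), ((j : ℝ) ^ 2) ≤ WW w N → NN j ≤ N := fun j N h => Nat.find_min' (hex j) h
  have hN3 : ∀ j : ℕ, WW w (NN j) ≤ (j : ℝ) ^ 2 + B := by
    intro j
    rcases Nat.eq_zero_or_pos (NN j) with h | h
    · rw [h]
      have : WW w 0 = 0 := by simp [WW]
      rw [this]
      positivity
    · obtain ⟨i, hi⟩ : ∃ i, NN j = i + 1 := ⟨NN j - 1, by omega⟩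
      have h1 : ¬ ((j : ℝ) ^ 2 ≤ WW w i) := fun h2 => by have := hN2 j i h2; omega
      push Not at h1
      rw [hi, WW_succ]
      linarith [hwB i]
  have hae : ∀ᵐ ω ∂μ, ∀ᶠ j in atTop, ω ∉ {ω | (ε / 4 * WW w (NN (j + 1))) ^ 2 ≤ (SS w Z (NN (j + 1)) ω) ^ 2} := by
    apply ae_eventually_notMem
    have hbd : ∀ j : ℕ, μ {ω | (ε / 4 * WW w (NN (j + 1))) ^ 2 ≤ (SS w Z (NN (j + 1)) ω) ^ 2} ≤
        ENNReal.ofReal (16 * E / ε ^ 2 * (1 / ((j : ℝ) + 1) ^ 2)) := by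
      intro j
      obtain ⟨W, hW⟩ : ∃ W, W = WW w (NN (j + 1)) := ⟨_, rfl⟩
      have hj : (0 : ℝ) < ((j : ℝ) + 1) ^ 2 := by positivity
      have hWj : ((j : ℝ) + 1) ^ 2 ≤ W := by
        have := hN1 (j + 1); push_cast at this; rw [hW]; exact this
      have hW0 : 0 < W := lt_of_lt_of_le hj hWj
      rw [← ofReal_measureReal]
      apply ENNReal.ofReal_le_ofReal
      have hSm : Measurable (SS w Z (NN (j + 1))) := by
        unfold SS
        exact Finset.measurable_sum _ (fun m _ => (hZm m).const_mul _)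
      have hint : Integrable (fun ω => (SS w Z (NN (j + 1)) ω) ^ 2) μ := by
        apply int_bdd μ (hSm.pow_const 2) ((∑ m ∈ range (NN (j + 1)), w m * b m) ^ 2)
        intro ω
        rw [abs_pow]
        apply pow_le_pow_left₀ (abs_nonneg _)
        unfold SS
        refine (abs_sum_le_sum_abs _ _).trans (sum_le_sum fun m _ => ?_)
        rw [abs_mul, abs_of_nonneg (hw m)]
        exact mul_le_mul_of_nonneg_left (hZb m ω) (hw m)
      have h2 := mul_meas_ge_le_integral_of_nonneg (μ := μ) (f := fun ω => (SS w Z (NN (j + 1)) ω) ^ 2)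
        (by filter_upwards with ω; positivity) hint ((ε / 4 * WW w (NN (j + 1))) ^ 2)
      have h3 := second_moment2 μ Z hZm b hZb C hC0 hZC k ℓ hℓk δ hδ0 hZo w hw B D hblock hD (NN (j + 1))
      rw [← hE] at h3
      rw [← hW] at h2 h3 ⊢
      have h4 : (ε / 4 * W) ^ 2 * μ.real {ω | (ε / 4 * W) ^ 2 ≤ (SS w Z (NN (j + 1)) ω) ^ 2} ≤ E * W :=
        h2.trans h3
      have h5 : 0 < (ε / 4 * W) ^ 2 := by positivity
      have h6 : μ.real {ω | (ε / 4 * W) ^ 2 ≤ (SS w Z (NN (j + 1)) ω) ^ 2} ≤ E * W / (ε / 4 * W) ^ 2 := by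
        rw [le_div_iff₀ h5]; linarith
      refine h6.trans ?_
      have e : E * W / (ε / 4 * W) ^ 2 = 16 * E / ε ^ 2 * (1 / W) := by field_simp; ring
      rw [e]
      apply mul_le_mul_of_nonneg_left _ (by positivity)
      exact one_div_le_one_div_of_le hj hWj
    have hsum : Summable (fun j : ℕ => 16 * E / ε ^ 2 * (1 / ((j : ℝ) + 1) ^ 2)) := by
      apply Summable.mul_left
      have := (summable_nat_add_iff 1).2 (Real.summable_one_div_nat_pow.2 (by norm_num : 1 < 2))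
      simpa using this
    refine ne_of_lt (lt_of_le_of_lt (ENNReal.tsum_le_tsum hbd) ?_)
    exact hsum.tsum_ofReal_lt_top
  have hsmall : ∀ᶠ W : ℝ in atTop, 2 * (2 * √W + 1 + B) ≤ ε / 2 * W := by
    filter_upwards [eventually_ge_atTop (max 1 (((8 + 4 * B + 4) / ε) ^ 2))] with W hW
    have hW1 : 1 ≤ W := (le_max_left _ _).trans hW
    have hW2 : ((8 + 4 * B + 4) / ε) ^ 2 ≤ W := (le_max_right _ _).trans hW
    have h1 : 1 ≤ √W := by rw [Real.one_le_sqrt]; exact hW1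
    have h2 : (8 + 4 * B + 4) / ε ≤ √W := Real.le_sqrt_of_sq_le hW2
    have h3 : √W * √W = W := Real.mul_self_sqrt (by linarith)
    rw [div_le_iff₀ hε] at h2
    have h4 : (8 + 4 * B + 4) * √W ≤ √W * ε * √W := mul_le_mul_of_nonneg_right h2 (by linarith)
    have h5 : √W * ε * √W = ε * W := by
      calc √W * ε * √W = ε * (√W * √W) := by ring
        _ = ε * W := by rw [h3]
    rw [h5] at h4
    nlinarith
  have hXmono : ∀ ω, Monotone (fun N => SS w X N ω) := by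
    intro ω
    apply monotone_nat_of_le_succ
    intro N
    unfold SS
    rw [sum_range_succ]
    linarith [mul_nonneg (hw N) (hX0 N ω)]
  filter_upwards [hae] with ω hω
  obtain ⟨J, hJ⟩ := eventually_atTop.1 hω
  filter_upwards [hdiv.eventually hsmall, hdiv.eventually_ge_atTop (((J : ℝ) + 1) ^ 2)] with N hN3' hN4
  set j : ℕ := ⌊√(WW w N)⌋₊ with hj
  have hW0 : 0 ≤ WW w N := WW_nonneg hw N
  have hj1 : (j : ℝ) ≤ √(WW w N) := Nat.floor_le (Real.sqrt_nonneg _)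
  have hj2 : √(WW w N) < (j : ℝ) + 1 := Nat.lt_floor_add_one _
  have hjJ : J + 1 ≤ j := by
    rw [hj]
    apply Nat.le_floor
    push_cast
    exact Real.le_sqrt_of_sq_le hN4
  have hsq : √(WW w N) ^ 2 = WW w N := Real.sq_sqrt hW0
  have hjW : ((j : ℝ)) ^ 2 ≤ WW w N := by
    calc ((j : ℝ)) ^ 2 ≤ (√(WW w N)) ^ 2 := pow_le_pow_left₀ (Nat.cast_nonneg _) hj1 2
      _ = WW w N := hsq
  have hjW2 : WW w N < ((j : ℝ) + 1) ^ 2 := by
    calc WW w N = (√(WW w N)) ^ 2 := hsq.symm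
      _ < ((j : ℝ) + 1) ^ 2 := pow_lt_pow_left₀ hj2 (Real.sqrt_nonneg _) (by norm_num)
  have hjN : NN j ≤ N := hN2 j N hjW
  have hjN2 : N ≤ NN (j + 1) := by
    by_contra hcon
    push Not at hcon
    have h1 := WW_mono hw hcon.le
    have h2 := hN1 (j + 1)
    push_cast at h2
    linarith
  obtain ⟨i, hi⟩ : ∃ i, j = i + 1 := ⟨j - 1, by omega⟩
  have habs : ∀ i', J ≤ i' → |SS w Z (NN (i' + 1)) ω| ≤ ε / 4 * WW w (NN (i' + 1)) := by
    intro i' hi'
    have h5 := hJ i' hi'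
    simp only [Set.mem_ofPred_eq, not_le] at h5
    exact abs_le_of_sq_le_sq h5.le (mul_nonneg (by positivity) (WW_nonneg hw _))
  have h5 := habs i (by omega)
  rw [← hi] at h5
  have h6 := habs j (by omega)
  have h7 := hXmono ω hjN
  have h8 := hXmono ω hjN2
  simp only at h7 h8
  rw [hZS (NN j)] at h7
  rw [hZS (NN (j + 1))] at h8
  have h9 := hN3 (j + 1)
  push_cast at h9
  have h10 := hN1 j
  rw [abs_le] at h5 h6 ⊢
  have hs0 : 0 ≤ √(WW w N) := Real.sqrt_nonneg _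
  have h11 : ((j : ℝ) + 1) ^ 2 ≤ WW w N + 2 * √(WW w N) + 1 := by nlinarith
  have h12 : WW w N - 2 * √(WW w N) - 1 ≤ (j : ℝ) ^ 2 := by nlinarith
  have h13 : 0 ≤ WW w (NN j) := WW_nonneg hw _
  constructor
  · -- lower bound
    have h14 : (1 - ε / 4) * WW w (NN j) ≤ SS w X N ω := by linarith [h5.1]
    have h15 : (1 - ε / 4) * (WW w N - 2 * √(WW w N) - 1) ≤ (1 - ε / 4) * WW w (NN j) :=
      mul_le_mul_of_nonneg_left (by linarith) (by linarith)
    nlinarith [mul_nonneg hε.le hs0]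
  · have h14 : SS w X N ω ≤ (1 + ε / 4) * WW w (NN (j + 1)) := by linarith [h6.2]
    have h15 : (1 + ε / 4) * WW w (NN (j + 1)) ≤ (1 + ε / 4) * (WW w N + (2 * √(WW w N) + 1 + B)) :=
      mul_le_mul_of_nonneg_left (by linarith) (by linarith)
    have h16 : 0 ≤ 2 * √(WW w N) + 1 + B := by linarith
    nlinarith [mul_nonneg hε.le h16]

end

end Pool.Agent.Helper855N
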