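import Mathlib

set_option autoImplicit false
set_option linter.unusedSectionVars false

/-! A weighted law of large numbers for bounded functions which are orthogonal at separated levels. -/

namespace Pool.Agent.Helper855N

open MeasureTheory Filter Topology Finset

section

variable {Ω : Type} [MeasurableSpace Ω] (μ : Measure Ω) [IsProbabilityMeasure μ]

/-- partial sums of the weights -/
noncomputable def WW (w : ℕ → ℝ) (N : ℕ) : ℝ := ∑ m ∈ range N, w m

/-- weighted partial sums -/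
noncomputable def SS (w : ℕ → ℝ) (Z : ℕ → Ω → ℝ) (N : ℕ) (ω : Ω) : ℝ := ∑ m ∈ range N, w m * Z m ω

lemma WW_succ (w : ℕ → ℝ) (N : ℕ) : WW w (N + 1) = WW w N + w N := by
  unfold WW; rw [sum_range_succ]

lemma WW_mono {w : ℕ → ℝ} (hw : ∀ n, 0 ≤ w n) : Monotone (WW w) :=
  monotone_nat_of_le_succ (fun N => by rw [WW_succ]; linarith [hw N])

lemma WW_nonneg {w : ℕ → ℝ} (hw : ∀ n, 0 ≤ w n) (N : ℕ) : 0 ≤ WW w N := sum_nonneg (fun m _ => hw m)

lemma SS_diff {w : ℕ → ℝ} (hw : ∀ n, 0 ≤ w n) {Z : ℕ → Ω → ℝ} (hb : ∀ n ω, |Z n ω| ≤ 1) {M N : ℕ} (h : M ≤ N)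
    (ω : Ω) : |SS w Z N ω| ≤ |SS w Z M ω| + (WW w N - WW w M) := by
  obtain ⟨d, rfl⟩ := Nat.exists_eq_add_of_le h
  induction d with
  | zero => simp
  | succ d ih =>
    have h1 := ih (Nat.le_add_right _ _)
    have e1 : SS w Z (M + (d + 1)) ω = SS w Z (M + d) ω + w (M + d) * Z (M + d) ω := by
      unfold SS; rw [← add_assoc, sum_range_succ]
    have e2 : WW w (M + (d + 1)) = WW w (M + d) + w (M + d) := by rw [← add_assoc, WW_succ]
    have h2 : |w (M + d) * Z (M + d) ω| ≤ w (M + d) := by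
      rw [abs_mul, abs_of_nonneg (hw _)]
      calc w (M + d) * |Z (M + d) ω| ≤ w (M + d) * 1 := mul_le_mul_of_nonneg_left (hb _ _) (hw _)
        _ = _ := mul_one _
    rw [e1, e2]
    linarith [abs_add_le (SS w Z (M + d) ω) (w (M + d) * Z (M + d) ω)]

lemma second_moment (Z : ℕ → Ω → ℝ) (hZm : ∀ n, Measurable (Z n)) (hb : ∀ n ω, |Z n ω| ≤ 1)
    (k ℓ : ℕ → ℕ) (hℓk : ∀ n, ℓ n < k n)
    (horth : ∀ n m, n < m → k n ≤ ℓ m → ∫ ω, Z n ω * Z m ω ∂μ = 0)
    (w : ℕ → ℝ) (hw : ∀ n, 0 ≤ w n) (B : ℝ)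
    (hblock : ∀ n N, ∑ m ∈ (Ico n N).filter (fun m => ℓ m < k n), w m ≤ B) (N : ℕ) :
    ∫ ω, (SS w Z N ω) ^ 2 ∂μ ≤ 2 * B * WW w N := by
  have hint : ∀ n m, Integrable (fun ω => Z n ω * Z m ω) μ := by
    intro n m
    apply Integrable.of_bound ((hZm n).mul (hZm m)).aestronglyMeasurable 1
    filter_upwards with ω
    change |Z n ω * Z m ω| ≤ 1
    rw [abs_mul]
    calc |Z n ω| * |Z m ω| ≤ 1 * 1 := mul_le_mul (hb _ _) (hb _ _) (abs_nonneg _) zero_le_one
      _ = 1 := one_mul 1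
  have hc : ∀ n m, |∫ ω, Z n ω * Z m ω ∂μ| ≤ 1 := by
    intro n m
    have h := norm_integral_le_of_norm_le_const (μ := μ) (f := fun ω => Z n ω * Z m ω) (C := 1) (by
      filter_upwards with ω
      rw [Real.norm_eq_abs, abs_mul]
      calc |Z n ω| * |Z m ω| ≤ 1 * 1 := mul_le_mul (hb _ _) (hb _ _) (abs_nonneg _) zero_le_one
        _ = 1 := one_mul 1)
    simpa using h
  have e1 : ∫ ω, (SS w Z N ω) ^ 2 ∂μ = ∑ n ∈ range N, ∑ m ∈ range N, w n * w m * ∫ ω, Z n ω * Z m ω ∂μ := by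
    have e2 : ∀ ω, (SS w Z N ω) ^ 2 = ∑ n ∈ range N, ∑ m ∈ range N, w n * w m * (Z n ω * Z m ω) := by
      intro ω
      unfold SS
      rw [sq, sum_mul_sum]
      refine sum_congr rfl fun n _ => sum_congr rfl fun m _ => by ring
    simp_rw [e2]
    rw [integral_finsetSum _ (fun n _ => integrable_finsetSum _ (fun m _ => (hint n m).const_mul _))]
    refine sum_congr rfl fun n _ => ?_
    rw [integral_finsetSum _ (fun m _ => (hint n m).const_mul _)]
    refine sum_congr rfl fun m _ => ?_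
    rw [integral_const_mul]
  rw [e1]
  have h1 : ∀ n ∈ range N, ∀ m ∈ range N, w n * w m * ∫ ω, Z n ω * Z m ω ∂μ ≤
      w n * (if n ≤ m ∧ ℓ m < k n then w m else 0) + w m * (if m ≤ n ∧ ℓ n < k m then w n else 0) := by
    intro n _ m _
    have hn := hw n
    have hm := hw m
    have hnm : 0 ≤ w n * w m := mul_nonneg hn hm
    have h2 : w n * w m * ∫ ω, Z n ω * Z m ω ∂μ ≤ w n * w m := by
      calc _ ≤ w n * w m * 1 := mul_le_mul_of_nonneg_left (le_trans (le_abs_self _) (hc n m)) hnm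
        _ = _ := mul_one _
    rcases lt_trichotomy n m with h | h | h
    · by_cases hk : ℓ m < k n
      · rw [if_pos ⟨h.le, hk⟩, if_neg (by rintro ⟨h3, -⟩; omega)]
        linarith
      · rw [horth n m h (by omega), if_neg (by rintro ⟨-, h3⟩; exact hk h3), if_neg (by rintro ⟨h3, -⟩; omega)]
        simp
    · subst h
      rw [if_pos ⟨le_rfl, hℓk n⟩]
      linarith
    · by_cases hk : ℓ n < k m
      · rw [if_neg (by rintro ⟨h3, -⟩; omega), if_pos ⟨h.le, hk⟩]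
        linarith
      · have e3 : ∫ ω, Z n ω * Z m ω ∂μ = 0 := by
          have := horth m n h (by omega)
          rw [← this]
          congr 1
          ext ω
          ring
        rw [e3, if_neg (by rintro ⟨h3, -⟩; omega), if_neg (by rintro ⟨-, h3⟩; exact hk h3)]
        simp
  have h4 : ∀ n, ∑ m ∈ range N, (if n ≤ m ∧ ℓ m < k n then w m else 0) ≤ B := by
    intro n
    rw [← sum_filter]
    refine le_trans (le_of_eq ?_) (hblock n N)
    apply sum_congr _ (fun _ _ => rfl)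
    ext m
    simp only [mem_filter, mem_range, mem_Ico]
    omega
  calc ∑ n ∈ range N, ∑ m ∈ range N, w n * w m * ∫ ω, Z n ω * Z m ω ∂μ
      ≤ ∑ n ∈ range N, ∑ m ∈ range N, (w n * (if n ≤ m ∧ ℓ m < k n then w m else 0) +
          w m * (if m ≤ n ∧ ℓ n < k m then w n else 0)) :=
        sum_le_sum fun n hn => sum_le_sum fun m hm => h1 n hn m hm
    _ = (∑ n ∈ range N, w n * ∑ m ∈ range N, (if n ≤ m ∧ ℓ m < k n then w m else 0)) +
          ∑ m ∈ range N, w m * ∑ n ∈ range N, (if m ≤ n ∧ ℓ n < k m then w n else 0) := by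
        simp_rw [sum_add_distrib, mul_sum]
        congr 1
        exact sum_comm
    _ ≤ (∑ n ∈ range N, w n * B) + ∑ m ∈ range N, w m * B :=
        add_le_add (sum_le_sum fun n _ => mul_le_mul_of_nonneg_left (h4 n) (hw n))
          (sum_le_sum fun n _ => mul_le_mul_of_nonneg_left (h4 n) (hw n))
    _ = 2 * B * WW w N := by
        rw [← sum_mul]
        unfold WW
        ring

theorem lln (Z : ℕ → Ω → ℝ) (hZm : ∀ n, Measurable (Z n)) (hb : ∀ n ω, |Z n ω| ≤ 1)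
    (k ℓ : ℕ → ℕ) (hℓk : ∀ n, ℓ n < k n)
    (horth : ∀ n m, n < m → k n ≤ ℓ m → ∫ ω, Z n ω * Z m ω ∂μ = 0)
    (w : ℕ → ℝ) (hw : ∀ n, 0 ≤ w n) (B : ℝ)
    (hblock : ∀ n N, ∑ m ∈ (Ico n N).filter (fun m => ℓ m < k n), w m ≤ B)
    (hdiv : Tendsto (WW w) atTop atTop) (ε : ℝ) (hε : 0 < ε) :
    ∀ᵐ ω ∂μ, ∀ᶠ N in atTop, |SS w Z N ω| ≤ ε * WW w N := by
  have hB : 0 ≤ B := le_trans (by apply sum_nonneg; intro m _; exact hw m) (hblock 0 1)
  have hwB : ∀ n, w n ≤ B := by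
    intro n
    refine le_trans ?_ (hblock n (n + 1))
    have : n ∈ (Ico n (n + 1)).filter (fun m => ℓ m < k n) := by
      rw [mem_filter, mem_Ico]; exact ⟨⟨le_rfl, by omega⟩, hℓk n⟩
    exact single_le_sum (f := w) (fun i _ => hw i) this
  -- the subsequence
  have hex : ∀ j : ℕ, ∃ N, ((j : ℝ) ^ 2) ≤ WW w N := fun j => (hdiv.eventually_ge_atTop _).exists
  classical
  set NN : ℕ → ℕ := fun j => Nat.find (hex j) with hNN
  have hN1 : ∀ j : ℕ, ((j : ℝ) ^ 2) ≤ WW w (NN j) := fun j => Nat.find_spec (hex j)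
  have hN2 : ∀ (j N : ℕ), ((j : ℝ) ^ 2) ≤ WW w N → NN j ≤ N := fun j N h => Nat.find_min' (hex j) h
  have hae : ∀ᵐ ω ∂μ, ∀ᶠ j in atTop, ω ∉ {ω | (ε / 2 * WW w (NN (j + 1))) ^ 2 ≤ (SS w Z (NN (j + 1)) ω) ^ 2} := by
    apply ae_eventually_notMem
    have hbd : ∀ j : ℕ, μ {ω | (ε / 2 * WW w (NN (j + 1))) ^ 2 ≤ (SS w Z (NN (j + 1)) ω) ^ 2} ≤
        ENNReal.ofReal (8 * B / ε ^ 2 * (1 / ((j : ℝ) + 1) ^ 2)) := by
      intro j
      obtain ⟨W, hW⟩ : ∃ W, W = WW w (NN (j + 1)) := ⟨_, rfl⟩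
      have hj : (0 : ℝ) < ((j : ℝ) + 1) ^ 2 := by positivity
      have hWj : ((j : ℝ) + 1) ^ 2 ≤ W := by
        have := hN1 (j + 1); push_cast at this; rw [hW]; exact this
      have hW0 : 0 < W := lt_of_lt_of_le hj hWj
      rw [← ofReal_measureReal]
      apply ENNReal.ofReal_le_ofReal
      have hint : Integrable (fun ω => (SS w Z (NN (j + 1)) ω) ^ 2) μ := by
        refine Integrable.of_bound ?_ ((WW w (NN (j + 1))) ^ 2) ?_
        · apply Measurable.aestronglyMeasurable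
          apply Measurable.pow_const
          unfold SS
          exact Finset.measurable_sum _ (fun m _ => (hZm m).const_mul _)
        · filter_upwards with ω
          have h1 := SS_diff hw hb (Nat.zero_le (NN (j + 1))) ω
          have e1 : SS w Z 0 ω = 0 := by simp [SS]
          have e2 : WW w 0 = 0 := by simp [WW]
          rw [e1, e2] at h1
          simp only [abs_zero, sub_zero, zero_add] at h1
          rw [Real.norm_eq_abs, abs_pow]
          exact pow_le_pow_left₀ (abs_nonneg _) h1 2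
      have h2 := mul_meas_ge_le_integral_of_nonneg (μ := μ) (f := fun ω => (SS w Z (NN (j + 1)) ω) ^ 2)
        (by filter_upwards with ω; positivity) hint ((ε / 2 * WW w (NN (j + 1))) ^ 2)
      have h3 := second_moment μ Z hZm hb k ℓ hℓk horth w hw B hblock (NN (j + 1))
      rw [← hW] at h2 h3 ⊢
      have h4 : (ε / 2 * W) ^ 2 * μ.real {ω | (ε / 2 * W) ^ 2 ≤ (SS w Z (NN (j + 1)) ω) ^ 2} ≤ 2 * B * W :=
        h2.trans h3
      have h5 : 0 < (ε / 2 * W) ^ 2 := by positivity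
      have h6 : μ.real {ω | (ε / 2 * W) ^ 2 ≤ (SS w Z (NN (j + 1)) ω) ^ 2} ≤ 2 * B * W / (ε / 2 * W) ^ 2 := by
        rw [le_div_iff₀ h5]; linarith
      refine h6.trans ?_
      have e : 2 * B * W / (ε / 2 * W) ^ 2 = 8 * B / ε ^ 2 * (1 / W) := by field_simp; ring
      rw [e]
      apply mul_le_mul_of_nonneg_left _ (by positivity)
      exact one_div_le_one_div_of_le hj hWj
    have hsum : Summable (fun j : ℕ => 8 * B / ε ^ 2 * (1 / ((j : ℝ) + 1) ^ 2)) := by
      apply Summable.mul_left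
      have := (summable_nat_add_iff 1).2 (Real.summable_one_div_nat_pow.2 (by norm_num : 1 < 2))
      simpa using this
    refine ne_of_lt (lt_of_le_of_lt (ENNReal.tsum_le_tsum hbd) ?_)
    exact hsum.tsum_ofReal_lt_top
  have hsmall : ∀ᶠ W : ℝ in atTop, 2 * √W + 1 ≤ ε / 2 * W := by
    filter_upwards [eventually_ge_atTop (max 1 ((6 / ε) ^ 2))] with W hW
    have hW1 : 1 ≤ W := (le_max_left _ _).trans hW
    have hW2 : (6 / ε) ^ 2 ≤ W := (le_max_right _ _).trans hW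
    have h1 : 1 ≤ √W := by rw [Real.one_le_sqrt]; exact hW1
    have h2 : 6 / ε ≤ √W := Real.le_sqrt_of_sq_le hW2
    have h3 : √W * √W = W := Real.mul_self_sqrt (by linarith)
    rw [div_le_iff₀ hε] at h2
    nlinarith
  filter_upwards [hae] with ω hω
  obtain ⟨J, hJ⟩ := eventually_atTop.1 hω
  filter_upwards [hdiv.eventually hsmall, hdiv.eventually_ge_atTop (((J : ℝ) + 1) ^ 2)] with N hN3 hN4
  set j : ℕ := ⌊√(WW w N)⌋₊ with hj
  have hW0 : 0 ≤ WW w N := WW_nonneg hw N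
  have hj1 : (j : ℝ) ≤ √(WW w N) := Nat.floor_le (Real.sqrt_nonneg _)
  have hj2 : √(WW w N) < (j : ℝ) + 1 := Nat.lt_floor_add_one _
  have hjJ : J + 1 ≤ j := by
    rw [hj]
    apply Nat.le_floor
    push_cast
    exact Real.le_sqrt_of_sq_le hN4
  have hjW : ((j : ℝ)) ^ 2 ≤ WW w N := by
    calc ((j : ℝ)) ^ 2 ≤ (√(WW w N)) ^ 2 := pow_le_pow_left₀ (Nat.cast_nonneg _) hj1 2
      _ = WW w N := Real.sq_sqrt hW0
  have hjN : NN j ≤ N := hN2 j N hjW
  obtain ⟨i, hi⟩ : ∃ i, j = i + 1 := ⟨j - 1, by omega⟩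
  have h5 := hJ i (by omega)
  rw [← hi] at h5
  simp only [Set.mem_ofPred_eq, not_le] at h5
  have h6 : |SS w Z (NN j) ω| ≤ ε / 2 * WW w (NN j) := by
    exact abs_le_of_sq_le_sq h5.le (mul_nonneg (by positivity) (WW_nonneg hw _))
  have h7 := SS_diff hw hb hjN ω
  have h8 : WW w (NN j) ≤ WW w N := WW_mono hw hjN
  have h9 : WW w N - WW w (NN j) ≤ 2 * √(WW w N) + 1 := by
    have h10 := hN1 j
    have h11 : WW w N ≤ ((j : ℝ) + 1) ^ 2 := by
      calc WW w N = (√(WW w N)) ^ 2 := (Real.sq_sqrt hW0).symm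
        _ ≤ ((j : ℝ) + 1) ^ 2 := pow_le_pow_left₀ (Real.sqrt_nonneg _) hj2.le 2
    nlinarith
  have h12 : ε / 2 * WW w (NN j) ≤ ε / 2 * WW w N := mul_le_mul_of_nonneg_left h8 (by positivity)
  linarith

end

end Pool.Agent.Helper855N
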