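import Pool.Agent.Helper855N.Asm
import Pool.Agent.Helper855N.NumB

set_option autoImplicit false

/-! The mean square of the number of primes in short intervals. -/

namespace Pool.Agent.Helper855N

open Finset Filter Topology
open Pool.Agent.helper24_UT

theorem ms : MS := by
  obtain ⟨C, X₀, h⟩ := Asm.t_SIL2 16 0
  refine ⟨C, X₀, ?_⟩
  intro X hX W hW1 hW2
  have h1 := h X hX 1 0 le_rfl (by simp) (Nat.coprime_one_right 0) W hW1 hW2
  refine le_trans (le_of_eq ?_) h1
  apply sum_congr rfl
  intro u _
  have e : ∑ n ∈ Ioc u (u + W), pdev 1 0 n =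
      ((∑ n ∈ Ioc u (u + W), (ArithmeticFunction.vonMangoldt n - 1) : ℝ) : ℂ) := by
    push_cast
    apply sum_congr rfl
    intro n _
    unfold pdev
    simp [Nat.mod_one]
  rw [e, Complex.norm_real, Real.norm_eq_abs, sq_abs]

end Pool.Agent.Helper855N
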