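import Mathlib

set_option autoImplicit false
set_option linter.unusedSectionVars false

/-! Means of prime counts in short windows, over longer intervals. -/

namespace Pool.Agent.Helper855N

open Finset

/-- `log n` on the primes -/
noncomputable def lam (n : ℕ) : ℝ := if n.Prime then Real.log n else 0

lemma lam_nonneg (n : ℕ) : 0 ≤ lam n := by
  unfold lam
  split_ifs with h
  · exact Real.log_nonneg (by exact_mod_cast h.one_lt.le)
  · exact le_rfl

lemma lam_le_log {n N : ℕ} (h : n ≤ N) (hN : 1 ≤ N) : lam n ≤ Real.log N := by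
  unfold lam
  split_ifs with h1
  · exact Real.log_le_log (by exact_mod_cast h1.pos) (by exact_mod_cast h)
  · exact Real.log_nonneg (by exact_mod_cast hN)

/-- partial sums -/
noncomputable def PS (n : ℕ) : ℝ := ∑ m ∈ Ioc 0 n, (lam m - 1)

/-- deviation in the window `(u, u + W]` -/
noncomputable def DP (W u : ℕ) : ℝ := ∑ n ∈ Ioc u (u + W), (lam n - 1)

lemma DP_eq (W u : ℕ) : DP W u = PS (u + W) - PS u := by
  unfold DP PS
  have h := Finset.sum_Ioc_consecutive (fun m => lam m - 1) (Nat.zero_le u) (Nat.le_add_right u W)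
  linarith

lemma abs_lam_sub (n N : ℕ) (h : n ≤ N) (hN : 3 ≤ N) : |lam n - 1| ≤ Real.log N := by
  have h1 := lam_nonneg n
  have h2 := lam_le_log h (by omega)
  have h3 : 1 ≤ Real.log N := by
    rw [Real.le_log_iff_exp_le (by exact_mod_cast (by omega : 0 < N))]
    have : (3 : ℝ) ≤ N := by exact_mod_cast hN
    linarith [Real.exp_one_lt_d9]
  rw [abs_le]
  constructor <;> linarith

lemma PS_diff (a s N : ℕ) (h : a + s ≤ N) (hN : 3 ≤ N) : |PS (a + s) - PS a| ≤ s * Real.log N := by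
  rw [← DP_eq]
  unfold DP
  refine (abs_sum_le_sum_abs _ _).trans ?_
  have : ∀ n ∈ Ioc a (a + s), |lam n - 1| ≤ Real.log N := by
    intro n hn
    rw [mem_Ioc] at hn
    exact abs_lam_sub n N (by omega) hN
  refine (sum_le_sum this).trans (le_of_eq ?_)
  rw [sum_const, Nat.card_Ioc, nsmul_eq_mul]
  congr 2
  omega

lemma DP_shift (W u v M N : ℕ) (h1 : u ≤ v + M) (h2 : v ≤ u + M) (h3 : u + W ≤ N) (h4 : v + W ≤ N) (hN : 3 ≤ N) :
    |DP W u| ≤ |DP W v| + 2 * M * Real.log N := by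
  have hl : 0 ≤ Real.log N := Real.log_nonneg (by exact_mod_cast (by omega : 1 ≤ N))
  have key : ∀ a b : ℕ, a ≤ b → b ≤ a + M → b + W ≤ N → |DP W a - DP W b| ≤ 2 * M * Real.log N := by
    intro a b hab hbM hbN
    obtain ⟨s, rfl⟩ := Nat.exists_eq_add_of_le hab
    have hs : (s : ℝ) ≤ M := by exact_mod_cast (by omega : s ≤ M)
    rw [DP_eq, DP_eq]
    have g1 := PS_diff a s N (by omega) hN
    have g2 := PS_diff (a + W) s N (by omega) hN
    have e : a + W + s = a + s + W := by omega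
    rw [e] at g2
    have g3 : (s : ℝ) * Real.log N ≤ M * Real.log N := mul_le_mul_of_nonneg_right hs hl
    rw [abs_le] at g1 g2 ⊢
    constructor <;> linarith [g1.1, g1.2, g2.1, g2.2]
  have h5 : |DP W u - DP W v| ≤ 2 * M * Real.log N := by
    rcases le_total u v with h | h
    · exact key u v h h2 h4
    · rw [abs_sub_comm]
      exact key v u h h1 h3
  have h6 := abs_add_le (DP W u - DP W v) (DP W v)
  rw [sub_add_cancel] at h6
  linarith

/-- the density of the primes in `(x, x + H]` -/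
noncomputable def gg (H x : ℕ) : ℝ := (∑ n ∈ Ioc x (x + H), lam n) / H

lemma gg_nonneg (H x : ℕ) : 0 ≤ gg H x := div_nonneg (sum_nonneg (fun n _ => lam_nonneg n)) (Nat.cast_nonneg _)

lemma gg_sub_one (H x : ℕ) (hH : 1 ≤ H) : gg H x - 1 = DP H x / H := by
  have hH0 : (0 : ℝ) < H := by exact_mod_cast hH
  unfold gg DP
  rw [sum_sub_distrib, sum_const, Nat.card_Ioc, nsmul_eq_mul, mul_one]
  have e : ((x + H - x : ℕ) : ℝ) = H := by
    congr 1
    omega
  rw [e]
  field_simp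

lemma gg_le (H x N : ℕ) (hH : 1 ≤ H) (h : x + H ≤ N) (hN : 1 ≤ N) : gg H x ≤ Real.log N := by
  have hH0 : (0 : ℝ) < H := by exact_mod_cast hH
  unfold gg
  rw [div_le_iff₀ hH0]
  have : ∀ n ∈ Ioc x (x + H), lam n ≤ Real.log N := by
    intro n hn
    rw [mem_Ioc] at hn
    exact lam_le_log (by omega) hN
  refine (sum_le_sum this).trans (le_of_eq ?_)
  rw [sum_const, Nat.card_Ioc, nsmul_eq_mul]
  have e : ((x + H - x : ℕ) : ℝ) = H := by
    congr 1
    omega
  rw [e]
  ring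

lemma Ioc_shift (f : ℕ → ℝ) (x H : ℕ) : ∑ n ∈ Ioc x (x + H), f n = ∑ h ∈ Ioc 0 H, f (x + h) := by
  have e : Ioc x (x + H) = (Ioc 0 H).map (addLeftEmbedding x) := by
    rw [Finset.map_add_left_Ioc, add_zero]
  rw [e, sum_map]
  rfl

lemma sum_gg (H X Y : ℕ) (hH : 1 ≤ H) :
    ∑ x ∈ Ioc X (X + Y), (gg H x - 1) = (∑ h ∈ Ioc 0 H, DP Y (X + h)) / H := by
  have e1 : ∀ x, gg H x - 1 = (∑ h ∈ Ioc 0 H, (lam (x + h) - 1)) / H := by
    intro x
    rw [gg_sub_one H x hH]
    unfold DP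
    rw [Ioc_shift (fun n => lam n - 1)]
  simp_rw [e1]
  rw [← sum_div, sum_comm]
  congr 1
  apply sum_congr rfl
  intro h _
  unfold DP
  rw [Ioc_shift (fun x => lam (x + h) - 1) X Y, Ioc_shift (fun n => lam n - 1) (X + h) Y]
  apply sum_congr rfl
  intro y _
  congr 2
  omega

/-- one interval -/
lemma cell_bound (H M X Y N : ℕ) (hH : 1 ≤ H) (hHM : H ≤ M) (hN : X + M + Y ≤ N) (hN3 : 3 ≤ N) :
    M * |∑ x ∈ Ioc X (X + Y), (gg H x - 1)| ≤ (∑ v ∈ range M, |DP Y (X + v)|) + M * (2 * M * Real.log N) := by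
  have hH0 : (0 : ℝ) < H := by exact_mod_cast hH
  have h1 : ∀ v ∈ range M, |∑ x ∈ Ioc X (X + Y), (gg H x - 1)| ≤ |DP Y (X + v)| + 2 * M * Real.log N := by
    intro v hv
    rw [mem_range] at hv
    rw [sum_gg H X Y hH, abs_div, abs_of_pos hH0, div_le_iff₀ hH0]
    have h2 : ∀ h ∈ Ioc 0 H, |DP Y (X + h)| ≤ |DP Y (X + v)| + 2 * M * Real.log N := by
      intro h hh
      rw [mem_Ioc] at hh
      exact DP_shift Y (X + h) (X + v) M N (by omega) (by omega) (by omega) (by omega) hN3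
    refine (abs_sum_le_sum_abs _ _).trans ((sum_le_sum h2).trans (le_of_eq ?_))
    rw [sum_const, Nat.card_Ioc, nsmul_eq_mul, Nat.sub_zero]
    ring
  have h3 := sum_le_sum h1
  rw [sum_const, card_range, nsmul_eq_mul, sum_add_distrib, sum_const, card_range, nsmul_eq_mul] at h3
  exact h3

lemma cells (F : ℕ → ℝ) (hF : ∀ u, 0 ≤ F u) (A : ℕ → ℕ) (M p q : ℕ) (hpq : p ≤ q)
    (hA : ∀ i, p ≤ i → i < q → A i + M ≤ A (i + 1)) :
    ∑ i ∈ Ico p q, ∑ v ∈ range M, F (A i + v) ≤ ∑ u ∈ range (A q), F u := by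
  obtain ⟨d, rfl⟩ := Nat.exists_eq_add_of_le hpq
  clear hpq
  induction d with
  | zero =>
    simp only [add_zero, Ico_self, sum_empty]
    exact sum_nonneg (fun u _ => hF u)
  | succ d ih =>
    have h1 := ih (fun i h2 h3 => hA i h2 (by omega))
    rw [← add_assoc, Finset.sum_Ico_succ_top (by omega)]
    have h2 := hA (p + d) (by omega) (by omega)
    have h3 : ∑ u ∈ range (A (p + d) + M), F u ≤ ∑ u ∈ range (A (p + d + 1)), F u :=
      sum_le_sum_of_subset_of_nonneg (range_mono h2) (fun u _ _ => hF u)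
    have h4 : ∑ u ∈ range (A (p + d) + M), F u = ∑ u ∈ range (A (p + d)), F u + ∑ v ∈ range M, F (A (p + d) + v) :=
      Finset.sum_range_add F (A (p + d)) M
    linarith

lemma all_cells (H M Y N p : ℕ) (A : ℕ → ℕ) (hH : 1 ≤ H) (hHM : H ≤ M)
    (hA : ∀ i, p ≤ i → i < 2 * p → A i + M ≤ A (i + 1)) (hN : ∀ i, p ≤ i → i < 2 * p → A i + M + Y ≤ N)
    (hN3 : 3 ≤ N) :
    M * ∑ i ∈ Ico p (2 * p), |∑ x ∈ Ioc (A i) (A i + Y), (gg H x - 1)| ≤
      (∑ u ∈ range (A (2 * p)), |DP Y u|) + p * (M * (2 * M * Real.log N)) := by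
  have h1 := cells (fun u => |DP Y u|) (fun u => abs_nonneg _) A M p (2 * p) (by omega) hA
  rw [mul_sum]
  have h2 : ∀ i ∈ Ico p (2 * p), (M : ℝ) * |∑ x ∈ Ioc (A i) (A i + Y), (gg H x - 1)| ≤
      (∑ v ∈ range M, |DP Y (A i + v)|) + M * (2 * M * Real.log N) := by
    intro i hi
    rw [mem_Ico] at hi
    exact cell_bound H M (A i) Y N hH hHM (hN i hi.1 hi.2) hN3
  refine (sum_le_sum h2).trans ?_
  rw [sum_add_distrib, sum_const, Nat.card_Ico, nsmul_eq_mul]
  have e : ((2 * p - p : ℕ) : ℝ) = p := by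
    congr 1
    omega
  rw [e]
  linarith

/-- from `Λ` to primes -/
lemma sum_DP (X W : ℕ) :
    ∑ u ∈ range X, |DP W u| ≤ (∑ u ∈ range X, |∑ n ∈ Ioc u (u + W), (ArithmeticFunction.vonMangoldt n - 1)|) +
      W * ∑ n ∈ Ioc 0 (X + W), (ArithmeticFunction.vonMangoldt n - lam n) := by
  have he : ∀ n, 0 ≤ ArithmeticFunction.vonMangoldt n - lam n := by
    intro n
    unfold lam
    split_ifs with h
    · rw [ArithmeticFunction.vonMangoldt_apply_prime h, sub_self]
    · rw [sub_zero]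
      exact ArithmeticFunction.vonMangoldt_nonneg
  have h1 : ∀ u, |DP W u| ≤ |∑ n ∈ Ioc u (u + W), (ArithmeticFunction.vonMangoldt n - 1)| +
      ∑ h ∈ Ioc 0 W, (ArithmeticFunction.vonMangoldt (u + h) - lam (u + h)) := by
    intro u
    have e : DP W u = (∑ n ∈ Ioc u (u + W), (ArithmeticFunction.vonMangoldt n - 1)) -
        ∑ n ∈ Ioc u (u + W), (ArithmeticFunction.vonMangoldt n - lam n) := by
      unfold DP
      rw [← sum_sub_distrib]
      apply sum_congr rfl
      intro n _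
      ring
    rw [← Ioc_shift (fun n => ArithmeticFunction.vonMangoldt n - lam n) u W, e]
    have h2 : 0 ≤ ∑ n ∈ Ioc u (u + W), (ArithmeticFunction.vonMangoldt n - lam n) := sum_nonneg (fun n _ => he n)
    have h3 := abs_sub (∑ n ∈ Ioc u (u + W), (ArithmeticFunction.vonMangoldt n - 1))
      (∑ n ∈ Ioc u (u + W), (ArithmeticFunction.vonMangoldt n - lam n))
    rw [abs_of_nonneg h2] at h3
    exact h3
  refine (sum_le_sum fun u _ => h1 u).trans ?_
  rw [sum_add_distrib]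
  apply add_le_add le_rfl
  rw [sum_comm]
  have h4 : ∀ h ∈ Ioc 0 W, ∑ u ∈ range X, (ArithmeticFunction.vonMangoldt (u + h) - lam (u + h)) ≤
      ∑ n ∈ Ioc 0 (X + W), (ArithmeticFunction.vonMangoldt n - lam n) := by
    intro h hh
    rw [mem_Ioc] at hh
    have e : ∑ u ∈ range X, (ArithmeticFunction.vonMangoldt (u + h) - lam (u + h)) =
        ∑ n ∈ (range X).image (fun u => u + h), (ArithmeticFunction.vonMangoldt n - lam n) := by
      rw [sum_image]
      intro a _ b _ hab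
      simp only at hab
      omega
    rw [e]
    apply sum_le_sum_of_subset_of_nonneg _ (fun n _ _ => he n)
    intro n hn
    rw [mem_image] at hn
    obtain ⟨u, hu, rfl⟩ := hn
    rw [mem_range] at hu
    rw [mem_Ioc]
    omega
  refine (sum_le_sum h4).trans (le_of_eq ?_)
  rw [sum_const, Nat.card_Ioc, nsmul_eq_mul, Nat.sub_zero]

lemma sum_err (N : ℕ) (hN : 1 ≤ N) : ∑ n ∈ Ioc 0 N, (ArithmeticFunction.vonMangoldt n - lam n) ≤
    2 * √(N : ℝ) * Real.log N := by
  have h := Chebyshev.psi_sub_theta_le (x := (N : ℝ)) (by exact_mod_cast hN)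
  refine le_trans (le_of_eq ?_) h
  unfold Chebyshev.psi Chebyshev.theta
  rw [Nat.floor_natCast, sum_sub_distrib]
  congr 1
  unfold lam
  rw [sum_filter]

end Pool.Agent.Helper855N
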