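import Pool.Agent.W123.LR.Fin
import Pool.Agent.Helper855N.NumA

set_option autoImplicit false
set_option linter.unusedSectionVars false

/-! The second moment of the number of primes in short windows. -/

namespace Pool.Agent.Helper855N

open Finset Filter Topology

open Pool.Agent.H357R2.SI (pc)

lemma pc_mono {a b c : ℕ} (h : b ≤ c) : pc a b ≤ pc a c := by
  unfold pc
  exact card_le_card (filter_subset_filter _ (Ioc_subset_Ioc le_rfl h))

lemma pc_split (x T J : ℕ) : pc x (x + J * T) ≤ ∑ j ∈ range J, pc (x + j * T) (x + j * T + T) := by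
  induction J with
  | zero => simp [pc]
  | succ J ih =>
    rw [sum_range_succ]
    have h1 : pc x (x + (J + 1) * T) ≤ pc x (x + J * T) + pc (x + J * T) (x + J * T + T) := by
      unfold pc
      have e : x + (J + 1) * T = x + J * T + T := by ring
      rw [e]
      refine le_trans (card_le_card ?_) (card_union_le _ _)
      intro n hn
      rw [mem_filter, mem_Ioc] at hn
      rw [mem_union, mem_filter, mem_filter, mem_Ioc, mem_Ioc]
      by_cases h : n ≤ x + J * T
      · exact Or.inl ⟨⟨hn.1.1, h⟩, hn.2⟩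
      · exact Or.inr ⟨⟨by omega, hn.1.2⟩, hn.2⟩
    omega

lemma gg_le_pc (H x N : ℕ) (hN : 1 ≤ N) (h : x + H ≤ N) : gg H x ≤ Real.log N * pc x (x + H) / H := by
  unfold gg
  apply div_le_div_of_nonneg_right _ (Nat.cast_nonneg _)
  have e : ∑ n ∈ Ioc x (x + H), lam n = ∑ n ∈ (Ioc x (x + H)).filter Nat.Prime, Real.log n := by
    unfold lam
    rw [sum_filter]
  rw [e]
  unfold pc
  have h1 : ∀ n ∈ (Ioc x (x + H)).filter Nat.Prime, Real.log n ≤ Real.log N := by
    intro n hn
    rw [mem_filter, mem_Ioc] at hn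
    exact Real.log_le_log (by exact_mod_cast hn.2.pos) (by exact_mod_cast (by omega : n ≤ N))
  refine (sum_le_sum h1).trans (le_of_eq ?_)
  rw [sum_const, nsmul_eq_mul]
  ring

lemma sec_num (c : ℝ) (hc : 0 < c) : ∃ C : ℝ, 0 ≤ C ∧ ∀ᶠ T : ℝ in atTop, ∀ H : ℕ, c * Real.log T ≤ H → (H : ℝ) ≤ T →
    ∑ x ∈ Ico ⌊T⌋₊ (⌊2 * T⌋₊ + 1), gg H x ^ 2 ≤ C * T := by
  obtain ⟨C, hC, u0, hmom⟩ := Pool.Agent.W123.LR.second_moment_local (1 / 2) (by norm_num)
  obtain ⟨K, hK⟩ : ∃ K : ℝ, K = 2 * (4 + 1 / c) := ⟨_, rfl⟩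
  have hc1 : 0 < 1 / c := by positivity
  have hK0 : 0 < K := by rw [hK]; positivity
  refine ⟨K ^ 2 * C * 2, by positivity, ?_⟩
  have ev4 : ∀ᶠ T : ℝ in atTop, 100 ≤ Real.log T := Real.tendsto_log_atTop.eventually_ge_atTop 100
  filter_upwards [ev4, eventually_ge_atTop ((u0 : ℝ) + 100)] with T h4 h5 H hH1 hH2
  have hu0n : (0 : ℝ) ≤ u0 := Nat.cast_nonneg _
  have hT100 : 100 ≤ T := by linarith
  have hT0 : 0 < T := by linarith
  obtain ⟨L, hL⟩ : ∃ L, L = Real.log T := ⟨_, rfl⟩
  rw [← hL] at h4 hH1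
  have hL0 : 0 < L := by linarith
  have hH0 : (0 : ℝ) < H := lt_of_lt_of_le (by positivity) hH1
  -- the small windows
  obtain ⟨D, hD⟩ : ∃ D : ℕ, D = ⌊L / 2⌋₊ := ⟨_, rfl⟩
  have hDle : (D : ℝ) ≤ L / 2 := by rw [hD]; exact Nat.floor_le (by positivity)
  have hDge : L / 2 - 1 < D := by rw [hD]; linarith [Nat.lt_floor_add_one (L / 2)]
  have hD0 : (0 : ℝ) < D := by linarith
  have hD0' : 0 < D := by exact_mod_cast hD0
  obtain ⟨J, hJ⟩ : ∃ J : ℕ, J = H / D + 1 := ⟨_, rfl⟩
  have hHJ : H ≤ J * D := by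
    rw [hJ]
    have := Nat.lt_div_mul_add (a := H) hD0'
    have e : (H / D + 1) * D = H / D * D + D := by ring
    omega
  have hJD : J * D ≤ H + D := by
    rw [hJ]
    have := Nat.div_mul_le_self H D
    have e : (H / D + 1) * D = H / D * D + D := by ring
    omega
  have hJle : (J : ℝ) ≤ H / D + 1 := by
    rw [hJ]
    push_cast
    linarith [Nat.cast_div_le (α := ℝ) (m := H) (n := D)]
  -- `2 L J ≤ K H`
  have hJK : 2 * L * J ≤ K * H := by
    have g1 : (H : ℝ) / D ≤ H / (L / 4) := div_le_div_of_nonneg_left hH0.le (by positivity) (by linarith)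
    have g2 : (H : ℝ) / (L / 4) = 4 * H / L := by field_simp
    have g3 : L ≤ 1 / c * H := by
      rw [one_div, inv_mul_eq_div, le_div_iff₀ hc]
      linarith
    have g4 : L * (4 * H / L) = 4 * H := by field_simp
    have g5 : L * (J : ℝ) ≤ L * (4 * H / L + 1) := mul_le_mul_of_nonneg_left (by linarith) hL0.le
    rw [mul_add, g4, mul_one] at g5
    rw [hK]
    linarith
  obtain ⟨X, hX⟩ : ∃ X : ℕ, ⌊T⌋₊ = X + 1 := by
    have : 1 ≤ ⌊T⌋₊ := Nat.le_floor (by push_cast; linarith)
    exact ⟨⌊T⌋₊ - 1, by omega⟩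
  have hXle : (X : ℝ) + 1 ≤ T := by
    have := Nat.floor_le hT0.le
    rw [hX] at this
    push_cast at this
    exact this
  have hXge : T - 2 < X := by
    have := Nat.lt_floor_add_one T
    rw [hX] at this
    push_cast at this
    linarith
  obtain ⟨Y, hY⟩ : ∃ Y : ℕ, ⌊2 * T⌋₊ + 1 = X + 1 + Y := by
    have : ⌊T⌋₊ ≤ ⌊2 * T⌋₊ := Nat.floor_le_floor (by linarith)
    exact ⟨⌊2 * T⌋₊ - X, by omega⟩
  have hYr : (⌊2 * T⌋₊ : ℝ) = X + Y := by
    have : ⌊2 * T⌋₊ = X + Y := by omega
    rw [this]; push_cast; rfl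
  have h2T1 : (⌊2 * T⌋₊ : ℝ) ≤ 2 * T := Nat.floor_le (by positivity)
  have h2T2 : 2 * T < (⌊2 * T⌋₊ : ℝ) + 1 := Nat.lt_floor_add_one _
  have hYle : (Y : ℝ) ≤ 2 * T := by
    have : (0 : ℝ) ≤ X := Nat.cast_nonneg _
    linarith
  have hYge : T ≤ (Y : ℝ) := by linarith
  rw [hX, hY]
  obtain ⟨N, hN⟩ : ∃ N : ℕ, N = ⌊4 * T⌋₊ := ⟨_, rfl⟩
  have hNle : (N : ℝ) ≤ 4 * T := by rw [hN]; exact Nat.floor_le (by positivity)
  have hNge : 4 * T - 1 < N := by rw [hN]; linarith [Nat.lt_floor_add_one (4 * T)]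
  have hlog4 : Real.log 4 ≤ 4 := by
    rw [Real.log_le_iff_le_exp (by norm_num)]
    linarith [Real.add_one_le_exp (4 : ℝ)]
  have hlogN : Real.log N ≤ 2 * L := by
    have g1 : Real.log N ≤ Real.log (4 * T) := Real.log_le_log (by linarith) hNle
    have g2 : Real.log (4 * T) = Real.log 4 + L := by rw [hL]; exact Real.log_mul (by norm_num) hT0.ne'
    linarith
  have hlogN0 : 0 ≤ Real.log N := Real.log_nonneg (by linarith)
  have hterm : ∀ x ∈ Ico (X + 1) (X + 1 + Y), gg H x ^ 2 ≤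
      (2 * L / H) ^ 2 * (J * ∑ j ∈ range J, (pc (x + j * D) (x + j * D + D) : ℝ) ^ 2) := by
    intro x hx
    rw [mem_Ico] at hx
    have hx2 : (x : ℝ) ≤ X + Y := by
      have : x ≤ X + Y := by omega
      exact_mod_cast this
    have hxN : x + H ≤ N := by
      have : (x : ℝ) + H < (N : ℝ) + 1 := by linarith
      have : x + H < N + 1 := by exact_mod_cast this
      omega
    have g1 := gg_le_pc H x N (by
      have : (1 : ℝ) ≤ N := by linarith
      exact_mod_cast this) hxN
    have g2 : (pc x (x + H) : ℝ) ≤ ∑ j ∈ range J, (pc (x + j * D) (x + j * D + D) : ℝ) := by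
      have := (pc_mono (a := x) (show x + H ≤ x + J * D by omega)).trans (pc_split x D J)
      exact_mod_cast this
    have g3 : gg H x ≤ 2 * L / H * ∑ j ∈ range J, (pc (x + j * D) (x + j * D + D) : ℝ) := by
      refine g1.trans ?_
      rw [mul_div_right_comm]
      apply mul_le_mul _ g2 (Nat.cast_nonneg _) (by positivity)
      exact div_le_div_of_nonneg_right hlogN hH0.le
    have g4 : (∑ j ∈ range J, (pc (x + j * D) (x + j * D + D) : ℝ)) ^ 2 ≤
        J * ∑ j ∈ range J, (pc (x + j * D) (x + j * D + D) : ℝ) ^ 2 := by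
      have := sq_sum_le_card_mul_sum_sq (s := range J) (f := fun j => (pc (x + j * D) (x + j * D + D) : ℝ))
      rw [card_range] at this
      exact this
    calc gg H x ^ 2 ≤ (2 * L / H * ∑ j ∈ range J, (pc (x + j * D) (x + j * D + D) : ℝ)) ^ 2 :=
          pow_le_pow_left₀ (gg_nonneg H x) g3 2
      _ = (2 * L / H) ^ 2 * (∑ j ∈ range J, (pc (x + j * D) (x + j * D + D) : ℝ)) ^ 2 := by ring
      _ ≤ _ := mul_le_mul_of_nonneg_left g4 (by positivity)
  refine (sum_le_sum hterm).trans ?_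
  rw [← mul_sum, ← mul_sum, sum_comm]
  have hj : ∀ j ∈ range J, ∑ x ∈ Ico (X + 1) (X + 1 + Y), (pc (x + j * D) (x + j * D + D) : ℝ) ^ 2 ≤ C * Y := by
    intro j hj
    rw [mem_range] at hj
    have hjD : j * D ≤ H := by
      have : (j + 1) * D ≤ J * D := Nat.mul_le_mul_right _ (by omega)
      have e : (j + 1) * D = j * D + D := by ring
      omega
    have hjDr : ((j * D : ℕ) : ℝ) ≤ T := le_trans (by exact_mod_cast hjD) hH2
    have g1 := hmom (X + j * D) Y D (by
        have : (3 : ℝ) ≤ (X : ℝ) := by linarith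
        have : 3 ≤ X := by exact_mod_cast this
        omega) (by
        rw [← Real.sqrt_eq_rpow, Real.sqrt_le_left (by linarith)]
        push_cast at hjDr ⊢
        nlinarith) (by
        have : (u0 : ℝ) ≤ Y := by linarith
        exact_mod_cast this) (by
        have g2 : L ≤ T := by rw [hL]; exact (Real.log_le_sub_one_of_pos hT0).trans (by linarith)
        have : (D : ℝ) ≤ Y := by linarith
        exact_mod_cast this) (by
        have g2 : Real.log (T / 2) ≤ Real.log ((X + j * D : ℕ) : ℝ) := by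
          apply Real.log_le_log (by positivity)
          push_cast
          have : (0 : ℝ) ≤ (j : ℝ) * D := by positivity
          linarith
        rw [Real.log_div hT0.ne' (by norm_num), ← hL] at g2
        have g3 : Real.log 2 ≤ 1 := by linarith [Real.log_two_lt_d9]
        linarith)
    refine le_trans (le_of_eq ?_) g1
    have e : Ico (X + j * D + 1) (X + j * D + 1 + Y) = (Ico (X + 1) (X + 1 + Y)).map (addRightEmbedding (j * D)) := by
      rw [Finset.map_add_right_Ico]
      congr 1 <;> ring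
    rw [e, sum_map]
    rfl
  have hsum := sum_le_sum hj
  rw [sum_const, card_range, nsmul_eq_mul] at hsum
  have hJ0 : (0 : ℝ) ≤ J := Nat.cast_nonneg _
  calc (2 * L / H) ^ 2 * (J * ∑ j ∈ range J, ∑ x ∈ Ico (X + 1) (X + 1 + Y),
        (pc (x + j * D) (x + j * D + D) : ℝ) ^ 2)
      ≤ (2 * L / H) ^ 2 * (J * (J * (C * Y))) := by
        apply mul_le_mul_of_nonneg_left _ (by positivity)
        exact mul_le_mul_of_nonneg_left hsum hJ0
    _ = (2 * L * J / H) ^ 2 * (C * Y) := by ring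
    _ ≤ K ^ 2 * (C * Y) := by
        apply mul_le_mul_of_nonneg_right _ (by positivity)
        apply pow_le_pow_left₀ (by positivity)
        rw [div_le_iff₀ hH0]
        exact hJK
    _ ≤ K ^ 2 * (C * (2 * T)) := by
        apply mul_le_mul_of_nonneg_left _ (by positivity)
        exact mul_le_mul_of_nonneg_left hYle (by linarith)
    _ = K ^ 2 * C * 2 * T := by ring

end Pool.Agent.Helper855N
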