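import Pool.Agent.Helper855N.L2
import Pool.Agent.Helper855N.Corr
import Pool.Agent.Helper855N.NumB
import Pool.Agent.Helper855N.Sec
import Pool.Agent.Helper855N.Fam2

set_option autoImplicit false
set_option linter.unusedSectionVars false
set_option linter.unusedVariables false

/-! The mean value of the number of primes in short windows at almost all dilates of a sequence. -/

namespace Pool.Agent.Helper855N

open MeasureTheory Filter Topology Finset

open Classical in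
/-- truncated density -/
noncomputable def gt (T : ℝ) (H x : ℕ) : ℝ := if (x : ℝ) ≤ 2 * T then gg H x else 1

lemma gt_nonneg (T : ℝ) (H x : ℕ) : 0 ≤ gt T H x := by
  unfold gt
  split_ifs
  · exact gg_nonneg H x
  · norm_num

lemma gt_le (T : ℝ) (hT : 4 ≤ T) (H x : ℕ) (hH : 1 ≤ H) (hHT : (H : ℝ) ≤ T) : gt T H x ≤ 2 + Real.log T := by
  have hl : 0 ≤ Real.log T := Real.log_nonneg (by linarith)
  unfold gt
  split_ifs with h
  · have h1 : x + H ≤ ⌊3 * T⌋₊ := by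
      apply Nat.le_floor
      push_cast
      linarith
    have h2 : 1 ≤ ⌊3 * T⌋₊ := by omega
    have h3 := gg_le H x _ hH h1 h2
    have h4 : Real.log (⌊3 * T⌋₊ : ℝ) ≤ Real.log (3 * T) :=
      Real.log_le_log (by exact_mod_cast h2) (Nat.floor_le (by positivity))
    have h5 : Real.log (3 * T) = Real.log 3 + Real.log T := Real.log_mul (by norm_num) (by linarith)
    have h6 : Real.log 3 ≤ Real.log 4 := Real.log_le_log (by norm_num) (by norm_num)
    have := log4'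
    linarith
  · linarith

lemma gt_sub (T : ℝ) (hT : 4 ≤ T) (H x : ℕ) (hH : 1 ≤ H) (hHT : (H : ℝ) ≤ T) : |gt T H x - 1| ≤ 2 + Real.log T := by
  have h1 := gt_nonneg T H x
  have h2 := gt_le T hT H x hH hHT
  have hl : 0 ≤ Real.log T := Real.log_nonneg (by linarith)
  rw [abs_le]
  constructor <;> linarith

/-- the correlation of two scales -/
lemma corr_far (hMS : MS) (σ : ℝ) (hσ0 : 0 < σ) (hσ1 : σ ≤ 1 / 3) :
    ∀ᶠ T : ℝ in atTop, ∀ H : ℕ, 1 ≤ H → (H : ℝ) ≤ T ^ (1 - 2 * σ) →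
      ∀ (f : ℕ → ℝ) (s : ℝ), 4 ≤ s → s ≤ T → (∀ x, |f x| ≤ 2 + Real.log s) → k5 s ≤ ll σ T →
      |∫ α in (1 : ℝ)..2, fX f s α * fX (fun x => gt T H x - 1) T α| ≤ 100 / Real.log T := by
  have ev1 := ev_logpow 3 100 (σ / 2) (by linarith)
  have ev4 : ∀ᶠ T : ℝ in atTop, 100 ≤ Real.log T := Real.tendsto_log_atTop.eventually_ge_atTop 100
  filter_upwards [cells_sum hMS σ hσ0 hσ1, ev1, ev4, eventually_ge_atTop (100 : ℝ)] with T h1 h2 h4 h5 H hH1 hH2 f s hs
    hsT hf hk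
  have hT0 : 0 < T := by linarith
  have hT1 : 1 ≤ T := by linarith
  have h1' := h1 H hH1 hH2
  have hHT : (H : ℝ) ≤ T := by
    refine hH2.trans ?_
    calc T ^ (1 - 2 * σ) ≤ T ^ (1 : ℝ) := Real.rpow_le_rpow_of_exponent_le hT1 (by linarith)
      _ = T := Real.rpow_one T
  obtain ⟨L, hL⟩ : ∃ L, L = Real.log T := ⟨_, rfl⟩
  obtain ⟨p, hp⟩ : ∃ p : ℕ, p = pp σ T := ⟨_, rfl⟩
  rw [← hp, ← hL] at h1'
  rw [← hL] at h2 h4
  have hL0 : 0 < L := by linarith
  have hpr : (p : ℝ) = 2 ^ (ll σ T) := by rw [hp]; unfold pp; push_cast; rfl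
  have hp1 : 1 ≤ p := by rw [hp]; unfold pp; exact Nat.one_le_two_pow
  have hp1r : (1 : ℝ) ≤ p := by exact_mod_cast hp1
  have hp0 : (0 : ℝ) < p := by linarith
  have hpT : (p : ℝ) ≤ T ^ σ := by rw [hpr]; exact two_pow_ll σ T hσ0.le hT1
  have hpT2 : T ^ σ < 2 * p := by rw [hpr]; exact lt_two_pow_ll σ T hT1
  have hls : Real.log s ≤ L := by rw [hL]; exact Real.log_le_log (by linarith) hsT
  have hls0 : 0 ≤ Real.log s := Real.log_nonneg (by linarith)
  have hg : ∀ x, |gt T H x - 1| ≤ 2 + L := fun x => by rw [hL]; exact gt_sub T (by linarith) H x hH1 hHT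
  have hf' : ∀ x, |f x| ≤ 2 + L := fun x => (hf x).trans (by linarith)
  have hb : 2 + L ≤ 2 * L := by linarith
  have hc := corr f (fun x => gt T H x - 1) s T (2 + L) (2 + L) (by linarith) hf' hg p hp1
  refine hc.trans ?_
  -- the cells
  have hcell : ∀ i ∈ Finset.Ico p (2 * p), |∫ α in ((i : ℝ) / p)..(((i : ℝ) + 1) / p), fX (fun x => gt T H x - 1) T α| ≤
      (|∑ x ∈ Finset.Ioc ⌊T * ((i : ℝ) / p)⌋₊ (⌊T * ((i : ℝ) / p)⌋₊ + ⌊T / p⌋₊), (gg H x - 1)| + 2 * (2 + L)) / T := by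
    intro i hi
    rw [Finset.mem_Ico] at hi
    have g1 : (⌊T * ((i : ℝ) / p)⌋₊ : ℝ) ≤ T * ((i : ℝ) / p) := Nat.floor_le (by positivity)
    have g2 : T * ((i : ℝ) / p) < (⌊T * ((i : ℝ) / p)⌋₊ : ℝ) + 1 := Nat.lt_floor_add_one _
    have g3 : (⌊T / p⌋₊ : ℝ) ≤ T / p := Nat.floor_le (by positivity)
    have g4 : T / p < (⌊T / p⌋₊ : ℝ) + 1 := Nat.lt_floor_add_one _
    have g5 : T * (((i : ℝ) + 1) / p) = T * ((i : ℝ) / p) + T / p := by ring
    have g6 : T * (((i : ℝ) + 1) / p) ≤ T * 2 := by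
      apply mul_le_mul_of_nonneg_left _ hT0.le
      rw [div_le_iff₀ hp0]
      exact_mod_cast hi.2
    have g7 := fX_cell (fun x => gt T H x - 1) T (2 + L) ((i : ℝ) / p) (((i : ℝ) + 1) / p) hT0 hg
      ⌊T * ((i : ℝ) / p)⌋₊ ⌊T / p⌋₊ (by
        have e : ((⌊T * ((i : ℝ) / p)⌋₊ : ℝ) + 1) / T - (i : ℝ) / p =
            ((⌊T * ((i : ℝ) / p)⌋₊ : ℝ) + 1 - T * ((i : ℝ) / p)) / T := by field_simp
        rw [e, abs_div, abs_of_pos hT0]
        apply div_le_div_of_nonneg_right _ hT0.le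
        rw [abs_le]
        constructor <;> linarith) (by
        have e : ((i : ℝ) + 1) / p - ((⌊T * ((i : ℝ) / p)⌋₊ : ℝ) + 1 + (⌊T / p⌋₊ : ℝ)) / T =
            (T * (((i : ℝ) + 1) / p) - ((⌊T * ((i : ℝ) / p)⌋₊ : ℝ) + 1 + (⌊T / p⌋₊ : ℝ))) / T := by field_simp
        rw [e, abs_div, abs_of_pos hT0, g5]
        apply div_le_div_of_nonneg_right _ hT0.le
        rw [abs_le]
        constructor <;> linarith)
    refine g7.trans (le_of_eq ?_)
    congr 3
    apply sum_congr rfl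
    intro x hx
    rw [Finset.mem_Ioc] at hx
    have g8 : (x : ℝ) ≤ (⌊T * ((i : ℝ) / p)⌋₊ : ℝ) + (⌊T / p⌋₊ : ℝ) := by exact_mod_cast hx.2
    simp only [gt]
    rw [if_pos (by linarith)]
  have hsum := sum_le_sum hcell
  rw [← sum_div, sum_add_distrib, sum_const, Nat.card_Ico, nsmul_eq_mul] at hsum
  have e1 : ((2 * p - p : ℕ) : ℝ) = p := by
    congr 1
    omega
  rw [e1] at hsum
  have hpow : T ^ (σ / 2) ≤ T ^ (1 - σ) := Real.rpow_le_rpow_of_exponent_le hT1 (by linarith)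
  have hTs : T ^ (1 - σ) * T ^ σ = T := by rw [← Real.rpow_add hT0]; norm_num
  have hpL : (p : ℝ) * (100 * L ^ 3) ≤ T := by
    calc (p : ℝ) * (100 * L ^ 3) ≤ T ^ σ * T ^ (1 - σ) := by
          apply mul_le_mul hpT (h2.trans hpow) (by positivity) (by positivity)
      _ = T := by rw [mul_comm]; exact hTs
  have hS1 : (∑ i ∈ Finset.Ico p (2 * p), |∑ x ∈ Finset.Ioc ⌊T * ((i : ℝ) / p)⌋₊
      (⌊T * ((i : ℝ) / p)⌋₊ + ⌊T / p⌋₊), (gg H x - 1)| + p * (2 * (2 + L))) / T ≤ 40 / L ^ 3 + 1 / L ^ 2 := by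
    rw [div_le_iff₀ hT0, add_mul]
    have g1 : 40 / L ^ 3 * T = 40 * T / L ^ 3 := by ring
    have g2 : (p : ℝ) * (2 * (2 + L)) ≤ 1 / L ^ 2 * T := by
      rw [one_div, inv_mul_eq_div, le_div_iff₀ (by positivity)]
      calc (p : ℝ) * (2 * (2 + L)) * L ^ 2 ≤ (p : ℝ) * (2 * (2 * L)) * L ^ 2 := by gcongr
        _ = p * (4 * L ^ 3) := by ring
        _ ≤ p * (100 * L ^ 3) := by
            apply mul_le_mul_of_nonneg_left _ hp0.le
            have : 0 ≤ L ^ 3 := by positivity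
            linarith
        _ ≤ T := hpL
    rw [g1]
    linarith
  have hA : (2 + L) * ∑ i ∈ Finset.Ico p (2 * p),
      |∫ α in ((i : ℝ) / p)..(((i : ℝ) + 1) / p), fX (fun x => gt T H x - 1) T α| ≤ 90 / L := by
    calc _ ≤ (2 * L) * (40 / L ^ 3 + 1 / L ^ 2) := by
          apply mul_le_mul hb (hsum.trans hS1) (sum_nonneg (fun i _ => abs_nonneg _)) (by positivity)
      _ = 80 / L ^ 2 + 2 / L := by field_simp; ring
      _ ≤ 80 / L + 2 / L := by
          have : 80 / L ^ 2 ≤ 80 / L := by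
            apply div_le_div_of_nonneg_left (by norm_num) hL0
            nlinarith
          linarith
      _ = 82 / L := by ring
      _ ≤ 90 / L := by apply div_le_div_of_nonneg_right (by norm_num) hL0.le
  -- the jumps
  have hkp : 2 * s ^ 5 ≤ p := by
    refine (two_pow_k5 s (by linarith)).trans ?_
    rw [hpr]
    exact pow_le_pow_right₀ (by norm_num) hk
  have hsp : (s + 1) ^ 2 ≤ p := by
    have g1 : (s + 1) ^ 2 ≤ (2 * s) ^ 2 := pow_le_pow_left₀ (by linarith) (by linarith) 2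
    have g2 : 1 ≤ s ^ 3 := one_le_pow₀ (by linarith)
    have g3 : 64 ≤ s ^ 3 := by
      calc (64 : ℝ) = 4 ^ 3 := by norm_num
        _ ≤ s ^ 3 := pow_le_pow_left₀ (by norm_num) hs 3
    have g4 : (2 * s) ^ 2 ≤ 2 * s ^ 5 := by
      have : s ^ 5 = s ^ 2 * s ^ 3 := by ring
      rw [this]
      nlinarith [sq_nonneg s]
    linarith
  have hsp2 : s + 1 ≤ √(p : ℝ) := Real.le_sqrt_of_sq_le hsp
  have hsqp : √(p : ℝ) * √(p : ℝ) = p := Real.mul_self_sqrt hp0.le
  have hsq0 : 0 < √(p : ℝ) := Real.sqrt_pos.2 hp0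
  have hj : (s + 1) / p ≤ 1 / √(p : ℝ) := by
    rw [div_le_div_iff₀ hp0 hsq0]
    nlinarith
  have hTp : T ^ (σ / 2) ≤ 2 * √(p : ℝ) := by
    have g1 : T ^ (σ / 2) * T ^ (σ / 2) = T ^ σ := by rw [← Real.rpow_add hT0]; congr 1; ring
    have g2 : T ^ (σ / 2) = √(T ^ σ) := by
      rw [← g1, Real.sqrt_mul_self (by positivity)]
    rw [g2]
    have g3 : 2 * √(p : ℝ) = √(4 * p) := by
      rw [Real.sqrt_mul (by norm_num)]
      congr 1
      rw [show (4 : ℝ) = 2 ^ 2 by norm_num, Real.sqrt_sq (by norm_num)]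
    rw [g3]
    apply Real.sqrt_le_sqrt
    linarith
  have hB : (2 + L) * (2 + L) * ((s + 1) / p) ≤ 10 / L := by
    have g1 : 100 * L ^ 3 ≤ 2 * √(p : ℝ) := h2.trans hTp
    calc (2 + L) * (2 + L) * ((s + 1) / p) ≤ (2 * L) * (2 * L) * (1 / √(p : ℝ)) := by
          apply mul_le_mul _ hj (by positivity) (by positivity)
          exact mul_le_mul hb hb (by linarith) (by linarith)
      _ = 4 * L ^ 2 / √(p : ℝ) := by ring
      _ ≤ 10 / L := by
          rw [div_le_div_iff₀ hsq0 hL0]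
          have : 4 * L ^ 2 * L = 4 * L ^ 3 := by ring
          rw [this]
          have : 0 ≤ L ^ 3 := by positivity
          linarith
  have e2 : 100 / Real.log T = 90 / L + 10 / L := by rw [← hL]; ring
  rw [e2]
  exact add_le_add hA hB

end Pool.Agent.Helper855N
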