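import Pool.Agent.Helper855N.Mean

set_option autoImplicit false
set_option linter.unusedSectionVars false
set_option linter.unusedVariables false

/-! The mean value of the number of primes in short windows at almost all dilates of a sequence: conclusion. -/

namespace Pool.Agent.Helper855N

open MeasureTheory Filter Topology Finset

lemma sum_wt_div (t : ℕ → ℝ) (hmono : Monotone t) (h3 : ∀ n, 3 ≤ t n) (b : ℝ) (hb1 : 1 ≤ b)
    (hb : ∀ n, Real.log (t (n + 1)) ≤ b * Real.log (t n)) (N : ℕ) :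
    ∑ m ∈ range N, wt t m * (1 / Real.log (t m)) ≤ b := by
  have h1 : ∀ m, wt t m * (1 / Real.log (t m)) ≤ b * (1 / Real.log (t m) - 1 / Real.log (t (m + 1))) := by
    intro m
    have g1 := log_ge_one (h3 m)
    have g2 := log_ge_one (h3 (m + 1))
    have g3 := hb m
    obtain ⟨x, hx⟩ : ∃ x, x = Real.log (t m) := ⟨_, rfl⟩
    obtain ⟨y, hy⟩ : ∃ y, y = Real.log (t (m + 1)) := ⟨_, rfl⟩
    have hxy : x ≤ y := by rw [hx, hy]; exact Real.log_le_log (by linarith [h3 m]) (hmono (Nat.le_succ m))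
    unfold wt
    rw [← hx] at g1 g3 ⊢
    rw [← hy] at g2 g3 ⊢
    have hx0 : 0 < x := by linarith
    have hy0 : 0 < y := by linarith
    have g4 : Real.log y - Real.log x ≤ y / x - 1 := by
      rw [← Real.log_div hy0.ne' hx0.ne']
      exact Real.log_le_sub_one_of_pos (by positivity)
    have g5 : (y / x - 1) * (1 / x) ≤ b * (1 / x - 1 / y) := by
      have e1 : (y / x - 1) * (1 / x) = (y - x) / (x * x) := by field_simp
      have e2 : b * (1 / x - 1 / y) = (b * (y - x)) / (x * y) := by field_simp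
      rw [e1, e2, div_le_div_iff₀ (by positivity) (by positivity)]
      have g6 : 0 ≤ (y - x) * x := mul_nonneg (by linarith) hx0.le
      calc (y - x) * (x * y) = ((y - x) * x) * y := by ring
        _ ≤ ((y - x) * x) * (b * x) := mul_le_mul_of_nonneg_left g3 g6
        _ = b * (y - x) * (x * x) := by ring
    exact (mul_le_mul_of_nonneg_right g4 (by positivity)).trans g5
  refine (sum_le_sum fun m _ => h1 m).trans ?_
  rw [← mul_sum]
  have h2 : ∑ m ∈ range N, (1 / Real.log (t m) - 1 / Real.log (t (m + 1))) =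
      1 / Real.log (t 0) - 1 / Real.log (t N) := Finset.sum_range_sub' (fun m => 1 / Real.log (t m)) N
  rw [h2]
  have g1 := log_ge_one (h3 0)
  have g2 := log_ge_one (h3 N)
  have g3 : 1 / Real.log (t 0) ≤ 1 := by rw [div_le_one (by linarith)]; exact g1
  have g4 : 0 < 1 / Real.log (t N) := by positivity
  nlinarith

/-- number of primes in `(x, x + H]` -/
noncomputable def pin (x : ℝ) (H : ℕ) : ℕ := ((Finset.Ioc ⌊x⌋₊ ⌊x + H⌋₊).filter Nat.Prime).card

lemma pin_floor (x : ℝ) (hx : 0 ≤ x) (H : ℕ) : ⌊x + H⌋₊ = ⌊x⌋₊ + H := Nat.floor_add_natCast hx H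

/-- comparison of `π(x, H) log x / H` with the mean of `log p` -/
lemma pin_gg (x ε : ℝ) (H : ℕ) (hH : 1 ≤ H) (hx : 3 ≤ x) (hHx : (H : ℝ) ≤ ε * x) (hε : 0 ≤ ε) :
    |(pin x H : ℝ) * Real.log x / H - gg H ⌊x⌋₊| ≤ ε * gg H ⌊x⌋₊ := by
  have hH0 : (0 : ℝ) < H := by exact_mod_cast hH
  have hx0 : 0 < x := by linarith
  have hl1 : 1 ≤ Real.log x := log_ge_one hx
  have hfx : (⌊x⌋₊ : ℝ) ≤ x := Nat.floor_le hx0.le
  have hfx2 : x < (⌊x⌋₊ : ℝ) + 1 := Nat.lt_floor_add_one x
  obtain ⟨S, hS⟩ : ∃ S, S = (Finset.Ioc ⌊x⌋₊ (⌊x⌋₊ + H)).filter Nat.Prime := ⟨_, rfl⟩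
  have e1 : (pin x H : ℝ) * Real.log x = ∑ n ∈ S, Real.log x := by
    unfold pin
    rw [pin_floor x hx0.le, ← hS, sum_const, nsmul_eq_mul]
  have e2 : gg H ⌊x⌋₊ = (∑ n ∈ S, Real.log n) / H := by
    unfold gg lam
    rw [hS, sum_filter]
  have h1 : ∑ n ∈ S, Real.log x ≤ ∑ n ∈ S, Real.log (n : ℝ) := by
    apply sum_le_sum
    intro n hn
    rw [hS, mem_filter, mem_Ioc] at hn
    apply Real.log_le_log hx0
    have : (⌊x⌋₊ : ℝ) + 1 ≤ n := by exact_mod_cast hn.1.1
    linarith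
  have h2 : ∑ n ∈ S, Real.log (n : ℝ) ≤ ∑ n ∈ S, (Real.log x + ε * Real.log n) := by
    apply sum_le_sum
    intro n hn
    rw [hS, mem_filter, mem_Ioc] at hn
    have g1 : (⌊x⌋₊ : ℝ) + 1 ≤ n := by exact_mod_cast hn.1.1
    have g2 : (n : ℝ) ≤ (⌊x⌋₊ : ℝ) + H := by exact_mod_cast hn.1.2
    have g3 : Real.log (n : ℝ) ≤ Real.log (x * (1 + ε)) := Real.log_le_log (by linarith) (by linarith)
    rw [Real.log_mul hx0.ne' (by linarith)] at g3
    have g4 : Real.log (1 + ε) ≤ ε := by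
      have := Real.log_le_sub_one_of_pos (show 0 < 1 + ε by linarith)
      linarith
    have g5 : 1 ≤ Real.log (n : ℝ) := log_ge_one (by linarith)
    nlinarith
  rw [sum_add_distrib, ← mul_sum] at h2
  obtain ⟨A, hA⟩ : ∃ A, A = ∑ n ∈ S, Real.log x := ⟨_, rfl⟩
  obtain ⟨B, hB⟩ : ∃ B, B = ∑ n ∈ S, Real.log (n : ℝ) := ⟨_, rfl⟩
  rw [e1, e2, ← hA, ← hB]
  rw [← hA, ← hB] at h1 h2
  rw [← sub_div, abs_div, abs_of_pos hH0, ← mul_div_assoc]
  apply div_le_div_of_nonneg_right _ hH0.le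
  rw [abs_le]
  constructor
  · linarith
  · have : 0 ≤ B := by rw [hB]; exact sum_nonneg (fun n _ => Real.log_natCast_nonneg n)
    nlinarith [mul_nonneg hε this]

theorem mean_one (hMS : MS) (κ c : ℝ) (hκ : 0 < κ) (hκ1 : κ < 1) (hc : 0 < c) (t : ℕ → ℝ) (hmono : Monotone t)
    (h3 : ∀ n, 3 ≤ t n) (htop : Tendsto t atTop atTop)
    (β : ℝ) (hβ : ∀ n, t (n + 1) ≤ t n ^ β) (H : ℕ → ℕ)
    (hH : ∀ᶠ n in atTop, c * Real.log (t n) ≤ H n ∧ (H n : ℝ) ≤ t n ^ (1 - κ)) (r : ℝ) (hr : 0 < r) :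
    ∀ᵐ α ∂mu, ∀ ε : ℝ, 0 < ε → ∀ᶠ N in atTop,
      |(∑ n ∈ range N, wt t n * ((pin (r * α * t n) (H n) : ℝ) * Real.log (r * α * t n) / H n)) -
        WW (wt t) N| ≤ ε * WW (wt t) N := by
  obtain ⟨T, hT⟩ : ∃ T : ℕ → ℝ, T = TT t r := ⟨_, rfl⟩
  have hT4 : ∀ n, 4 ≤ T n := fun n => by rw [hT]; exact le_max_left _ _
  have hTr : ∀ n, r * t n ≤ T n := fun n => by rw [hT]; exact le_max_right _ _
  have htr : Tendsto (fun n => r * t n) atTop atTop := htop.const_mul_atTop hr
  have hTtop : Tendsto T atTop atTop := tendsto_atTop_mono hTr htr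
  have hTmono : Monotone T := by
    rw [hT]
    intro a b hab
    exact max_le_max le_rfl (mul_le_mul_of_nonneg_left (hmono hab) hr.le)
  obtain ⟨D, hD⟩ : ∃ D : ℝ, D = 2 + |Real.log r| := ⟨_, rfl⟩
  have hD2 : 2 ≤ D := by rw [hD]; linarith [abs_nonneg (Real.log r)]
  have hTlog1 : ∀ n, Real.log (T n) ≤ D * Real.log (t n) := fun n => by
    rw [hT, hD]; exact (TT_log t h3 r hr n).1
  have hTlog2 : ∀ n, Real.log (t n) ≤ D * Real.log (T n) := fun n => by
    rw [hT, hD]; exact (TT_log t h3 r hr n).2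
  obtain ⟨σ, hσ⟩ : ∃ σ : ℝ, σ = κ / 4 := ⟨_, rfl⟩
  have hσ0 : 0 < σ := by rw [hσ]; linarith
  have hσ1 : σ ≤ 1 / 3 := by rw [hσ]; linarith
  -- the conditions on the lengths
  have hHT : ∀ᶠ n in atTop, c / D * Real.log (T n) ≤ H n ∧ (H n : ℝ) ≤ T n ^ (1 - 2 * σ) := by
    have h1 : ∀ᶠ n in atTop, (1 / r) ^ (1 - κ) ≤ (T n) ^ (κ / 2) :=
      ((tendsto_rpow_atTop (by linarith : 0 < κ / 2)).comp hTtop).eventually_ge_atTop _
    filter_upwards [h1, hH] with n hn hHn
    obtain ⟨g1, g2⟩ := hHn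
    have hT0 : 0 < T n := by linarith [hT4 n]
    constructor
    · refine le_trans ?_ g1
      rw [div_mul_eq_mul_div, div_le_iff₀ (by linarith)]
      have := mul_le_mul_of_nonneg_left (hTlog1 n) hc.le
      linarith
    · refine g2.trans ?_
      have g3 : t n ≤ 1 / r * T n := by
        rw [one_div, inv_mul_eq_div, le_div_iff₀ hr]
        linarith [hTr n]
      have g4 : t n ^ (1 - κ) ≤ (1 / r * T n) ^ (1 - κ) :=
        Real.rpow_le_rpow (by linarith [h3 n]) g3 (by linarith)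
      rw [Real.mul_rpow (by positivity) hT0.le] at g4
      refine g4.trans ((mul_le_mul_of_nonneg_right hn (by positivity)).trans (le_of_eq ?_))
      rw [← Real.rpow_add hT0]
      congr 1
      rw [hσ]; ring
  obtain ⟨C, hC0, hsec⟩ := sec_num (c / D) (by positivity)
  have hallev := (hTtop.eventually (corr_far hMS σ hσ0 hσ1)).and ((hTtop.eventually hsec).and hHT)
  obtain ⟨n₀, hn₀⟩ := eventually_atTop.1 hallev
  have hHle : ∀ n, n₀ ≤ n → 1 ≤ H n ∧ (H n : ℝ) ≤ T n := by
    intro n hn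
    obtain ⟨-, -, g1, g2⟩ := hn₀ n hn
    have hT1 : 1 ≤ T n := by linarith [hT4 n]
    constructor
    · have g3 : 0 < Real.log (T n) := Real.log_pos (by linarith [hT4 n])
      have g4 : (0 : ℝ) < H n := lt_of_lt_of_le (by positivity) g1
      have : 0 < H n := by exact_mod_cast g4
      omega
    · refine g2.trans ?_
      calc T n ^ (1 - 2 * σ) ≤ T n ^ (1 : ℝ) := Real.rpow_le_rpow_of_exponent_le hT1 (by linarith)
        _ = T n := Real.rpow_one _
  obtain ⟨G, hG⟩ : ∃ G : ℕ → ℕ → ℝ, G = fun n x => if n < n₀ then 1 else gt (T n) (H n) x := ⟨_, rfl⟩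
  have hG1 : ∀ n, n < n₀ → ∀ x, G n x = 1 := fun n hn x => by rw [hG]; exact if_pos hn
  have hG2 : ∀ n, n₀ ≤ n → G n = gt (T n) (H n) := fun n hn => by
    funext x
    rw [hG]
    exact if_neg (by omega)
  have hG0 : ∀ n x, 0 ≤ G n x := by
    intro n x
    rcases lt_or_ge n n₀ with h | h
    · rw [hG1 n h]; norm_num
    · rw [hG2 n h]; exact gt_nonneg _ _ _
  have hlT : ∀ n, 0 ≤ Real.log (T n) := fun n => Real.log_nonneg (by linarith [hT4 n])
  have hGb : ∀ n x, |G n x - 1| ≤ 2 + Real.log (T n) := by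
    intro n x
    rcases lt_or_ge n n₀ with h | h
    · rw [hG1 n h, sub_self, abs_zero]; linarith [hlT n]
    · rw [hG2 n h]; exact gt_sub _ (hT4 n) _ _ (hHle n h).1 (hHle n h).2
  obtain ⟨b, hb⟩ : ∃ b : ℝ, b = max 1 β := ⟨_, rfl⟩
  have hb1 : 1 ≤ b := by rw [hb]; exact le_max_left _ _
  have hbt : ∀ n, Real.log (t (n + 1)) ≤ b * Real.log (t n) := by
    intro n
    have h10 : Real.log (t (n + 1)) ≤ Real.log (t n ^ β) :=
      Real.log_le_log (by linarith [h3 (n + 1)]) (hβ n)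
    rw [Real.log_rpow (by linarith [h3 n])] at h10
    have h11 : β ≤ b := by rw [hb]; exact le_max_right _ _
    have := log_ge_one (h3 n)
    nlinarith
  obtain ⟨B, hB⟩ := block5 t T hmono h3 β hβ hT4 D (by linarith) hTlog1 hTlog2 σ hσ0 (by linarith)
  have hll : Tendsto (fun N => Real.log (Real.log (t N))) atTop atTop :=
    Real.tendsto_log_atTop.comp (Real.tendsto_log_atTop.comp htop)
  have hWW : Tendsto (WW (wt t)) atTop atTop := by
    have e : WW (wt t) = fun N => Real.log (Real.log (t N)) + (- Real.log (Real.log (t 0))) := by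
      funext N
      rw [WW_wt]; ring
    rw [e]
    exact tendsto_atTop_add_const_right _ _ hll
  have hlln : ∀ ε : ℝ, 0 < ε → ε ≤ 1 → ∀ᵐ α ∂mu, ∀ᶠ N in atTop,
      |SS (wt t) (fun n => fX (G n) (T n)) N α - WW (wt t) N| ≤ ε * WW (wt t) N := by
    intro ε hε hε1
    apply lln2 mu (fun n => fX (G n) (T n)) (fun n => fX_meas _ _) (fun n α => hG0 n _)
      (fun n => 2 + Real.log (T n)) (fun n α => hGb n _) (C + 1) (by linarith) ?_
      (fun n => k5 (T n)) (fun n => ll σ (T n)) (fun n => ll_lt_k5 σ _ hσ0.le (by linarith) (by linarith [hT4 n]))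
      (fun n => 100 / Real.log (T n)) (fun n => div_nonneg (by norm_num) (hlT n)) ?_ (wt t)
      (wt_nonneg t hmono h3) B (100 * D * b) hB ?_ (by positivity) hWW ε hε hε1
    · intro n
      rcases lt_or_ge n n₀ with h | h
      · have e : ∀ α, fX (G n) (T n) α - 1 = 0 := fun α => by unfold fX; rw [hG1 n h, sub_self]
        simp_rw [e]
        simp
        linarith
      · obtain ⟨-, g1, g2⟩ := hn₀ n h
        apply sec (G n) (T n) (3 + Real.log (T n)) (by linarith [hT4 n]) (hG0 n)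
        · intro x
          have := (abs_le.1 (hGb n x)).2
          linarith
        · refine le_trans (le_of_eq ?_) (g1 (H n) g2.1 (hHle n h).2)
          apply sum_congr rfl
          intro x hx
          rw [mem_Ico] at hx
          rw [hG2 n h]
          unfold gt
          rw [if_pos]
          have g3 : x ≤ ⌊2 * T n⌋₊ := by omega
          have g4 : (x : ℝ) ≤ (⌊2 * T n⌋₊ : ℝ) := by exact_mod_cast g3
          exact g4.trans (Nat.floor_le (by linarith [hT4 n]))
    · intro n m hnm hk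
      have hd0 : 0 ≤ 100 / Real.log (T m) := div_nonneg (by norm_num) (hlT m)
      rcases lt_or_ge n n₀ with h | h
      · have e : ∀ α, (fX (G n) (T n) α - 1) * (fX (G m) (T m) α - 1) = 0 := fun α => by
          have : fX (G n) (T n) α - 1 = 0 := by unfold fX; rw [hG1 n h, sub_self]
          rw [this, zero_mul]
        simp_rw [e]
        simpa using hd0
      · have hm : n₀ ≤ m := by omega
        obtain ⟨g1, -, g2⟩ := hn₀ m hm
        have g3 := g1 (H m) (hHle m hm).1 g2.2 (fun x => G n x - 1) (T n) (hT4 n) (hTmono hnm.le)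
          (fun x => hGb n x) hk
        rw [mu_int]
        refine (le_abs_self _).trans (le_trans (le_of_eq ?_) g3)
        congr 1
        apply intervalIntegral.integral_congr
        intro α _
        simp only [fX, hG2 m hm]
    · intro N
      have g1 := sum_wt_div t hmono h3 b hb1 hbt N
      have g2 : ∀ m ∈ range N, wt t m * (100 / Real.log (T m)) ≤ 100 * D * (wt t m * (1 / Real.log (t m))) := by
        intro m _
        have g3 := log_ge_one (h3 m)
        have g4 : 1 ≤ Real.log (T m) := log_ge_one (by linarith [hT4 m])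
        have g5 : 100 / Real.log (T m) ≤ 100 * D * (1 / Real.log (t m)) := by
          rw [mul_one_div, div_le_div_iff₀ (by linarith) (by linarith)]
          have := hTlog2 m
          linarith
        calc wt t m * (100 / Real.log (T m)) ≤ wt t m * (100 * D * (1 / Real.log (t m))) :=
              mul_le_mul_of_nonneg_left g5 (wt_nonneg t hmono h3 m)
          _ = _ := by ring
      refine (sum_le_sum g2).trans ?_
      rw [← mul_sum]
      exact mul_le_mul_of_nonneg_left g1 (by positivity)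
  have hlln2 : ∀ᵐ α ∂mu, ∀ j : ℕ, ∀ᶠ N in atTop,
      |SS (wt t) (fun n => fX (G n) (T n)) N α - WW (wt t) N| ≤ 1 / ((j : ℝ) + 1) * WW (wt t) N := by
    rw [ae_all_iff]
    intro j
    apply hlln _ (by positivity)
    rw [div_le_one (by positivity)]
    linarith [show (0 : ℝ) ≤ j from Nat.cast_nonneg j]
  have hIco : ∀ᵐ α ∂mu, α ∈ Set.Ico (1 : ℝ) 2 := by
    unfold mu
    exact ae_restrict_mem measurableSet_Ico
  filter_upwards [hlln2, hIco] with α hα hα1 ε hε
  -- comparison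
  obtain ⟨δ, hδ⟩ : ∃ δ : ℝ, δ = min 1 (ε / 8) := ⟨_, rfl⟩
  have hδ0 : 0 < δ := by rw [hδ]; exact lt_min one_pos (by linarith)
  have hδ1 : δ ≤ 1 := by rw [hδ]; exact min_le_left _ _
  have hδε : δ ≤ ε / 8 := by rw [hδ]; exact min_le_right _ _
  obtain ⟨j, hj⟩ := exists_nat_one_div_lt hδ0
  obtain ⟨V, hV⟩ : ∃ V : ℕ → ℝ, V = fun n => (pin (r * α * t n) (H n) : ℝ) * Real.log (r * α * t n) / H n :=
    ⟨_, rfl⟩
  have hcomp : ∀ᶠ n in atTop, |V n - fX (G n) (T n) α| ≤ δ * fX (G n) (T n) α := by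
    have h1 : ∀ᶠ n in atTop, 1 / δ ≤ (T n) ^ (2 * σ) :=
      ((tendsto_rpow_atTop (by linarith : 0 < 2 * σ)).comp hTtop).eventually_ge_atTop _
    filter_upwards [h1, htr.eventually_ge_atTop 4, eventually_ge_atTop n₀] with n g1 g2 g3
    have hTn : T n = r * t n := by rw [hT]; exact max_eq_right g2
    have hT0 : 0 < T n := by linarith [hT4 n]
    obtain ⟨-, -, g4, g5⟩ := hn₀ n g3
    have e1 : r * α * t n = T n * α := by rw [hTn]; ring
    have hTα : T n ≤ T n * α := by nlinarith [hα1.1]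
    have hTα2 : T n * α ≤ 2 * T n := by nlinarith [hα1.2]
    have e2 : fX (G n) (T n) α = gg (H n) ⌊T n * α⌋₊ := by
      unfold fX
      rw [hG2 n g3]
      unfold gt
      rw [if_pos]
      exact (Nat.floor_le (by linarith)).trans hTα2
    have e3 : V n = (pin (T n * α) (H n) : ℝ) * Real.log (T n * α) / H n := by rw [hV, ← e1]
    rw [e2, e3]
    apply pin_gg _ _ _ (hHle n g3).1 (by linarith [hT4 n]) _ hδ0.le
    refine g5.trans ?_
    have g6 : T n ^ (1 - 2 * σ) * T n ^ (2 * σ) = T n := by rw [← Real.rpow_add hT0]; norm_num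
    have g7 : 1 ≤ δ * T n ^ (2 * σ) := by
      rw [div_le_iff₀ hδ0] at g1
      linarith
    have g8 : 0 ≤ T n ^ (1 - 2 * σ) := by positivity
    calc T n ^ (1 - 2 * σ) ≤ T n ^ (1 - 2 * σ) * (δ * T n ^ (2 * σ)) := le_mul_of_one_le_right g8 g7
      _ = δ * (T n ^ (1 - 2 * σ) * T n ^ (2 * σ)) := by ring
      _ = δ * T n := by rw [g6]
      _ ≤ δ * (T n * α) := mul_le_mul_of_nonneg_left hTα hδ0.le
  obtain ⟨n₁, hn₁⟩ := eventually_atTop.1 hcomp
  obtain ⟨K, hK⟩ : ∃ K : ℝ, K = ∑ n ∈ range n₁, wt t n * |V n - fX (G n) (T n) α| := ⟨_, rfl⟩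
  have hev : ∀ᶠ W : ℝ in atTop, K ≤ ε / 8 * W := by
    filter_upwards [eventually_ge_atTop (K / (ε / 8))] with W hW
    rw [div_le_iff₀ (by positivity)] at hW
    linarith
  filter_upwards [hα j, hWW.eventually hev, hWW.eventually_ge_atTop 0, eventually_ge_atTop n₁] with N h1 h2 h4 h5
  have hw := wt_nonneg t hmono h3
  obtain ⟨W, hW⟩ : ∃ W, W = WW (wt t) N := ⟨_, rfl⟩
  obtain ⟨S, hS⟩ : ∃ S, S = SS (wt t) (fun n => fX (G n) (T n)) N α := ⟨_, rfl⟩
  rw [← hW] at h1 h2 h4 ⊢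
  rw [← hS] at h1
  have e4 : ∑ n ∈ range N, wt t n * ((pin (r * α * t n) (H n) : ℝ) * Real.log (r * α * t n) / H n) =
      ∑ n ∈ range N, wt t n * V n := by rw [hV]
  rw [e4]
  have h6 : |(∑ n ∈ range N, wt t n * V n) - S| ≤ K + δ * S := by
    have e5 : (∑ n ∈ range N, wt t n * V n) - S = ∑ n ∈ range N, wt t n * (V n - fX (G n) (T n) α) := by
      rw [hS]
      unfold SS
      rw [← sum_sub_distrib]
      apply sum_congr rfl
      intro n _
      ring
    rw [e5]
    refine (abs_sum_le_sum_abs _ _).trans ?_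
    have h7 : ∑ n ∈ range N, |wt t n * (V n - fX (G n) (T n) α)| =
        (∑ n ∈ range n₁, wt t n * |V n - fX (G n) (T n) α|) +
          ∑ n ∈ Finset.Ico n₁ N, wt t n * |V n - fX (G n) (T n) α| := by
      rw [Finset.sum_range_add_sum_Ico _ h5]
      apply sum_congr rfl
      intro n _
      rw [abs_mul, abs_of_nonneg (hw n)]
    rw [h7, ← hK]
    apply add_le_add le_rfl
    have h8 : ∀ n ∈ Finset.Ico n₁ N, wt t n * |V n - fX (G n) (T n) α| ≤ δ * (wt t n * fX (G n) (T n) α) := by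
      intro n hn
      rw [Finset.mem_Ico] at hn
      have := mul_le_mul_of_nonneg_left (hn₁ n hn.1) (hw n)
      linarith
    refine (sum_le_sum h8).trans ?_
    rw [← mul_sum]
    apply mul_le_mul_of_nonneg_left _ hδ0.le
    rw [hS]
    unfold SS
    apply sum_le_sum_of_subset_of_nonneg
    · intro n hn
      rw [Finset.mem_Ico] at hn
      rw [Finset.mem_range]
      exact hn.2
    · intro n _ _
      exact mul_nonneg (hw n) (hG0 n _)
  have h9 : |S - W| ≤ δ * W := h1.trans (mul_le_mul_of_nonneg_right hj.le h4)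
  have h10 : S ≤ 2 * W := by
    have := (abs_le.1 h9).2
    nlinarith
  have h11 : δ * S ≤ ε / 8 * (2 * W) := by
    calc δ * S ≤ δ * (2 * W) := mul_le_mul_of_nonneg_left h10 hδ0.le
      _ ≤ ε / 8 * (2 * W) := mul_le_mul_of_nonneg_right hδε (by linarith)
  have h12 : δ * W ≤ ε / 8 * W := mul_le_mul_of_nonneg_right hδε h4
  have h13 := abs_add_le ((∑ n ∈ range N, wt t n * V n) - S) (S - W)
  rw [sub_add_sub_cancel] at h13
  have h14 : 0 ≤ ε * W := by positivity
  linarith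

end Pool.Agent.Helper855N
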