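import Pool.Agent.Helper855N.MeanB

set_option autoImplicit false
set_option linter.unusedSectionVars false
set_option linter.unusedVariables false

/-! The mean value of the number of primes in short windows at almost all dilates: real lengths. -/

namespace Pool.Agent.Helper855N

open MeasureTheory Filter Topology Finset

lemma squeeze_sum (w U V R : ℕ → ℝ) (hw : ∀ n, 0 ≤ w n) (hdiv : Tendsto (WW w) atTop atTop) (δ : ℝ) (hδ : 0 < δ)
    (hδ1 : δ ≤ 1) (hR : ∀ᶠ n in atTop, (1 - δ) * U n ≤ R n ∧ R n ≤ (1 + δ) * V n)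
    (hU : ∀ᶠ N in atTop, |(∑ n ∈ range N, w n * U n) - WW w N| ≤ δ * WW w N)
    (hV : ∀ᶠ N in atTop, |(∑ n ∈ range N, w n * V n) - WW w N| ≤ δ * WW w N) :
    ∀ᶠ N in atTop, |(∑ n ∈ range N, w n * R n) - WW w N| ≤ 4 * δ * WW w N := by
  obtain ⟨m, hm⟩ := eventually_atTop.1 hR
  obtain ⟨a, ha⟩ : ∃ a, a = ∑ n ∈ range m, w n * U n := ⟨_, rfl⟩
  obtain ⟨b, hb⟩ : ∃ b, b = ∑ n ∈ range m, w n * V n := ⟨_, rfl⟩
  obtain ⟨c, hc⟩ : ∃ c, c = ∑ n ∈ range m, w n * R n := ⟨_, rfl⟩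
  have hK : ∀ᶠ W : ℝ in atTop, |a| + 2 * |b| + |c| ≤ δ * W := by
    filter_upwards [eventually_ge_atTop ((|a| + 2 * |b| + |c|) / δ)] with W hW
    rw [div_le_iff₀ hδ] at hW
    linarith
  filter_upwards [hU, hV, hdiv.eventually hK, hdiv.eventually_ge_atTop 0, eventually_ge_atTop m] with N h1 h2 h3 h4 h5
  obtain ⟨W, hW⟩ : ∃ W, W = WW w N := ⟨_, rfl⟩
  rw [← hW] at h1 h2 h3 h4 ⊢
  have eU := Finset.sum_range_add_sum_Ico (fun n => w n * U n) h5
  have eV := Finset.sum_range_add_sum_Ico (fun n => w n * V n) h5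
  have eR := Finset.sum_range_add_sum_Ico (fun n => w n * R n) h5
  rw [← ha] at eU
  rw [← hb] at eV
  rw [← hc] at eR
  have g1 : (1 - δ) * ∑ n ∈ Finset.Ico m N, w n * U n ≤ ∑ n ∈ Finset.Ico m N, w n * R n := by
    rw [mul_sum]
    apply sum_le_sum
    intro n hn
    rw [Finset.mem_Ico] at hn
    have := mul_le_mul_of_nonneg_left (hm n hn.1).1 (hw n)
    linarith
  have g2 : ∑ n ∈ Finset.Ico m N, w n * R n ≤ (1 + δ) * ∑ n ∈ Finset.Ico m N, w n * V n := by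
    rw [mul_sum]
    apply sum_le_sum
    intro n hn
    rw [Finset.mem_Ico] at hn
    have := mul_le_mul_of_nonneg_left (hm n hn.1).2 (hw n)
    linarith
  obtain ⟨SU, hSU⟩ : ∃ SU, SU = ∑ n ∈ Finset.Ico m N, w n * U n := ⟨_, rfl⟩
  obtain ⟨SV, hSV⟩ : ∃ SV, SV = ∑ n ∈ Finset.Ico m N, w n * V n := ⟨_, rfl⟩
  obtain ⟨SR, hSR⟩ : ∃ SR, SR = ∑ n ∈ Finset.Ico m N, w n * R n := ⟨_, rfl⟩
  rw [← hSU] at eU g1
  rw [← hSV] at eV g2
  rw [← hSR] at eR g1 g2
  rw [← eU] at h1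
  rw [← eV] at h2
  rw [← eR]
  rw [abs_le] at h1 h2 ⊢
  have a1 := abs_nonneg a
  have a2 := abs_nonneg b
  have a3 := abs_nonneg c
  have b1 := le_abs_self a
  have b2 := neg_abs_le b
  have b3 := le_abs_self c
  have b4 := neg_abs_le c
  have hU2 : (1 - δ) * W - |a| ≤ SU := by linarith [h1.1]
  have hV2 : SV ≤ (1 + δ) * W + |b| := by linarith [h2.2]
  constructor
  · have g3 : (1 - δ) * ((1 - δ) * W - |a|) ≤ (1 - δ) * SU := mul_le_mul_of_nonneg_left hU2 (by linarith)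
    have g4 : 0 ≤ δ * |a| := by positivity
    have g5 : 0 ≤ δ ^ 2 * W := by positivity
    nlinarith
  · have g3 : (1 + δ) * SV ≤ (1 + δ) * ((1 + δ) * W + |b|) := mul_le_mul_of_nonneg_left hV2 (by linarith)
    have g4 : δ * |b| ≤ 1 * |b| := mul_le_mul_of_nonneg_right hδ1 a2
    have g5 : δ ^ 2 * W ≤ δ * W := by
      have : δ ^ 2 ≤ δ := by nlinarith
      exact mul_le_mul_of_nonneg_right this h4
    nlinarith

/-- number of primes in `(x, x + H]` -/
noncomputable def pinR (x H : ℝ) : ℕ := ((Finset.Ioc ⌊x⌋₊ ⌊x + H⌋₊).filter Nat.Prime).card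

lemma pinR_lower (x H : ℝ) (hx : 0 ≤ x) (hH : 0 ≤ H) : pin x ⌊H⌋₊ ≤ pinR x H := by
  unfold pin pinR
  apply card_le_card (filter_subset_filter _ (Ioc_subset_Ioc le_rfl _))
  exact Nat.floor_le_floor (by linarith [Nat.floor_le hH])

lemma pinR_upper (x H : ℝ) (hx : 0 ≤ x) (hH : 0 ≤ H) : pinR x H ≤ pin x (⌊H⌋₊ + 1) := by
  unfold pin pinR
  apply card_le_card (filter_subset_filter _ (Ioc_subset_Ioc le_rfl _))
  apply Nat.floor_le_floor
  push_cast
  linarith [Nat.lt_floor_add_one H]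

theorem mean_real (hMS : MS) (κ c : ℝ) (hκ : 0 < κ) (hκ1 : κ < 1) (hc : 0 < c) (t : ℕ → ℝ) (hmono : Monotone t)
    (h3 : ∀ n, 3 ≤ t n) (htop : Tendsto t atTop atTop)
    (β : ℝ) (hβ : ∀ n, t (n + 1) ≤ t n ^ β) (H : ℕ → ℝ)
    (hH : ∀ᶠ n in atTop, c * Real.log (t n) ≤ H n ∧ H n ≤ t n ^ (1 - κ)) (r : ℝ) (hr : 0 < r) :
    ∀ᵐ α ∂mu, ∀ ε : ℝ, 0 < ε → ∀ᶠ N in atTop,
      |(∑ n ∈ range N, wt t n * ((pinR (r * α * t n) (H n) : ℝ) * Real.log (r * α * t n) / H n)) -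
        WW (wt t) N| ≤ ε * WW (wt t) N := by
  have hlog : Tendsto (fun n => Real.log (t n)) atTop atTop := Real.tendsto_log_atTop.comp htop
  have hcl : Tendsto (fun n => c * Real.log (t n)) atTop atTop := hlog.const_mul_atTop hc
  have hll : Tendsto (fun N => Real.log (Real.log (t N))) atTop atTop := Real.tendsto_log_atTop.comp hlog
  have hWW : Tendsto (WW (wt t)) atTop atTop := by
    have e : WW (wt t) = fun N => Real.log (Real.log (t N)) + (- Real.log (Real.log (t 0))) := by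
      funext N
      rw [WW_wt]; ring
    rw [e]
    exact tendsto_atTop_add_const_right _ _ hll
  have hpow : ∀ᶠ n in atTop, 2 ≤ (t n) ^ (κ / 2) :=
    ((tendsto_rpow_atTop (by linarith : 0 < κ / 2)).comp htop).eventually_ge_atTop _
  have hA : ∀ᶠ n in atTop, c / 2 * Real.log (t n) ≤ (⌊H n⌋₊ : ℝ) ∧ (⌊H n⌋₊ : ℝ) ≤ t n ^ (1 - κ / 2) := by
    filter_upwards [hH, hpow, hcl.eventually_ge_atTop 2] with n h1 h2 h4
    have ht0 : 0 < t n := by linarith [h3 n]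
    have g1 := Nat.lt_floor_add_one (H n)
    have g2 := Nat.floor_le (show 0 ≤ H n by linarith)
    constructor
    · linarith [h1.1]
    · refine g2.trans (h1.2.trans ?_)
      exact Real.rpow_le_rpow_of_exponent_le (by linarith [h3 n]) (by linarith)
  have hA2 : ∀ᶠ n in atTop, c / 2 * Real.log (t n) ≤ ((⌊H n⌋₊ + 1 : ℕ) : ℝ) ∧
      ((⌊H n⌋₊ + 1 : ℕ) : ℝ) ≤ t n ^ (1 - κ / 2) := by
    filter_upwards [hH, hpow, hcl.eventually_ge_atTop 2] with n h1 h2 h4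
    have ht0 : 0 < t n := by linarith [h3 n]
    have g1 := Nat.lt_floor_add_one (H n)
    have g2 := Nat.floor_le (show 0 ≤ H n by linarith)
    push_cast
    constructor
    · linarith [h1.1]
    · have g3 : H n * 2 ≤ t n ^ (1 - κ) * t n ^ (κ / 2) :=
        mul_le_mul h1.2 h2 (by norm_num) (by positivity)
      have g4 : t n ^ (1 - κ) * t n ^ (κ / 2) = t n ^ (1 - κ / 2) := by
        rw [← Real.rpow_add ht0]; congr 1; ring
      rw [g4] at g3
      linarith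
  have hm1 := mean_one hMS (κ / 2) (c / 2) (by linarith) (by linarith) (by linarith) t hmono h3 htop β hβ
    (fun n => ⌊H n⌋₊) hA r hr
  have hm2 := mean_one hMS (κ / 2) (c / 2) (by linarith) (by linarith) (by linarith) t hmono h3 htop β hβ
    (fun n => ⌊H n⌋₊ + 1) hA2 r hr
  have hIco : ∀ᵐ α ∂mu, α ∈ Set.Ico (1 : ℝ) 2 := by
    unfold mu
    exact ae_restrict_mem measurableSet_Ico
  filter_upwards [hm1, hm2, hIco] with α h1 h2 hα ε hε
  obtain ⟨δ, hδ⟩ : ∃ δ : ℝ, δ = min 1 (ε / 4) := ⟨_, rfl⟩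
  have hδ0 : 0 < δ := by rw [hδ]; exact lt_min one_pos (by linarith)
  have hδ1 : δ ≤ 1 := by rw [hδ]; exact min_le_left _ _
  have hδε : δ ≤ ε / 4 := by rw [hδ]; exact min_le_right _ _
  have hs := squeeze_sum (wt t) (fun n => (pin (r * α * t n) ⌊H n⌋₊ : ℝ) * Real.log (r * α * t n) / (⌊H n⌋₊ : ℝ))
    (fun n => (pin (r * α * t n) (⌊H n⌋₊ + 1) : ℝ) * Real.log (r * α * t n) / ((⌊H n⌋₊ + 1 : ℕ) : ℝ))
    (fun n => (pinR (r * α * t n) (H n) : ℝ) * Real.log (r * α * t n) / H n)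
    (wt_nonneg t hmono h3) hWW δ hδ0 hδ1 ?_ (h1 δ hδ0) (h2 δ hδ0)
  · filter_upwards [hs, hWW.eventually_ge_atTop 0] with N g1 g2
    refine g1.trans ?_
    apply mul_le_mul_of_nonneg_right _ g2
    linarith
  · have htr : Tendsto (fun n => r * t n) atTop atTop := htop.const_mul_atTop hr
    filter_upwards [hH, hcl.eventually_ge_atTop (2 + 1 / δ), htr.eventually_ge_atTop 4] with n g1 g2 g3
    have hi : 0 < 1 / δ := by positivity
    have hx : 1 ≤ r * α * t n := by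
      have e : r * α * t n = α * (r * t n) := by ring
      rw [e]
      nlinarith [hα.1]
    have hlx : 0 ≤ Real.log (r * α * t n) := Real.log_nonneg hx
    have hH1 : 2 + 1 / δ ≤ H n := by linarith [g1.1]
    have hH0 : 0 < H n := by linarith
    have f1 := Nat.lt_floor_add_one (H n)
    have f2 := Nat.floor_le hH0.le
    have f3 : 0 < (⌊H n⌋₊ : ℝ) := by linarith
    have hδH : 1 ≤ δ * H n := by
      have : δ * (1 / δ) ≤ δ * H n := mul_le_mul_of_nonneg_left (by linarith) hδ0.le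
      have e : δ * (1 / δ) = 1 := by field_simp
      linarith
    constructor
    · -- lower
      have f4 : (pin (r * α * t n) ⌊H n⌋₊ : ℝ) ≤ pinR (r * α * t n) (H n) := by
        exact_mod_cast pinR_lower _ _ (by linarith) hH0.le
      have f5 : (1 - δ) / (⌊H n⌋₊ : ℝ) ≤ 1 / H n := by
        rw [div_le_div_iff₀ f3 hH0]
        linarith
      have f6 : 0 ≤ (pin (r * α * t n) ⌊H n⌋₊ : ℝ) * Real.log (r * α * t n) := mul_nonneg (Nat.cast_nonneg _) hlx
      calc (1 - δ) * ((pin (r * α * t n) ⌊H n⌋₊ : ℝ) * Real.log (r * α * t n) / (⌊H n⌋₊ : ℝ))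
          = ((pin (r * α * t n) ⌊H n⌋₊ : ℝ) * Real.log (r * α * t n)) * ((1 - δ) / (⌊H n⌋₊ : ℝ)) := by ring
        _ ≤ ((pin (r * α * t n) ⌊H n⌋₊ : ℝ) * Real.log (r * α * t n)) * (1 / H n) :=
            mul_le_mul_of_nonneg_left f5 f6
        _ ≤ ((pinR (r * α * t n) (H n) : ℝ) * Real.log (r * α * t n)) * (1 / H n) := by
            apply mul_le_mul_of_nonneg_right _ (by positivity)
            exact mul_le_mul_of_nonneg_right f4 hlx
        _ = _ := by ring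
    · have f4 : (pinR (r * α * t n) (H n) : ℝ) ≤ pin (r * α * t n) (⌊H n⌋₊ + 1) := by
        exact_mod_cast pinR_upper _ _ (by linarith) hH0.le
      have f3' : 0 < ((⌊H n⌋₊ + 1 : ℕ) : ℝ) := by push_cast; linarith
      have f5 : 1 / H n ≤ (1 + δ) / ((⌊H n⌋₊ + 1 : ℕ) : ℝ) := by
        rw [div_le_div_iff₀ hH0 f3']
        push_cast
        linarith
      have f6 : 0 ≤ (pin (r * α * t n) (⌊H n⌋₊ + 1) : ℝ) * Real.log (r * α * t n) :=
        mul_nonneg (Nat.cast_nonneg _) hlx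
      calc (pinR (r * α * t n) (H n) : ℝ) * Real.log (r * α * t n) / H n
          = ((pinR (r * α * t n) (H n) : ℝ) * Real.log (r * α * t n)) * (1 / H n) := by ring
        _ ≤ ((pin (r * α * t n) (⌊H n⌋₊ + 1) : ℝ) * Real.log (r * α * t n)) * (1 / H n) := by
            apply mul_le_mul_of_nonneg_right _ (by positivity)
            exact mul_le_mul_of_nonneg_right f4 hlx
        _ ≤ ((pin (r * α * t n) (⌊H n⌋₊ + 1) : ℝ) * Real.log (r * α * t n)) *
              ((1 + δ) / ((⌊H n⌋₊ + 1 : ℕ) : ℝ)) := mul_le_mul_of_nonneg_left f5 f6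
        _ = _ := by ring

theorem mean_all (hMS : MS) (κ c : ℝ) (hκ : 0 < κ) (hκ1 : κ < 1) (hc : 0 < c) (t : ℕ → ℝ) (hmono : Monotone t)
    (h3 : ∀ n, 3 ≤ t n) (htop : Tendsto t atTop atTop)
    (β : ℝ) (hβ : ∀ n, t (n + 1) ≤ t n ^ β) (H : ℕ → ℝ)
    (hH : ∀ᶠ n in atTop, c * Real.log (t n) ≤ H n ∧ H n ≤ t n ^ (1 - κ)) :
    ∀ᵐ α : ℝ, 0 < α → Tendsto (fun N => (∑ n ∈ range N, wt t n *
      ((pinR (α * t n) (H n) : ℝ) * Real.log (α * t n) / H n)) / Real.log (Real.log (t N))) atTop (𝓝 1) := by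
  apply ae_scale
  intro j
  have hlog : Tendsto (fun n => Real.log (t n)) atTop atTop := Real.tendsto_log_atTop.comp htop
  have hll : Tendsto (fun N => Real.log (Real.log (t N))) atTop atTop := Real.tendsto_log_atTop.comp hlog
  filter_upwards [mean_real hMS κ c hκ hκ1 hc t hmono h3 htop β hβ H hH ((2 : ℝ) ^ j) (by positivity)] with v hv
  rw [Metric.tendsto_atTop']
  intro ε hε
  obtain ⟨L₀, hL₀⟩ : ∃ L₀, L₀ = Real.log (Real.log (t 0)) := ⟨_, rfl⟩
  have hL0 : 0 ≤ L₀ := by rw [hL₀]; exact Real.log_nonneg (log_ge_one (h3 0))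
  have h1 := hv (ε / 2) (by positivity)
  have h2 : ∀ᶠ L : ℝ in atTop, L₀ < ε / 2 * L ∧ 0 < L := by
    filter_upwards [eventually_gt_atTop (L₀ / (ε / 2)), eventually_gt_atTop 0] with L hL hL'
    rw [div_lt_iff₀ (by positivity)] at hL
    exact ⟨by linarith, hL'⟩
  have h4 := h1.and (hll.eventually h2)
  obtain ⟨N₀, hN₀⟩ := eventually_atTop.1 h4
  refine ⟨N₀, fun N hN => ?_⟩
  obtain ⟨g1, g2, g3⟩ := hN₀ N hN.le
  rw [WW_wt, ← hL₀] at g1
  obtain ⟨L, hL⟩ : ∃ L, L = Real.log (Real.log (t N)) := ⟨_, rfl⟩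
  rw [← hL] at g1 g2 g3 ⊢
  obtain ⟨S, hS⟩ : ∃ S, S = ∑ n ∈ range N, wt t n *
      ((pinR ((2 : ℝ) ^ j * v * t n) (H n) : ℝ) * Real.log ((2 : ℝ) ^ j * v * t n) / H n) := ⟨_, rfl⟩
  rw [← hS] at g1 ⊢
  rw [Real.dist_eq]
  have e : S / L - 1 = (S - L) / L := by field_simp
  rw [e, abs_div, abs_of_pos g3, div_lt_iff₀ g3]
  rw [abs_le] at g1
  rw [abs_lt]
  constructor <;> nlinarith [g1.1, g1.2, mul_nonneg hε.le hL0]

end Pool.Agent.Helper855N
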