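import Pool.Agent.Results.MP_31d0eb_nt.FewBadScales
import Pool.Agent.Helper855N.Fam2

set_option autoImplicit false

/-! Few bad scales: the input of the metric theorem. -/

namespace Pool.Agent.Helper855N

open Finset Filter Topology
open Pool.Agent.Results.MP_31d0eb_nt.FewBadScales (ConstantDensity badScales ShortIntervals)

open Classical in
lemma bad_mono (c₁ c₂ δ : ℝ) (n Y Y' : ℕ) (h : Y ≤ Y') : badScales c₁ c₂ δ Y n ≤ badScales c₁ c₂ δ Y' n := by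
  unfold Pool.Agent.Results.MP_31d0eb_nt.FewBadScales.badScales
  apply card_le_card
  intro j hj
  rw [mem_filter, mem_range] at hj ⊢
  exact ⟨lt_of_lt_of_le hj.1 (Nat.succ_le_succ (Nat.log_mono_right h)), hj.2⟩

/-- at most `K` bad scales up to `n ^ θ` -/
def FewB (c₁ c₂ δ θ : ℝ) (K M₀ n : ℕ) : Prop := M₀ ≤ n ∧ badScales c₁ c₂ δ ⌊(n : ℝ) ^ θ⌋₊ n ≤ K

lemma short_mono (θ θ' : ℝ) (h : θ ≤ θ') (hS : ShortIntervals θ) : ShortIntervals θ' := by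
  obtain ⟨c, hc, X₀, hX₀, hS⟩ := hS
  refine ⟨c, hc, X₀, hX₀, fun X Y hX hY hYX => hS X Y hX (le_trans ?_ hY) hYX⟩
  apply Real.rpow_le_rpow_of_exponent_le _ h
  have : 1 ≤ X := by omega
  exact_mod_cast this

/-- comparison of the two exponents -/
lemma exp_cmp (θ θ' : ℝ) (h0 : 0 < θ) (h1 : θ < 1) (h : θ < θ') : ∀ᶠ X : ℕ in atTop, ∀ Y : ℕ,
    (X : ℝ) ^ θ' ≤ Y → Y ≤ X → ∀ n ∈ Ioc X (X + Y), ⌊(n : ℝ) ^ θ⌋₊ ≤ Y := by
  have hσ : 0 < θ' - θ := by linarith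
  have h := ((tendsto_rpow_atTop hσ).comp (tendsto_natCast_atTop_atTop (R := ℝ))).eventually_ge_atTop 2
  filter_upwards [h, eventually_ge_atTop 1] with X hX hX1 Y hY hYX n hn
  have hX1' : (1 : ℝ) ≤ X := by exact_mod_cast hX1
  have hX0 : (0 : ℝ) < X := by linarith
  rw [mem_Ioc] at hn
  have hn2 : (n : ℝ) ≤ 2 * X := by
    have : n ≤ 2 * X := by omega
    exact_mod_cast this
  simp only [Function.comp_apply] at hX
  have h2 : (n : ℝ) ^ θ ≤ Y := by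
    calc (n : ℝ) ^ θ ≤ (2 * X) ^ θ := Real.rpow_le_rpow (Nat.cast_nonneg _) hn2 h0.le
      _ = 2 ^ θ * (X : ℝ) ^ θ := Real.mul_rpow (by norm_num) hX0.le
      _ ≤ 2 ^ (1 : ℝ) * (X : ℝ) ^ θ :=
          mul_le_mul_of_nonneg_right (Real.rpow_le_rpow_of_exponent_le (by norm_num) h1.le) (by positivity)
      _ = 2 * (X : ℝ) ^ θ := by rw [Real.rpow_one]
      _ ≤ (X : ℝ) ^ (θ' - θ) * (X : ℝ) ^ θ := mul_le_mul_of_nonneg_right hX (by positivity)
      _ = (X : ℝ) ^ θ' := by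
          rw [← Real.rpow_add hX0]
          congr 1
          ring
      _ ≤ Y := hY
  calc ⌊(n : ℝ) ^ θ⌋₊ ≤ ⌊(Y : ℝ)⌋₊ := Nat.floor_le_floor h2
    _ = Y := Nat.floor_natCast Y

open Classical in
/-- almost all integers -/
lemma few_all (θ θ' : ℝ) (h0 : 0 < θ) (h1 : θ < 1) (h : θ < θ') (h' : θ' ≤ 1) (η : ℝ) (hη : 0 < η) :
    ∃ Λ : ℝ, ∀ δ : ℝ, 0 < δ → ∃ K : ℕ, Dense (FewB 0 Λ δ θ K 0) θ' (1 - η) := by
  obtain ⟨Λ, hΛ⟩ := Pool.Agent.Results.MP_31d0eb_nt.FewBadScales.result.1 θ' (by linarith) h' η hη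
  refine ⟨Λ, fun δ hδ => ?_⟩
  obtain ⟨K, hK⟩ := hΛ δ hδ
  refine ⟨K, ?_⟩
  unfold Dense
  filter_upwards [hK, exp_cmp θ θ' h0 h1 h] with X hX hc Y hY hYX
  have h2 := hX Y hY hYX
  have h3 := hc Y hY hYX
  have h4 : ((Ioc X (X + Y)).filter (fun n : ℕ => ¬ badScales 0 Λ δ ⌊(n : ℝ) ^ θ⌋₊ n ≤ K)).card ≤
      ((Ioc X (X + Y)).filter (fun n => K < badScales 0 Λ δ Y n)).card := by
    apply card_le_card
    intro n hn
    rw [mem_filter] at hn ⊢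
    refine ⟨hn.1, ?_⟩
    have := bad_mono 0 Λ δ n _ _ (h3 n hn.1)
    omega
  have h5 := card_filter_add_card_filter_not (s := Ioc X (X + Y))
    (fun n : ℕ => badScales 0 Λ δ ⌊(n : ℝ) ^ θ⌋₊ n ≤ K)
  rw [Nat.card_Ioc, Nat.add_sub_cancel_left] at h5
  have h6 : (Y : ℝ) = ((Ioc X (X + Y)).filter (fun n : ℕ => badScales 0 Λ δ ⌊(n : ℝ) ^ θ⌋₊ n ≤ K)).card +
      ((Ioc X (X + Y)).filter (fun n : ℕ => ¬ badScales 0 Λ δ ⌊(n : ℝ) ^ θ⌋₊ n ≤ K)).card := by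
    exact_mod_cast h5.symm
  have h7 : (((Ioc X (X + Y)).filter (fun n : ℕ => ¬ badScales 0 Λ δ ⌊(n : ℝ) ^ θ⌋₊ n ≤ K)).card : ℝ) ≤ η * Y :=
    le_trans (by exact_mod_cast h4) h2
  have h8 : ((Ioc X (X + Y)).filter (fun n : ℕ => badScales 0 Λ δ ⌊(n : ℝ) ^ θ⌋₊ n ≤ K)).card ≤
      ((Finset.Ioc X (X + Y)).filter (FewB 0 Λ δ θ K 0)).card := by
    apply card_le_card
    intro n hn
    rw [mem_filter] at hn ⊢
    exact ⟨hn.1, Nat.zero_le _, hn.2⟩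
  have h9 : (((Ioc X (X + Y)).filter (fun n : ℕ => badScales 0 Λ δ ⌊(n : ℝ) ^ θ⌋₊ n ≤ K)).card : ℝ) ≤
      ((Finset.Ioc X (X + Y)).filter (FewB 0 Λ δ θ K 0)).card := by exact_mod_cast h8
  linarith

open Classical in
/-- a positive proportion, with densities bounded from below -/
lemma few_pos (θ : ℝ) (h0 : 0 < θ) (h1 : θ < 1) : ∃ θ' c₁ c₂ κ : ℝ, 0 < θ' ∧ θ' < 1 ∧ 0 < c₁ ∧ 0 < c₂ ∧ 0 < κ ∧
    ∀ δ : ℝ, 0 < δ → ∃ K : ℕ, ∀ M₀ : ℕ, Dense (FewB c₁ c₂ δ θ K M₀) θ' κ := by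
  obtain ⟨θ₀, h2, h3, hS⟩ := Pool.Agent.H932R4.MO.exists_short
  obtain ⟨θ', hθ'⟩ : ∃ θ' : ℝ, θ' = max θ₀ ((1 + θ) / 2) := ⟨_, rfl⟩
  have h4 : θ₀ ≤ θ' := by rw [hθ']; exact le_max_left _ _
  have h5 : (1 + θ) / 2 ≤ θ' := by rw [hθ']; exact le_max_right _ _
  have h6 : θ' < 1 := by rw [hθ']; exact max_lt h3 (by linarith)
  have h7 : 0 < θ' := by linarith
  have hS' : ShortIntervals θ₀ := hS
  obtain ⟨c₁, c₂, κ, hc₁, hc₂, hκ, hpos⟩ := Pool.Agent.Results.MP_31d0eb_nt.FewBadScales.result.2.2 θ' h7 h6.le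
    (short_mono θ₀ θ' h4 hS')
  refine ⟨θ', c₁, c₂, κ, h7, h6, hc₁, hc₂, hκ, fun δ hδ => ?_⟩
  obtain ⟨K, hK⟩ := hpos δ hδ
  refine ⟨K, fun M₀ => ?_⟩
  unfold Dense
  filter_upwards [hK, exp_cmp θ θ' h0 h1 (by linarith), eventually_ge_atTop (M₀ + 1)] with X hX hc hXM Y hY hYX
  have hc' := hc Y hY hYX
  refine (hX Y hY hYX).trans ?_
  apply Nat.cast_le.2
  apply card_le_card
  intro n hn
  rw [mem_filter] at hn ⊢
  refine ⟨hn.1, ?_, (bad_mono c₁ c₂ δ n _ _ (hc' n hn.1)).trans hn.2⟩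
  have := (mem_Ioc.1 hn.1).1
  omega

/-- the number of primes `p` with `x < p ≤ x + H` -/
noncomputable def primesAfter (x H : ℝ) : ℕ := ((Finset.Ioc ⌊x⌋₊ ⌊x + H⌋₊).filter Nat.Prime).card

open Classical in
/-- among `K + 1` consecutive scales there is a good one -/
lemma good_scale (c₁ c₂ δ : ℝ) (Y n K J : ℕ) (hb : badScales c₁ c₂ δ Y n ≤ K)
    (h1 : Real.log n ≤ (2 : ℝ) ^ J) (h2 : 2 ^ (J + K) ≤ Y) :
    ∃ j : ℕ, J ≤ j ∧ j ≤ J + K ∧ ConstantDensity c₁ c₂ δ n (2 ^ j) := by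
  by_contra hcon
  push Not at hcon
  have h3 : (Icc J (J + K)).card ≤ badScales c₁ c₂ δ Y n := by
    unfold Pool.Agent.Results.MP_31d0eb_nt.FewBadScales.badScales
    apply card_le_card
    intro j hj
    rw [mem_Icc] at hj
    rw [mem_filter, mem_range]
    refine ⟨?_, ?_, hcon j hj.1 hj.2⟩
    · apply Nat.lt_succ_of_le
      apply Nat.le_log_of_pow_le (by norm_num)
      exact (Nat.pow_le_pow_right (by norm_num) hj.2).trans h2
    · exact h1.trans (pow_le_pow_right₀ (by norm_num) hj.1)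
  rw [Nat.card_Icc] at h3
  omega

/-- few bad scales imply the right order of magnitude at all scales -/
lemma order (θ : ℝ) (h0 : 0 < θ) (h1 : θ < 1) (c₁ c₂ : ℝ) (hc₁ : 0 < c₁) (hc₂ : 0 < c₂) (K : ℕ) :
    ∃ M₀ : ℕ, ∀ x : ℝ, 0 < x → M₀ ≤ ⌊x⌋₊ →
      badScales c₁ c₂ (c₁ / 2) ⌊((⌊x⌋₊ : ℕ) : ℝ) ^ ((1 + θ) / 2)⌋₊ ⌊x⌋₊ ≤ K →
      ∀ H : ℝ, 2 ^ (K + 1) * Real.log x ≤ H → H ≤ x ^ θ →
        c₁ / 2 ^ (K + 2) * (H / Real.log x) ≤ primesAfter x H ∧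
        (primesAfter x H : ℝ) ≤ (c₁ + c₂) * 2 ^ (K + 3) * (H / Real.log x) := by
  have hσ : 0 < (1 - θ) / 2 := by linarith
  have ev := ((tendsto_rpow_atTop hσ).comp (tendsto_natCast_atTop_atTop (R := ℝ))).eventually_ge_atTop
    ((2 : ℝ) ^ (K + 4))
  obtain ⟨M₁, hM₁⟩ := eventually_atTop.1 ev
  refine ⟨max M₁ 3, fun x hx0 hxM hb H hH1 hH2 => ?_⟩
  obtain ⟨m, hm⟩ : ∃ m : ℕ, m = ⌊x⌋₊ := ⟨_, rfl⟩
  rw [← hm] at hxM hb
  have hmM : M₁ ≤ m := (le_max_left _ _).trans hxM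
  have hm3 : 3 ≤ m := (le_max_right _ _).trans hxM
  have hm3r : (3 : ℝ) ≤ m := by exact_mod_cast hm3
  have hmx : (m : ℝ) ≤ x := by rw [hm]; exact Nat.floor_le hx0.le
  have hxm : x < (m : ℝ) + 1 := by rw [hm]; exact Nat.lt_floor_add_one x
  have hlm : 1 ≤ Real.log m := log_ge_one hm3r
  have hlx : Real.log m ≤ Real.log x := Real.log_le_log (by linarith) hmx
  have hlx2 : Real.log x ≤ 2 * Real.log m := by
    have h3 : Real.log x ≤ Real.log ((m : ℝ) ^ 2) := by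
      apply Real.log_le_log hx0
      nlinarith
    rw [Real.log_pow] at h3
    push_cast at h3
    exact h3
  have hbig := hM₁ m hmM
  simp only [Function.comp_apply] at hbig
  -- the exponent of H
  have hK1 : (1 : ℝ) ≤ 2 ^ (K + 1) := one_le_pow₀ (by norm_num)
  have hH0 : 1 ≤ H := by nlinarith
  obtain ⟨J, hJ⟩ : ∃ J : ℕ, J = Nat.log 2 ⌊H⌋₊ := ⟨_, rfl⟩
  have hHf : ⌊H⌋₊ ≠ 0 := by
    have : 1 ≤ ⌊H⌋₊ := Nat.le_floor (by exact_mod_cast hH0)
    omega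
  have hJ1 : (2 : ℝ) ^ J ≤ H := by
    have h3 : 2 ^ J ≤ ⌊H⌋₊ := by rw [hJ]; exact Nat.pow_log_le_self 2 hHf
    have h4 : ((2 ^ J : ℕ) : ℝ) ≤ (⌊H⌋₊ : ℝ) := by exact_mod_cast h3
    push_cast at h4
    exact h4.trans (Nat.floor_le (by linarith))
  have hJ2 : H < 2 ^ (J + 1) := by
    have h3 : ⌊H⌋₊ < 2 ^ (J + 1) := by rw [hJ]; exact Nat.lt_pow_succ_log_self (by norm_num) _
    have h4 := Nat.lt_of_floor_lt h3
    push_cast at h4
    exact h4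
  have hJK : K + 1 ≤ J := by
    by_contra hcon
    have h3 : J + 1 ≤ K + 1 := by omega
    have h4 : (2 : ℝ) ^ (J + 1) ≤ 2 ^ (K + 1) := pow_le_pow_right₀ (by norm_num) h3
    nlinarith
  -- the size of Y
  obtain ⟨Y, hY⟩ : ∃ Y : ℕ, Y = ⌊(m : ℝ) ^ ((1 + θ) / 2)⌋₊ := ⟨_, rfl⟩
  rw [← hY] at hb
  have hm0 : (0 : ℝ) < m := by linarith
  have hxθ : x ^ θ ≤ 2 * (m : ℝ) ^ θ := by
    calc x ^ θ ≤ (2 * m) ^ θ := Real.rpow_le_rpow hx0.le (by linarith) h0.le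
      _ = 2 ^ θ * (m : ℝ) ^ θ := Real.mul_rpow (by norm_num) hm0.le
      _ ≤ 2 ^ (1 : ℝ) * (m : ℝ) ^ θ :=
          mul_le_mul_of_nonneg_right (Real.rpow_le_rpow_of_exponent_le (by norm_num) h1.le) (by positivity)
      _ = 2 * (m : ℝ) ^ θ := by rw [Real.rpow_one]
  have hYr : (2 : ℝ) ^ (J + K + 2) ≤ (m : ℝ) ^ ((1 + θ) / 2) := by
    calc (2 : ℝ) ^ (J + K + 2) = 2 ^ J * 2 ^ (K + 2) := by rw [add_assoc, pow_add]
      _ ≤ (2 * (m : ℝ) ^ θ) * 2 ^ (K + 2) := by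
          apply mul_le_mul_of_nonneg_right _ (by positivity)
          linarith
      _ = (m : ℝ) ^ θ * 2 ^ (K + 3) := by ring
      _ ≤ (m : ℝ) ^ θ * 2 ^ (K + 4) :=
          mul_le_mul_of_nonneg_left (pow_le_pow_right₀ (by norm_num) (by omega)) (by positivity)
      _ ≤ (m : ℝ) ^ θ * (m : ℝ) ^ ((1 - θ) / 2) := mul_le_mul_of_nonneg_left hbig (by positivity)
      _ = (m : ℝ) ^ ((1 + θ) / 2) := by
          rw [← Real.rpow_add hm0]
          congr 1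
          ring
  have hYn : 2 ^ (J + K + 2) ≤ Y := by
    rw [hY]
    apply Nat.le_floor
    push_cast
    exact hYr
  have hlogx0 : 0 < Real.log x := by linarith
  have hlogm0 : 0 < Real.log m := by linarith
  constructor
  · -- lower bound
    obtain ⟨j, hj1, hj2, lam, hl1, hl2, hl3⟩ := good_scale c₁ c₂ (c₁ / 2) Y m K (J - K) hb (by
      have h3 : (2 : ℝ) ^ (J + 1) = 2 ^ (J - K) * 2 ^ (K + 1) := by
        rw [← pow_add]; congr 1; omega
      have h4 : 2 ^ (K + 1) * Real.log x < 2 ^ (J - K) * 2 ^ (K + 1) := by rw [← h3]; linarith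
      have h5 : Real.log x < 2 ^ (J - K) := by
        have hp : (0 : ℝ) < 2 ^ (K + 1) := by positivity
        nlinarith
      linarith) ((Nat.pow_le_pow_right (by norm_num) (by omega)).trans hYn)
    have h3 := hl3 m (m + 2 ^ j) (Nat.le_add_right _ _) (Nat.le_add_right _ _) le_rfl
    have hsub : ((Ioc m (m + 2 ^ j)).filter Nat.Prime).card ≤ primesAfter x H := by
      unfold primesAfter
      rw [← hm]
      apply card_le_card
      apply filter_subset_filter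
      apply Ioc_subset_Ioc_right
      apply Nat.le_floor
      push_cast
      have h4 : (2 : ℝ) ^ j ≤ 2 ^ J := pow_le_pow_right₀ (by norm_num) (by omega)
      linarith
    have hsubr : (((Ioc m (m + 2 ^ j)).filter Nat.Prime).card : ℝ) ≤ primesAfter x H := by exact_mod_cast hsub
    push_cast at h3
    rw [add_sub_cancel_left] at h3
    have h5 := (abs_le.1 h3).1
    have h6 : lam * 2 ^ j / Real.log m - c₁ / 2 * 2 ^ j / Real.log m ≤ primesAfter x H := by linarith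
    refine le_trans ?_ h6
    have h7 : c₁ / 2 * 2 ^ j / Real.log m ≤ lam * 2 ^ j / Real.log m - c₁ / 2 * 2 ^ j / Real.log m := by
      rw [← sub_div, div_le_div_iff_of_pos_right hlogm0]
      have : (0 : ℝ) < 2 ^ j := by positivity
      nlinarith
    refine le_trans ?_ h7
    have h8 : H ≤ 2 ^ j * 2 ^ (K + 1) := by
      rw [← pow_add]
      refine hJ2.le.trans (pow_le_pow_right₀ (by norm_num) (by omega))
    have h9 : c₁ / 2 ^ (K + 2) * (H / Real.log x) = c₁ / 2 * (H / 2 ^ (K + 1)) / Real.log x := by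
      have : (2 : ℝ) ^ (K + 2) = 2 * 2 ^ (K + 1) := by rw [pow_succ]; ring
      rw [this]
      field_simp
    rw [h9]
    have hp : (0 : ℝ) < 2 ^ (K + 1) := by positivity
    have h10 : H / 2 ^ (K + 1) ≤ 2 ^ j := by rw [div_le_iff₀ hp]; exact h8
    apply div_le_div₀ (by positivity) _ hlogm0 hlx
    exact mul_le_mul_of_nonneg_left h10 (by positivity)
  · -- upper bound
    obtain ⟨j, hj1, hj2, lam, hl1, hl2, hl3⟩ := good_scale c₁ c₂ (c₁ / 2) Y m K (J + 2) hb (by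
      have h3 : 2 ^ (K + 1) * Real.log x < 2 ^ (J + 1) := by linarith
      have h4 : (2 : ℝ) ^ (J + 1) ≤ 2 ^ (J + 2) := pow_le_pow_right₀ (by norm_num) (by omega)
      nlinarith) (by
        refine le_trans (le_of_eq ?_) hYn
        congr 1
        ring)
    have h3 := hl3 m (m + 2 ^ j) (Nat.le_add_right _ _) (Nat.le_add_right _ _) le_rfl
    have hsub : primesAfter x H ≤ ((Ioc m (m + 2 ^ j)).filter Nat.Prime).card := by
      unfold primesAfter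
      rw [← hm]
      apply card_le_card
      apply filter_subset_filter
      apply Ioc_subset_Ioc_right
      have h4 : x + H < ((m + 2 ^ j : ℕ) : ℝ) + 1 := by
        push_cast
        have h5 : (2 : ℝ) ^ (J + 1) ≤ 2 ^ j := pow_le_pow_right₀ (by norm_num) (by omega)
        linarith
      have h5 : ⌊x + H⌋₊ < m + 2 ^ j + 1 := by
        rw [Nat.floor_lt (by linarith)]
        push_cast at h4 ⊢
        exact h4
      omega
    have hsubr : (primesAfter x H : ℝ) ≤ ((Ioc m (m + 2 ^ j)).filter Nat.Prime).card := by exact_mod_cast hsub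
    push_cast at h3
    rw [add_sub_cancel_left] at h3
    have h5 := (abs_le.1 h3).2
    have h6 : (primesAfter x H : ℝ) ≤ lam * 2 ^ j / Real.log m + c₁ / 2 * 2 ^ j / Real.log m := by linarith
    refine h6.trans ?_
    rw [← add_div]
    have h7 : lam * 2 ^ j + c₁ / 2 * 2 ^ j ≤ (c₁ + c₂) * 2 ^ j := by
      have : (0 : ℝ) < 2 ^ j := by positivity
      nlinarith
    have h8 : (2 : ℝ) ^ j ≤ 2 ^ (K + 2) * H := by
      calc (2 : ℝ) ^ j ≤ 2 ^ (K + 2 + J) := pow_le_pow_right₀ (by norm_num) (by omega)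
        _ = 2 ^ (K + 2) * 2 ^ J := pow_add _ _ _
        _ ≤ 2 ^ (K + 2) * H := mul_le_mul_of_nonneg_left hJ1 (by positivity)
    rw [div_le_iff₀ hlogm0]
    have h9 : (c₁ + c₂) * 2 ^ (K + 3) * (H / Real.log x) * Real.log m =
        (c₁ + c₂) * (2 ^ (K + 2) * H) * (2 * Real.log m / Real.log x) := by
      rw [pow_succ 2 (K + 2)]
      ring
    rw [h9]
    have h10 : 1 ≤ 2 * Real.log m / Real.log x := by rw [le_div_iff₀ hlogx0]; linarith
    have h11 : (c₁ + c₂) * 2 ^ j ≤ (c₁ + c₂) * (2 ^ (K + 2) * H) :=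
      mul_le_mul_of_nonneg_left h8 (by linarith)
    have h12 : 0 ≤ (c₁ + c₂) * (2 ^ (K + 2) * H) := by positivity
    calc lam * 2 ^ j + c₁ / 2 * 2 ^ j ≤ (c₁ + c₂) * (2 ^ (K + 2) * H) := h7.trans h11
      _ = (c₁ + c₂) * (2 ^ (K + 2) * H) * 1 := (mul_one _).symm
      _ ≤ _ := mul_le_mul_of_nonneg_left h10 h12

end Pool.Agent.Helper855N
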